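import Pool.Agent.Helper94.EC.Fin

set_option autoImplicit false

/-! From the finite products to the L-function near the edge of absolute convergence. -/

namespace Pool.Agent.Helper94.EC

open Finset NumberField IsDedekindDomain Filter Topology
open Pool.Agent.N842.HS (VT mem_VT)
open Pool.Agent.H341R2.EC (trc finite_mem)
open Pool.Agent.H921R2.TatePole (nm two_le_nm nm_summable)

section
variable {K : Type} [Field K] [NumberField K]

lemma tl_summable (V : HeightOneSpectrum (𝓞 K) → WeierstrassCurve (𝓞 K)) (w : HeightOneSpectrum (𝓞 K) → ℂ)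
    (hw : ∀ v, ‖w v‖ ≤ 1) {s : ℂ} (hs : 3 / 2 < s.re) : Summable fun v => tl V w s v := by
  have h1 : Summable fun v : HeightOneSpectrum (𝓞 K) => 5 * (nm v : ℝ) ^ (-(s.re - 1 / 2)) :=
    (nm_summable (by linarith)).mul_left 5
  refine Summable.of_norm_bounded_eventually h1 ?_
  have h6 : (6 : 𝓞 K) ≠ 0 := by norm_num
  filter_upwards [(finite_mem (K := K) h6).compl_mem_cofinite, (VT K 35).finite_toSet.compl_mem_cofinite] with v hv hv2
  have hv' : (6 : 𝓞 K) ∉ v.asIdeal := hv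
  have hv3 : 36 ≤ nm v := by
    by_contra hcon
    apply hv2
    rw [Finset.mem_coe, mem_VT]
    have : nm v ≤ 35 := by omega
    exact this
  have := (tl_near V w s v (hw v) hv' hv3 (by linarith)).2.1
  have e : -(s.re - 1 / 2) = 1 / 2 - s.re := by ring
  rw [e]
  exact this

lemma tprod_eq (V : HeightOneSpectrum (𝓞 K) → WeierstrassCurve (𝓞 K)) (w : HeightOneSpectrum (𝓞 K) → ℂ)
    (hw : ∀ v, ‖w v‖ ≤ 1) {s : ℂ} (hs : 3 / 2 < s.re) :
    ∏' v, (tf V w s v)⁻¹ = Complex.exp (∑' v : HeightOneSpectrum (𝓞 K), tl V w s v) := by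
  have h2 := (tl_summable V w hw hs).hasSum.cexp
  have h3 : (Complex.exp ∘ fun v => tl V w s v) = fun v => (tf V w s v)⁻¹ := by
    funext v
    rw [Function.comp_apply, tl, Complex.exp_neg, Complex.exp_log]
    exact tf_ne_zero V w s v (hw v) hs
  rw [h3] at h2
  exact h2.tprod_eq

/-- finite products -/
lemma prod_exp (V : HeightOneSpectrum (𝓞 K) → WeierstrassCurve (𝓞 K)) (w : HeightOneSpectrum (𝓞 K) → ℂ)
    (s : ℂ) (F : Finset (HeightOneSpectrum (𝓞 K))) (hF : ∀ v ∈ F, tf V w s v ≠ 0) :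
    ∏ v ∈ F, (tf V w s v)⁻¹ = Complex.exp (∑ v ∈ F, tl V w s v) := by
  rw [Complex.exp_sum]
  refine prod_congr rfl fun v hv => ?_
  rw [tl, Complex.exp_neg, Complex.exp_log (hF v hv)]

lemma exp_near {z : ℂ} {M : ℝ} (hM : M ≤ 1) (hz : ‖z‖ ≤ 1 / 2 * M) : ‖Complex.exp z - 1‖ ≤ M := by
  have h1 := Complex.norm_exp_sub_one_le (x := z) (by linarith [norm_nonneg z])
  linarith

lemma VT_split {T₁ T₂ : ℕ} (h : T₁ ≤ T₂) {E : Type} [AddCommMonoid E] (f : HeightOneSpectrum (𝓞 K) → E) :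
    ∑ v ∈ VT K T₂, f v = ∑ v ∈ VT K T₁, f v + ∑ v ∈ bt K T₁ T₂, f v := by
  classical
  have hd : Disjoint (VT K T₁) (bt K T₁ T₂) := by
    rw [Finset.disjoint_left]
    intro v hv hv'
    rw [mem_bt] at hv'
    rw [mem_VT] at hv
    have : nm v ≤ T₁ := hv
    omega
  have hu : VT K T₂ = VT K T₁ ∪ bt K T₁ T₂ := by
    ext v
    rw [mem_union, mem_bt, mem_VT, mem_VT]
    have : nm v = Ideal.absNorm v.asIdeal := rfl
    omega
  rw [hu, sum_union hd]

lemma tendsto_VT : Tendsto (fun T : ℕ => VT K T) atTop atTop := by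
  apply tendsto_atTop_finset_of_monotone
  · intro a b hab v hv
    rw [mem_VT] at hv ⊢
    exact hv.trans hab
  · intro v
    exact ⟨nm v, by rw [mem_VT]; exact le_rfl⟩

/-- the L-function and the partial product -/
theorem lim_near (V : HeightOneSpectrum (𝓞 K) → WeierstrassCurve (𝓞 K)) (w : HeightOneSpectrum (𝓞 K) → ℂ)
    (hw : ∀ v, ‖w v‖ ≤ 1) {s : ℂ} (hs : 3 / 2 < s.re) (T₁ : ℕ) {M : ℝ} (hM : M ≤ 1)
    (h : ∀ T₂ : ℕ, T₁ ≤ T₂ → ‖∑ v ∈ bt K T₁ T₂, tl V w s v‖ ≤ 1 / 2 * M) :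
    ‖(∏' v, (tf V w s v)⁻¹) / (∏ v ∈ VT K T₁, (tf V w s v)⁻¹) - 1‖ ≤ M := by
  rw [tprod_eq V w hw hs, prod_exp V w s _ (fun v _ => tf_ne_zero V w s v (hw v) hs), ← Complex.exp_sub]
  apply exp_near hM
  have h1 := (tl_summable V w hw hs).hasSum
  have h2 : Tendsto (fun T : ℕ => ∑ v ∈ VT K T, tl V w s v) atTop (𝓝 (∑' v, tl V w s v)) :=
    h1.comp tendsto_VT
  have h3 : Tendsto (fun T : ℕ => ‖∑ v ∈ VT K T, tl V w s v - ∑ v ∈ VT K T₁, tl V w s v‖) atTop
      (𝓝 ‖∑' v, tl V w s v - ∑ v ∈ VT K T₁, tl V w s v‖) := (h2.sub tendsto_const_nhds).norm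
  refine le_of_tendsto h3 ?_
  filter_upwards [eventually_ge_atTop T₁] with T hT
  rw [VT_split hT, add_sub_cancel_left]
  exact h T hT

end

end Pool.Agent.Helper94.EC
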