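import Pool.Agent.Helper94.EC.Eng
import Pool.Agent.Helper94.EC.Lim
import Pool.Agent.Helper94.BC.Conv

set_option autoImplicit false

/-! Twisted Euler products of elliptic curves along metric sequences: almost all indices, and all large
indices. -/

namespace Pool.Agent.Helper94.EC

open Finset NumberField IsDedekindDomain Filter Topology MeasureTheory
open Pool.Agent.H341R2.EC (trc IsMinAt)
open Pool.Agent.H921R2.TatePole (nm two_le_nm)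
open Pool.Agent.Helper94.EN (WD blk wd_conv wd_equiv md)

section
variable {K : Type} [Field K] [NumberField K] {I J : Type} [Fintype I] [Fintype J]

/-- the bounds for the sums of the traces and of the logarithms of the Euler factors -/
def EG (ω : Module.Basis I ℤ (𝓞 K)) (A B : MvPolynomial J (𝓞 K)) (κ δ : ℝ) (l : ℕ) (Y G : ℝ)
    (w : ℕ → HeightOneSpectrum (𝓞 K) → ℂ) (c : Option J × I → ℤ) : Prop :=
  ∀ V : HeightOneSpectrum (𝓞 K) → WeierstrassCurve (𝓞 K), (∀ v, IsMinAt (crv ω A B c) v (V v)) →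
    ∀ T₁ : ℕ, Y ≤ T₁ → (T₁ : ℝ) ≤ G ^ κ → ∀ j < T₁ ^ l, ∀ T₂ : ℕ, T₁ ≤ T₂ → ∀ s : ℂ, 1 + δ ≤ s.re →
      |s.im| ≤ (T₁ : ℝ) ^ l → ((T₂ : ℝ) ≤ G ^ κ ∨ 3 / 2 + Real.log (T₁ * Real.log G) / (κ * Real.log G) ≤ s.re) →
        ‖∑ v ∈ bt K T₁ T₂, fo V (w j) s v * (Real.log (nm v) : ℂ)‖ ≤ (T₁ : ℝ) ^ (1 + δ - s.re) ∧
        ‖∑ v ∈ bt K T₁ T₂, tl V (w j) s v‖ ≤ 1 / 2 * (T₁ : ℝ) ^ (1 + δ - s.re)

open Classical in
/-- the deterministic part -/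
theorem EG_of (ω : Module.Basis I ℤ (𝓞 K)) (A B : MvPolynomial J (𝓞 K))
    {n g : ℕ} (e : Option J ≃ Fin n) (e' : I ≃ Fin g) (δ : ℝ) (hδ : 0 < δ) (k l : ℕ) :
    ∃ Me y₀ : ℕ, 4 ≤ y₀ ∧ ∀ w : ℕ → HeightOneSpectrum (𝓞 K) → ℂ, (∀ j v, ‖w j v‖ ≤ 1) →
    ∃ R : ℕ → (Fin (n * g) → ℕ) → Prop,
      (∀ (S : Finset ℕ) (t : ℕ → Fin (n * g) → ℕ) (H y : ℕ), Pool.Agent.N647.TS.WellN S t H → y₀ ≤ y →
        ∀ E : (Fin (n * g) → ℕ) → Prop, (∀ m, (∀ T : ℕ, y ≤ T → T ^ Me ≤ 2 * H + 1 → R T m) → E m) →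
        ((S.filter fun n => ¬ E (t n)).card : ℝ) ≤ 1 / (y : ℝ) ^ k * S.card) ∧
      ∀ (c : Option J × I → ℤ) (Y G κ₀ : ℝ), (y₀ : ℝ) ≤ Y → 0 ≤ G → 0 < κ₀ → κ₀ ≤ 1 → ∀ L : ℕ, 0 < L →
        (∀ q : ℕ, 1 ≤ q → (q : ℝ) ≤ G ^ κ₀ → q ∣ L) →
        (∀ T : ℕ, Y ≤ T → (T : ℝ) ≤ G ^ κ₀ → R T (md L (vec e e' c))) → EG ω A B (κ₀ / 32) δ l Y G w c := by
  obtain ⟨Me, y₁, hy₁, h1⟩ := ec_eng ω A B e e' (δ / 2) (by positivity) k l
  obtain ⟨y₂, hy₂, h2⟩ := good_det (K := K) δ hδ l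
  refine ⟨Me, y₁ + y₂, by omega, fun w hw => ?_⟩
  obtain ⟨R, hR1, hR2⟩ := h1 w hw
  refine ⟨R, fun S t H y hWell hy E hE => ?_, fun c Y G κ₀ hY hG hκ₀ hκ₁ L hL hLq hRT V hV T₁ hYT hTG j hj T₂ hT12 s hs1 hs2 hs3 => ?_⟩
  · exact hR1 S t H y hWell (by omega) E hE
  have hyY : (y₁ : ℝ) ≤ Y := by
    push_cast at hY
    have : (0 : ℝ) ≤ y₂ := Nat.cast_nonneg _
    linarith
  have hyT : y₁ + y₂ ≤ T₁ := by exact_mod_cast hY.trans hYT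
  have hT1 : (4 : ℝ) ≤ T₁ := by exact_mod_cast (by omega : 4 ≤ T₁)
  have hG0 : 0 < G := by
    rcases hG.lt_or_eq with h | h
    · exact h
    · rw [← h, Real.zero_rpow (by positivity)] at hTG
      linarith
  have hG1 : 1 < G := by
    by_contra hcon
    push Not at hcon
    have := Real.rpow_le_one hG hcon (show 0 ≤ κ₀ / 32 by positivity)
    linarith
  have hlog : 0 < Real.log G := Real.log_pos hG1
  have hle : G ^ (κ₀ / 32) ≤ G ^ κ₀ := Real.rpow_le_rpow_of_exponent_le hG1.le (by linarith)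
  have hT32 : (T₁ : ℝ) ^ 32 ≤ G ^ κ₀ := by
    calc (T₁ : ℝ) ^ 32 ≤ (G ^ (κ₀ / 32)) ^ 32 := pow_le_pow_left₀ (by positivity) hTG 32
      _ = G ^ κ₀ := by
          rw [← Real.rpow_natCast, ← Real.rpow_mul hG]
          congr 1
          push_cast
          ring
  refine h2 V (w j) (hw j) (G ^ κ₀) T₁ (by omega) hT32 (fun T hT hTX a b z hz1 hz2 =>
    hR2 c Y (G ^ κ₀) hyY L hL hLq hRT V hV T₁ T hYT hT hTX j hj a b z hz1 hz2) T₂ hT12 s hs1 hs2 ?_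
  rcases hs3 with hs3 | hs3
  · exact Or.inl (hs3.trans hle)
  · right
    refine le_trans ?_ hs3
    rw [Real.log_rpow hG0]
    have h3 : Real.log (T₁ * (κ₀ * Real.log G)) ≤ Real.log (T₁ * Real.log G) := by
      apply Real.log_le_log (by positivity)
      have : κ₀ * Real.log G ≤ 1 * Real.log G := mul_le_mul_of_nonneg_right hκ₁ hlog.le
      rw [one_mul] at this
      exact mul_le_mul_of_nonneg_left this (by positivity)
    have h4 : 32 * Real.log (T₁ * (κ₀ * Real.log G)) / (κ₀ * Real.log G) ≤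
        Real.log (T₁ * Real.log G) / (κ₀ / 32 * Real.log G) := by
      have e1 : Real.log (T₁ * Real.log G) / (κ₀ / 32 * Real.log G) = 32 * Real.log (T₁ * Real.log G) / (κ₀ * Real.log G) := by
        field_simp
      rw [e1]
      apply div_le_div_of_nonneg_right _ (by positivity)
      linarith
    linarith

open Classical in
/-- **Metric sequences.** -/
theorem ec_metric (ω : Module.Basis I ℤ (𝓞 K)) (A B : MvPolynomial J (𝓞 K))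
    {κ₁ : ℝ} (hκ₁ : 0 < κ₁) (δ : ℝ) (hδ : 0 < δ) (k l : ℕ) : ∃ κ : ℝ, 0 < κ ∧ κ ≤ 1 ∧
    ∀ (D : Set ℕ) (x : ℕ → Option J × I → ℤ), WD D x κ₁ → ∃ y₀ : ℕ, ∀ y N : ℕ, y₀ ≤ y →
    ∀ w : ℕ → HeightOneSpectrum (𝓞 K) → ℂ, (∀ j v, ‖w j v‖ ≤ 1) → ∀ E : (Option J × I → ℤ) → Prop,
    (∀ c, EG ω A B κ δ l y N w c → E c) →
    (((blk D N).filter fun t => ¬ E (x t)).card : ℝ) ≤ 1 / (y : ℝ) ^ k * (blk D N).card := by
  obtain ⟨n, e⟩ : Σ n, Option J ≃ Fin n := ⟨_, Fintype.equivFin _⟩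
  obtain ⟨g, e'⟩ : Σ g, I ≃ Fin g := ⟨_, Fintype.equivFin _⟩
  obtain ⟨Me, y₁, hy₁, hgen⟩ := EG_of ω A B e e' δ hδ k l
  obtain ⟨κ, hκ, hconv⟩ := wd_conv (d := n * g) hκ₁ Me
  refine ⟨min κ 1 / 32, by positivity, by
    have := min_le_right κ 1
    linarith, fun D x hx => ?_⟩
  have hx' : WD D (fun t => vec e e' (x t)) κ₁ :=
    wd_equiv (finProdFinEquiv.symm.trans (Equiv.prodCongr e.symm e'.symm)) hx
  obtain ⟨y₄, hmain⟩ := hconv D _ hx'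
  refine ⟨y₁ + y₄, fun y N hy w hw E hE => ?_⟩
  obtain ⟨R, hR1, hR2⟩ := hgen w hw
  have h1 := hmain y N k (by omega) R (fun S v H hWell E' hE' => hR1 S v H y hWell (by omega) E' hE')
    (fun m => E (fun q => m (finProdFinEquiv (e q.1, e' q.2)))) ?_
  · refine le_trans (le_of_eq ?_) h1
    congr 2
    apply Finset.filter_congr
    intro t _
    rw [unvec]
  · intro m L hL0 hL hR
    obtain ⟨c, hc⟩ : ∃ c : Option J × I → ℤ, c = fun q => m (finProdFinEquiv (e q.1, e' q.2)) := ⟨_, rfl⟩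
    have hm : m = vec e e' c := by
      rw [hc]
      funext i
      unfold vec
      beta_reduce
      rw [Equiv.apply_symm_apply, Equiv.apply_symm_apply, Prod.mk.eta, Equiv.apply_symm_apply]
    rw [← hc]
    have hmin : (N : ℝ) ^ (min κ 1) ≤ (N : ℝ) ^ κ := by
      rcases Nat.eq_zero_or_pos N with h | h
      · subst h
        rw [Nat.cast_zero, Real.zero_rpow (lt_min hκ one_pos).ne', Real.zero_rpow hκ.ne']
      · exact Real.rpow_le_rpow_of_exponent_le (by exact_mod_cast h) (min_le_left _ _)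
    refine hE c (hR2 c y N (min κ 1) (by exact_mod_cast (by omega : y₁ ≤ y)) (Nat.cast_nonneg _) (lt_min hκ one_pos)
      (min_le_right _ _) L hL0 (fun q hq1 hq => hL q hq1 (hq.trans hmin)) fun T hT1 hT2 => ?_)
    rw [← hm]
    exact hR T (by exact_mod_cast hT1) (hT2.trans hmin)

/-- **Every large index.** -/
theorem ec_every (ω : Module.Basis I ℤ (𝓞 K)) (A B : MvPolynomial J (𝓞 K)) (δ : ℝ) (hδ : 0 < δ) (l : ℕ)
    (ε C : ℝ) (hε : 0 < ε) (hC : 0 ≤ C) :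
    ∃ κ : ℝ, 0 < κ ∧ κ ≤ 1 ∧ ∀ w : ℕ → HeightOneSpectrum (𝓞 K) → ℂ, (∀ j v, ‖w j v‖ ≤ 1) →
    ∀ G : ℕ → ℝ, Tendsto G atTop atTop →
    (∀ (u v : Option J × I → ℝ) (F : Option J × I → ℕ → ℝ → ℝ), (∀ i, ∀ᶠ t in atTop, BC.Cvx (u i) (v i) (G t) (F i t)) →
      ∀ᵐ ξ : Option J × I → ℝ, (∀ i, ξ i ∈ Set.Ioc (u i) (v i)) → ∀ᶠ t in atTop, ∀ z : Option J × I → ℤ,
        (∀ i, |(z i : ℝ) - F i t (ξ i)| ≤ (t : ℝ) ^ C) → EG ω A B κ δ l ((t : ℝ) ^ ε) (G t) w z) ∧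
    (∀ g' c : Option J × I → ℕ → ℝ, (∀ i, ∀ᶠ t in atTop, G t ≤ g' i t) →
      ∀ᵐ ξ : Option J × I → ℝ, ∀ᶠ t in atTop, ∀ z : Option J × I → ℤ,
        (∀ i, |(z i : ℝ) - (ξ i * g' i t + c i t)| ≤ (t : ℝ) ^ C) → EG ω A B κ δ l ((t : ℝ) ^ ε) (G t) w z) ∧
    (∀ (b : ℝ) (g' : Option J × I → ℕ → ℕ) (c : Option J × I → ℕ → ℝ), 1 < b → (∀ i, ∀ᶠ t in atTop, G t ≤ b ^ g' i t) →
      ∀ᵐ ξ : Option J × I → ℝ, (∀ i, b < ξ i) → ∀ᶠ t in atTop, ∀ z : Option J × I → ℤ,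
        (∀ i, |(z i : ℝ) - (ξ i ^ g' i t + c i t)| ≤ (t : ℝ) ^ C) → EG ω A B κ δ l ((t : ℝ) ^ ε) (G t) w z) := by
  classical
  obtain ⟨n, e⟩ : Σ n, Option J ≃ Fin n := ⟨_, Fintype.equivFin _⟩
  obtain ⟨g, e'⟩ : Σ g, I ≃ Fin g := ⟨_, Fintype.equivFin _⟩
  obtain ⟨k, hk⟩ := exists_nat_ge ((2 + C * ((n * g : ℕ) : ℝ)) / ε)
  have hk' : 2 + C * ((n * g : ℕ) : ℝ) ≤ ε * k := by
    rw [div_le_iff₀ hε] at hk
    linarith
  obtain ⟨Me, y₁, hy₁, hgen⟩ := EG_of ω A B e e' δ hδ k l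
  obtain ⟨κ₀, hκ₀⟩ : ∃ κ₀ : ℝ, κ₀ = 1 / (3 * (Me + 1)) := ⟨_, rfl⟩
  have hκ0 : 0 < κ₀ := by rw [hκ₀]; positivity
  have hκ1 : κ₀ ≤ 1 := by
    rw [hκ₀, div_le_one (by positivity)]
    have : (0 : ℝ) ≤ Me := Nat.cast_nonneg _
    linarith
  refine ⟨κ₀ / 32, by positivity, by linarith, fun w hw G hG => ?_⟩
  obtain ⟨R, hR1, hR2⟩ := hgen w hw
  have hbc := BC.bc_conv (d := n * g) (finProdFinEquiv.symm.trans (Equiv.prodCongr e.symm e'.symm)) k Me y₁ R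
    (fun S v H y hWell hy E hE => by
      have := hR1 S v H y hWell hy E hE
      convert this using 4) ε C hε hC hk' G hG
  rw [← hκ₀] at hbc
  obtain ⟨k1, k2, k3⟩ := hbc
  have hy : ∀ᶠ t : ℕ in atTop, (y₁ : ℝ) ≤ (t : ℝ) ^ ε :=
    ((tendsto_rpow_atTop hε).comp tendsto_natCast_atTop_atTop).eventually (eventually_ge_atTop (y₁ : ℝ))
  have hG0 : ∀ᶠ t : ℕ in atTop, 0 ≤ G t := hG.eventually (eventually_ge_atTop 0)
  refine ⟨fun u v F hF => ?_, fun g' c hg => ?_, fun b g' c hb hg => ?_⟩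
  · filter_upwards [k1 u v F hF] with ξ hξ hξ2
    filter_upwards [hξ hξ2, hy, hG0] with t ht1 ht2 ht3 z hz
    obtain ⟨L, hL, hLq, hT⟩ := ht1 z hz
    exact hR2 z _ _ κ₀ ht2 ht3 hκ0 hκ1 L hL hLq hT
  · filter_upwards [k2 g' c hg] with ξ hξ
    filter_upwards [hξ, hy, hG0] with t ht1 ht2 ht3 z hz
    obtain ⟨L, hL, hLq, hT⟩ := ht1 z hz
    exact hR2 z _ _ κ₀ ht2 ht3 hκ0 hκ1 L hL hLq hT
  · filter_upwards [k3 b g' c hb hg] with ξ hξ hξ2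
    filter_upwards [hξ hξ2, hy, hG0] with t ht1 ht2 ht3 z hz
    obtain ⟨L, hL, hLq, hT⟩ := ht1 z hz
    exact hR2 z _ _ κ₀ ht2 ht3 hκ0 hκ1 L hL hLq hT

end

end Pool.Agent.Helper94.EC
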