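import Pool.Agent.Helper94.EC.Fin

set_option autoImplicit false

/-! The engine for the twisted Euler products of the members of well distributed families of elliptic
curves over a number field, with a sequence of weights. -/

namespace Pool.Agent.Helper94.EC

open Finset NumberField IsDedekindDomain Filter Topology
open Pool.Agent.N842.HS (norm_card cf VT mem_VT)
open Pool.Agent.N647.NG (rc rc_mem rc_le rc_prime rd q_one sq_one genW ana_det Wt Wt_fin Wt_le Bd)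
open Pool.Agent.H341R2.EC (trc IsMinAt)
open Pool.Agent.H921R2.TatePole (nm two_le_nm)
open Pool.Agent.N647.TS (WellN)
open Pool.Agent.Helper94.EN (md)

section
variable {K : Type} [Field K] [NumberField K]

/-- the real weights for the sums up to `T` -/
noncomputable def fr (w : ℕ → HeightOneSpectrum (𝓞 K) → ℂ) (l T : ℕ) : Set (HeightOneSpectrum (𝓞 K) → ℝ) :=
  insert (fun _ => (1 : ℝ)) ((fun z : ℕ × Bool × Bool => rw' (w z.1) z.2.1 z.2.2) '' ({j | j < T ^ l} ×ˢ Set.univ))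

lemma fr_fin (w : ℕ → HeightOneSpectrum (𝓞 K) → ℂ) (l T : ℕ) (hT : 2 ≤ T) :
    (fr w l T).Finite ∧ (fr w l T).ncard ≤ T ^ (l + 3) := by
  have h1 : {j : ℕ | j < T ^ l} = ((range (T ^ l) : Finset ℕ) : Set ℕ) := by
    ext n
    simp
  have h2 : ({j : ℕ | j < T ^ l} ×ˢ (Set.univ : Set (Bool × Bool))).Finite := by
    rw [h1]
    exact (Finset.finite_toSet _).prod Set.finite_univ
  refine ⟨(h2.image _).insert _, (Set.ncard_insert_le _ _).trans ?_⟩
  have h3 := Set.ncard_image_le (f := fun z : ℕ × Bool × Bool => rw' (w z.1) z.2.1 z.2.2) h2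
  rw [Set.ncard_prod, h1, Set.ncard_coe_finset, card_range, Set.ncard_univ, Nat.card_prod, Nat.card_eq_fintype_card,
    Fintype.card_bool] at h3
  rw [h1]
  have h4 : 1 ≤ T ^ l := Nat.one_le_pow _ _ (by omega)
  have h5 : 8 ≤ T ^ 3 := by
    calc 8 = 2 ^ 3 := by norm_num
      _ ≤ T ^ 3 := Nat.pow_le_pow_left hT 3
  calc _ ≤ T ^ l * (2 * 2) + 1 := by omega
    _ ≤ T ^ l * 8 := by omega
    _ ≤ T ^ l * T ^ 3 := Nat.mul_le_mul_left _ h5
    _ = T ^ (l + 3) := by rw [pow_add]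

lemma fr_le (w : ℕ → HeightOneSpectrum (𝓞 K) → ℂ) (hw : ∀ j v, ‖w j v‖ ≤ 1) (l T : ℕ) :
    ∀ u ∈ fr w l T, ∀ v, |u v| ≤ 1 := by
  intro u hu v
  unfold fr at hu
  rcases Set.mem_insert_iff.1 hu with rfl | ⟨z, hz, rfl⟩
  · simp
  · exact RW_le {w z.1} (fun w' hw' v' => by
      rw [Set.mem_singleton_iff] at hw'
      rw [hw']
      exact hw _ v') _ (mem_RW (Set.mem_singleton _) z.2.1 z.2.2) v

/-- all weights for the sums up to `T` -/
noncomputable def WC (w : ℕ → HeightOneSpectrum (𝓞 K) → ℂ) (l T : ℕ) : Set (HeightOneSpectrum (𝓞 K) → ℝ) :=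
  if 2 ≤ T then Wt (fr w l T) (l + 3) T else ∅

lemma WC_fin (w : ℕ → HeightOneSpectrum (𝓞 K) → ℂ) (l T : ℕ) :
    (WC w l T).Finite ∧ (WC w l T).ncard ≤ T ^ (2 * (l + 3) + 5) := by
  unfold WC
  split_ifs with hT
  · obtain ⟨h1, h2⟩ := fr_fin w l T hT
    exact Wt_fin _ h1 (l + 3) T T hT le_rfl h2
  · exact ⟨Set.finite_empty, by rw [Set.ncard_empty]; exact Nat.zero_le _⟩

lemma WC_le (w : ℕ → HeightOneSpectrum (𝓞 K) → ℂ) (hw : ∀ j v, ‖w j v‖ ≤ 1) (l T : ℕ) (u : HeightOneSpectrum (𝓞 K) → ℝ)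
    (hu : u ∈ WC w l T) (v : HeightOneSpectrum (𝓞 K)) : |u v| ≤ 1 := by
  unfold WC at hu
  split_ifs at hu with hT
  · exact Wt_le _ (fr_le w hw l T) (l + 3) T u hu v
  · exact absurd hu (Set.notMem_empty _)

lemma one_WC (w : ℕ → HeightOneSpectrum (𝓞 K) → ℂ) (l T : ℕ) (hT : 2 ≤ T) :
    (fun _ => 1 : HeightOneSpectrum (𝓞 K) → ℝ) ∈ WC w l T := by
  unfold WC
  rw [if_pos hT]
  refine ⟨((fun _ => 1), 0, true), ⟨by unfold fr; exact Set.mem_insert _ _, ?_, Set.mem_univ _⟩, ?_⟩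
  · have : (0 : ℤ) ≤ (T : ℤ) ^ (l + 3 + 2) := by positivity
    constructor <;> linarith
  · funext v
    simp

lemma Wt_WC (w : ℕ → HeightOneSpectrum (𝓞 K) → ℂ) (l T : ℕ) (hT : 2 ≤ T) (j : ℕ) (hj : j < T ^ l) (a b : Bool)
    (u : HeightOneSpectrum (𝓞 K) → ℝ) (hu : u ∈ Wt {rw' (w j) a b} (l + 3) T) : u ∈ WC w l T := by
  unfold WC
  rw [if_pos hT]
  obtain ⟨z, ⟨hz1, hz2⟩, rfl⟩ := hu
  refine ⟨z, ⟨?_, hz2⟩, rfl⟩
  rw [Set.mem_singleton_iff] at hz1
  unfold fr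
  exact Set.mem_insert_of_mem _ ⟨(j, a, b), ⟨hj, Set.mem_univ _⟩, hz1.symm⟩

open Classical in
theorem ec_eng {I J : Type} [Fintype I] [Fintype J] (ω : Module.Basis I ℤ (𝓞 K)) (A B : MvPolynomial J (𝓞 K))
    {n g : ℕ} (e : Option J ≃ Fin n) (e' : I ≃ Fin g) (δ : ℝ) (hδ : 0 < δ) (k l : ℕ) :
    ∃ Me y₀ : ℕ, 2 ≤ y₀ ∧ ∀ w : ℕ → HeightOneSpectrum (𝓞 K) → ℂ, (∀ j v, ‖w j v‖ ≤ 1) →
    ∃ R : ℕ → (Fin (n * g) → ℕ) → Prop,
      (∀ (S : Finset ℕ) (t : ℕ → Fin (n * g) → ℕ) (H y : ℕ), WellN S t H → y₀ ≤ y →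
        ∀ E : (Fin (n * g) → ℕ) → Prop, (∀ m, (∀ T : ℕ, y ≤ T → T ^ Me ≤ 2 * H + 1 → R T m) → E m) →
        ((S.filter fun n => ¬ E (t n)).card : ℝ) ≤ 1 / (y : ℝ) ^ k * S.card) ∧
      (∀ (c : Option J × I → ℤ) (Y X : ℝ), (y₀ : ℝ) ≤ Y → ∀ L : ℕ, 0 < L → (∀ q : ℕ, 1 ≤ q → (q : ℝ) ≤ X → q ∣ L) →
        (∀ T : ℕ, Y ≤ T → T ≤ X → R T (md L (vec e e' c))) →
        ∀ V : HeightOneSpectrum (𝓞 K) → WeierstrassCurve (𝓞 K), (∀ v, IsMinAt (crv ω A B c) v (V v)) →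
        ∀ T₁ T₂ : ℕ, Y ≤ T₁ → T₁ ≤ T₂ → T₂ ≤ X → ∀ j < T₁ ^ l, ∀ a b : Bool, ∀ z : ℂ, 1 / 2 + δ ≤ z.re →
        |z.im| ≤ (T₁ : ℝ) ^ (l + 1) →
        ‖∑ v ∈ bt K T₁ T₂, ((rw' (w j) a b v * (Gt V v * Real.log (Ideal.absNorm v.asIdeal)) : ℝ) : ℂ) *
            (Ideal.absNorm v.asIdeal : ℂ) ^ (-z)‖ ≤ (T₁ : ℝ) ^ (1 / 2 + δ - z.re)) := by
  have hspan : Submodule.span ℤ (Set.range fun k => ω (e'.symm k)) = ⊤ := by
    have h1 : Set.range (fun k => ω (e'.symm k)) = Set.range ω :=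
      e'.symm.surjective.range_comp ω
    rw [h1]
    exact ω.span_eq
  obtain ⟨Me, y₁, hgen⟩ := genW (D := n) (fun k => ω (e'.symm k)) hspan (δ / 8) (by positivity) k (2 * (l + 3) + 5)
    (univ : Finset Bool) (Phi e A B) (fun _ => 0) (by
      intro θ _
      refine ⟨4, by norm_num, fun v => ?_⟩
      unfold Phi
      by_cases hθ : θ
      · rw [if_pos hθ]
        exact Bd_T e A B v
      · rw [if_neg hθ]
        exact Bd_B e A B v)
  obtain ⟨y₂, hdet⟩ := ana_det (K := K) δ hδ 2 (by norm_num)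
  obtain ⟨y₃, hy₃⟩ := eventually_atTop.1 (ev_five δ hδ)
  refine ⟨Me, y₁ + y₂ + y₃ + 3, by omega, fun w hw1 => ⟨fun T m => ∀ u ∈ WC w l T, ∀ θ ∈ (univ : Finset Bool),
    |∑ v ∈ VT K T, u v * ((Phi e A B θ v (rd (fun k => ω (e'.symm k)) v m) - 0) *
      Real.log (Ideal.absNorm v.asIdeal))| ≤ (T : ℝ) ^ (1 / 2 + δ / 8),
    fun S t H y hWell hy E hE => hgen S t H y hWell (by omega) (WC w l) (WC_fin w l)
      (fun T u hu v => WC_le w hw1 l T u hu v) E hE, fun c Y X hY L hL0 hL hR V hV T₁ T₂ hYT hT12 hTX j hj a b z hz1 hz2 => ?_⟩⟩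
  have hyT : y₁ + y₂ + y₃ + 3 ≤ T₁ := by exact_mod_cast hY.trans hYT
  have hrw1 : ∀ v, |rw' (w j) a b v| ≤ 1 := fun v => fr_le w hw1 l T₁ _
    (Set.mem_insert_of_mem _ ⟨(j, a, b), ⟨hj, Set.mem_univ _⟩, rfl⟩) v
  have h2 := hdet (l + 3) T₁ T₂ (by omega) {rw' (w j) a b} (fun u hu v => by
    rw [Set.mem_singleton_iff] at hu
    rw [hu]
    exact hrw1 v) (Gt V) (fun v => by
    have h3 := Gt_abs V v
    have h4 := sq_one v
    linarith) ∅ (fun T hyT' hTX' w' hw' => ?_) T₁ T₂ le_rfl hT12 le_rfl _ (Set.mem_singleton _)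
    z hz1 (hz2.trans (pow_le_pow_right₀ (by exact_mod_cast (by omega : 1 ≤ T₁)) (by omega)))
  · simp only [Set.mem_empty_iff_false, not_false_iff, true_and] at h2
    unfold bt
    exact h2
  · have hTX2 : (T : ℝ) ≤ X := le_trans (by exact_mod_cast hTX') hTX
    have hYT2 : Y ≤ T := hYT.trans (by exact_mod_cast hyT')
    have hRT := hR T hYT2 hTX2
    have hmemT : w' ∈ WC w l T := Wt_WC w l T (by omega) j (lt_of_lt_of_le hj (Nat.pow_le_pow_left hyT' l)) a b w' hw'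
    have h5 := hRT w' hmemT true (mem_univ _)
    have h6 := hRT _ (one_WC w l T (by omega)) false (mem_univ _)
    have hdvd : ∀ v ∈ VT K T, rc v ∣ L := by
      intro v hv
      rw [mem_VT] at hv
      refine hL (rc v) (rc_prime v).one_lt.le (le_trans ?_ hTX2)
      exact_mod_cast (rc_le v).trans hv
    simp only [Phi, if_true, sub_zero] at h5
    simp only [Phi, if_false, sub_zero, one_mul, Bool.false_eq_true] at h6
    have hw2 : ∀ v, |w' v| ≤ 1 := fun v => WC_le w hw1 l T w' hmemT v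
    have hlog : ∀ v : HeightOneSpectrum (𝓞 K), 0 ≤ Real.log (Ideal.absNorm v.asIdeal) := fun v =>
      Real.log_nonneg (q_one v)
    have h7 : |∑ v ∈ VT K T, w' v * (Gt V v * Real.log (Ideal.absNorm v.asIdeal)) -
        ∑ v ∈ VT K T, w' v * (PhiT e A B v (rd (fun k => ω (e'.symm k)) v (md L (vec e e' c))) *
          Real.log (Ideal.absNorm v.asIdeal))| ≤
        4 * ∑ v ∈ VT K T, PhiB e A B v (rd (fun k => ω (e'.symm k)) v (md L (vec e e' c))) *
          Real.log (Ideal.absNorm v.asIdeal) := by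
      rw [← sum_sub_distrib, mul_sum]
      refine (abs_sum_le_sum_abs _ _).trans (sum_le_sum fun v hv => ?_)
      have h8 := Gt_near e e' ω A B c V hV v hL0 (hdvd v hv)
      have e1 : w' v * (Gt V v * Real.log (Ideal.absNorm v.asIdeal)) -
          w' v * (PhiT e A B v (rd (fun k => ω (e'.symm k)) v (md L (vec e e' c))) *
            Real.log (Ideal.absNorm v.asIdeal)) =
          w' v * ((Gt V v - PhiT e A B v (rd (fun k => ω (e'.symm k)) v (md L (vec e e' c)))) *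
            Real.log (Ideal.absNorm v.asIdeal)) := by ring
      rw [e1, abs_mul, abs_mul, abs_of_nonneg (hlog v)]
      have h9 : 0 ≤ |Gt V v - PhiT e A B v (rd (fun k => ω (e'.symm k)) v (md L (vec e e' c)))| := abs_nonneg _
      calc |w' v| * (|Gt V v - PhiT e A B v (rd (fun k => ω (e'.symm k)) v (md L (vec e e' c)))| *
            Real.log (Ideal.absNorm v.asIdeal)) ≤ 1 * ((4 * PhiB e A B v (rd (fun k => ω (e'.symm k)) v (md L (vec e e' c)))) *
            Real.log (Ideal.absNorm v.asIdeal)) := by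
              apply mul_le_mul (hw2 v) _ (mul_nonneg h9 (hlog v)) zero_le_one
              exact mul_le_mul_of_nonneg_right h8 (hlog v)
        _ = _ := by ring
    have h10 : ∀ dp : DecidablePred fun v : HeightOneSpectrum (𝓞 K) => v ∉ (∅ : Set (HeightOneSpectrum (𝓞 K))),
        @Finset.filter _ (fun v => v ∉ (∅ : Set (HeightOneSpectrum (𝓞 K)))) dp (VT K T) = VT K T := fun dp =>
      Finset.filter_true_of_mem fun v _ => Set.notMem_empty v
    rw [h10]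
    have h11 := hy₃ T (by omega)
    have h12 := abs_sub_abs_le_abs_sub (∑ v ∈ VT K T, w' v * (Gt V v * Real.log (Ideal.absNorm v.asIdeal)))
      (∑ v ∈ VT K T, w' v * (PhiT e A B v (rd (fun k => ω (e'.symm k)) v (md L (vec e e' c))) *
          Real.log (Ideal.absNorm v.asIdeal)))
    have h13 := le_abs_self (∑ v ∈ VT K T, PhiB e A B v (rd (fun k => ω (e'.symm k)) v (md L (vec e e' c))) *
          Real.log (Ideal.absNorm v.asIdeal))
    linarith

/-- from the sums up to `X` to the products near the edge of absolute convergence -/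
theorem good_det (δ : ℝ) (hδ : 0 < δ) (l : ℕ) : ∃ y₀ : ℕ, 4 ≤ y₀ ∧
    ∀ (V : HeightOneSpectrum (𝓞 K) → WeierstrassCurve (𝓞 K)) (w : HeightOneSpectrum (𝓞 K) → ℂ), (∀ v, ‖w v‖ ≤ 1) →
    ∀ (X : ℝ) (T₁ : ℕ), y₀ ≤ T₁ → (T₁ : ℝ) ^ 32 ≤ X →
    (∀ T₂ : ℕ, T₁ ≤ T₂ → T₂ ≤ X → ∀ a b : Bool, ∀ z : ℂ, 1 / 2 + δ / 2 ≤ z.re → |z.im| ≤ (T₁ : ℝ) ^ (l + 1) →
        ‖∑ v ∈ bt K T₁ T₂, ((rw' w a b v * (Gt V v * Real.log (Ideal.absNorm v.asIdeal)) : ℝ) : ℂ) *
            (Ideal.absNorm v.asIdeal : ℂ) ^ (-z)‖ ≤ (T₁ : ℝ) ^ (1 / 2 + δ / 2 - z.re)) →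
    ∀ T₂ : ℕ, T₁ ≤ T₂ → ∀ s : ℂ, 1 + δ ≤ s.re → |s.im| ≤ (T₁ : ℝ) ^ l →
      ((T₂ : ℝ) ≤ X ∨ 3 / 2 + 32 * Real.log (T₁ * Real.log X) / Real.log X ≤ s.re) →
        ‖∑ v ∈ bt K T₁ T₂, fo V w s v * (Real.log (nm v) : ℂ)‖ ≤ (T₁ : ℝ) ^ (1 + δ - s.re) ∧
        ‖∑ v ∈ bt K T₁ T₂, tl V w s v‖ ≤ 1 / 2 * (T₁ : ℝ) ^ (1 + δ - s.re) := by
  obtain ⟨y₁, hy₁, hlog⟩ := log_det (K := K) δ hδ
  obtain ⟨y₂, hy₂, h6⟩ := six_bound (K := K)
  have hev : ∀ᶠ T : ℕ in atTop, (48 : ℝ) ≤ (T : ℝ) ^ (δ / 2) := by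
    have h1 : Tendsto (fun x : ℝ => x ^ (δ / 2)) atTop atTop := tendsto_rpow_atTop (by positivity)
    exact (h1.comp tendsto_natCast_atTop_atTop).eventually (eventually_ge_atTop _)
  obtain ⟨y₃, hy₃⟩ := eventually_atTop.1 hev
  obtain ⟨d, hd⟩ : ∃ d, d = Module.finrank ℤ (𝓞 K) := ⟨_, rfl⟩
  refine ⟨y₁ + y₂ + y₃ + 800 * d + 4, by omega, fun V w hw X T₁ hyT hTX hc T₂ hT12 s hs1 hs2 hs3 => ?_⟩
  have hT₁4 : 4 ≤ T₁ := by omega
  have hT1 : (4 : ℝ) ≤ T₁ := by exact_mod_cast hT₁4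
  have hT0 : (0 : ℝ) < T₁ := by linarith
  have hT1X : (T₁ : ℝ) ≤ X := by
    refine le_trans ?_ hTX
    calc (T₁ : ℝ) = (T₁ : ℝ) ^ 1 := (pow_one _).symm
      _ ≤ (T₁ : ℝ) ^ 32 := pow_le_pow_right₀ (by linarith) (by norm_num)
  have hX0 : (0 : ℝ) < X := by linarith
  obtain ⟨M, hM⟩ : ∃ M : ℝ, M = (T₁ : ℝ) ^ (1 + δ - s.re) := ⟨_, rfl⟩
  have hM0 : 0 < M := by rw [hM]; positivity
  rw [← hM]
  have hz : (s - 1 / 2 : ℂ).re = s.re - 1 / 2 := by simp
  have hz' : (s - 1 / 2 : ℂ).im = s.im := by simp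
  have h48 := hy₃ T₁ (by omega)
  have hsmall : 3 * (T₁ : ℝ) ^ (1 / 2 + δ / 2 - (s.re - 1 / 2)) ≤ 1 / 16 * M := by
    have e1 : M = (T₁ : ℝ) ^ (δ / 2) * (T₁ : ℝ) ^ (1 / 2 + δ / 2 - (s.re - 1 / 2)) := by
      rw [hM, ← Real.rpow_add hT0]
      congr 1
      ring
    rw [e1]
    have h0 : 0 ≤ (T₁ : ℝ) ^ (1 / 2 + δ / 2 - (s.re - 1 / 2)) := by positivity
    nlinarith
  have core : ∀ X' : ℕ, T₁ ≤ X' → (X' : ℝ) ≤ X →
      ‖∑ v ∈ bt K T₁ X', fo V w s v * (Real.log (nm v) : ℂ)‖ ≤ 1 / 16 * M ∧ ‖∑ v ∈ bt K T₁ X', fo V w s v‖ ≤ 1 / 16 * M := by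
    intro X' hX1 hX2
    have h1 := cplx V w s (bt K T₁ X') (fun v hv => h6 v (by rw [mem_bt] at hv; omega))
      ((T₁ : ℝ) ^ (1 / 2 + δ / 2 - (s.re - 1 / 2))) (fun a b => by
        have h2 := hc X' hX1 hX2 a b (s - 1 / 2) (by rw [hz]; linarith)
          (by rw [hz']; exact hs2.trans (pow_le_pow_right₀ (by linarith) (by omega)))
        rw [hz] at h2
        exact h2)
    have h0 : 0 ≤ (T₁ : ℝ) ^ (1 / 2 + δ / 2 - (s.re - 1 / 2)) := by positivity
    exact ⟨by linarith [h1.1], by linarith [h1.2]⟩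
  have hboth : ‖∑ v ∈ bt K T₁ T₂, fo V w s v * (Real.log (nm v) : ℂ)‖ ≤ 1 / 8 * M ∧
      ‖∑ v ∈ bt K T₁ T₂, fo V w s v‖ ≤ 1 / 8 * M := by
    by_cases hcase : (T₂ : ℝ) ≤ X
    · have h1 := core T₂ hT12 hcase
      exact ⟨by linarith [h1.1], by linarith [h1.2]⟩
    · have hs4 : 3 / 2 + 32 * Real.log (T₁ * Real.log X) / Real.log X ≤ s.re := by
        rcases hs3 with h | h
        · exact absurd h hcase
        · exact h
      push Not at hcase
      obtain ⟨X', hXdef⟩ : ∃ X' : ℕ, X' = ⌊X⌋₊ := ⟨_, rfl⟩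
      have hX1 : (X' : ℝ) ≤ X := by
        rw [hXdef]
        exact Nat.floor_le hX0.le
      have hX2 : T₁ ≤ X' := by
        rw [hXdef]
        exact Nat.le_floor hT1X
      have hX3 : X' ≤ T₂ := by
        have : (X' : ℝ) ≤ T₂ := hX1.trans hcase.le
        exact_mod_cast this
      obtain ⟨u, hu⟩ : ∃ u, u = Real.log X := ⟨_, rfl⟩
      obtain ⟨τ, hτ⟩ : ∃ τ, τ = Real.log T₁ := ⟨_, rfl⟩
      obtain ⟨η, hη⟩ : ∃ η, η = s.re - 3 / 2 := ⟨_, rfl⟩
      have hexp1 : Real.exp 1 ≤ 4 := by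
        have := Real.exp_one_lt_d9
        linarith
      have hτ1 : 1 ≤ τ := by
        rw [hτ, Real.le_log_iff_exp_le hT0]
        linarith
      have hu1 : 1 ≤ u := by
        rw [hu, Real.le_log_iff_exp_le hX0]
        linarith
      have hτu : τ ≤ (1 / 32 : ℝ) * u := by
        have h1 := Real.log_le_log (by positivity) hTX
        rw [Real.log_pow] at h1
        rw [hτ, hu]
        push_cast at h1
        linarith
      have hlogmul : Real.log (T₁ * Real.log X) = τ + Real.log u := by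
        rw [Real.log_mul hT0.ne' (by rw [← hu]; linarith), hτ, hu]
      rw [hlogmul, ← hu] at hs4
      have hη1 : (τ + Real.log u) / ((1 / 32 : ℝ) * u) ≤ η := by
        have e1 : (τ + Real.log u) / ((1 / 32 : ℝ) * u) = 32 * (τ + Real.log u) / u := by
          field_simp
        rw [hη, e1]
        linarith
      have hη0 : 0 < η := by
        refine lt_of_lt_of_le ?_ hη1
        have := Real.log_nonneg hu1
        positivity
      have hnum := tail_num (κ := 1 / 32) (by norm_num) (by norm_num) hu1 hτ1 hτu hη1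
      have hXN : (X' : ℝ) ^ (-(η / 2)) ≤ Real.exp (-(8 * (1 / 32) * η * u)) := by
        have h1 : X ^ (1 / 2 : ℝ) ≤ X' := by
          have h2 : X < X' + 1 := by
            rw [hXdef]
            exact Nat.lt_floor_add_one _
          have e1 : X = X ^ (1 / 2 : ℝ) * X ^ (1 / 2 : ℝ) := by
            rw [← Real.rpow_add hX0]
            norm_num
          have h3 : (2 : ℝ) ≤ X ^ (1 / 2 : ℝ) := by
            have h4 : (4 : ℝ) ^ (1 / 2 : ℝ) ≤ X ^ (1 / 2 : ℝ) :=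
              Real.rpow_le_rpow (by norm_num) (hT1.trans hT1X) (by norm_num)
            have h5 : (4 : ℝ) ^ (1 / 2 : ℝ) = 2 := by
              rw [← Real.sqrt_eq_rpow, show (4 : ℝ) = 2 ^ 2 by norm_num, Real.sqrt_sq (by norm_num)]
            linarith
          nlinarith
        calc (X' : ℝ) ^ (-(η / 2)) ≤ (X ^ (1 / 2 : ℝ)) ^ (-(η / 2)) :=
              Real.rpow_le_rpow_of_nonpos (by positivity) h1 (by linarith)
          _ = Real.exp (-(8 * (1 / 32) * η * u)) := by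
              rw [← Real.rpow_mul hX0.le, Real.rpow_def_of_pos hX0, ← hu]
              congr 1
              ring
      have htail := tail_le (K := K) η hη0 X' T₂ (by omega)
      rw [← hd] at htail
      have hTe : ∀ a : ℝ, Real.exp (a * τ) = (T₁ : ℝ) ^ a := by
        intro a
        rw [Real.rpow_def_of_pos hT0, ← hτ, mul_comm]
      have htail2 : 2 * ∑ v ∈ bt K X' T₂, (nm v : ℝ) ^ (-(1 + η)) * (1 + Real.log (nm v)) ≤ 1 / 16 * M := by
        have h1 : (d * (1 + 4 / η) ^ 2) * (X' : ℝ) ^ (-(η / 2)) ≤ d * (25 * Real.exp (-(5 * τ)) * Real.exp (-(η * τ))) := by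
          calc (d * (1 + 4 / η) ^ 2) * (X' : ℝ) ^ (-(η / 2)) ≤ (d * (1 + 4 / η) ^ 2) * Real.exp (-(8 * (1 / 32) * η * u)) :=
                mul_le_mul_of_nonneg_left hXN (by positivity)
            _ = d * ((1 + 4 / η) ^ 2 * Real.exp (-(8 * (1 / 32) * η * u))) := by ring
            _ ≤ _ := mul_le_mul_of_nonneg_left hnum (Nat.cast_nonneg _)
        have e5 : Real.exp (-(5 * τ)) * Real.exp (-(η * τ)) = (T₁ : ℝ) ^ (-(4 : ℝ)) * (T₁ : ℝ) ^ (-(1 : ℝ)) * (T₁ : ℝ) ^ (-η) := by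
          rw [← Real.exp_add, ← hTe, ← hTe, ← hTe, ← Real.exp_add, ← Real.exp_add]
          congr 1
          ring
        have h800 : (800 : ℝ) * d * (T₁ : ℝ) ^ (-(1 : ℝ)) ≤ 1 := by
          rw [Real.rpow_neg_one, ← div_eq_mul_inv, div_le_one hT0]
          exact_mod_cast (by omega : 800 * d ≤ T₁)
        have h2 : (T₁ : ℝ) ^ (-(4 : ℝ)) * (T₁ : ℝ) ^ (-η) ≤ M := by
          rw [hM, ← Real.rpow_add hT0]
          apply Real.rpow_le_rpow_of_exponent_le (by linarith)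
          rw [hη]
          linarith
        have h3 : 0 ≤ (T₁ : ℝ) ^ (-(4 : ℝ)) * (T₁ : ℝ) ^ (-η) := by positivity
        calc 2 * ∑ v ∈ bt K X' T₂, (nm v : ℝ) ^ (-(1 + η)) * (1 + Real.log (nm v)) ≤
              2 * (d * (25 * Real.exp (-(5 * τ)) * Real.exp (-(η * τ)))) := by linarith [htail.trans h1]
          _ = 50 * d * (Real.exp (-(5 * τ)) * Real.exp (-(η * τ))) := by ring
          _ = 1 / 16 * ((800 * d * (T₁ : ℝ) ^ (-(1 : ℝ))) * ((T₁ : ℝ) ^ (-(4 : ℝ)) * (T₁ : ℝ) ^ (-η))) := by rw [e5]; ring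
          _ ≤ 1 / 16 * (1 * M) := by
              apply mul_le_mul_of_nonneg_left _ (by norm_num)
              exact mul_le_mul h800 h2 h3 zero_le_one
          _ = _ := by ring
      have hterm : ∀ v ∈ bt K X' T₂, ‖fo V w s v‖ ≤ 2 * (nm v : ℝ) ^ (-(1 + η)) := by
        intro v hv
        have hv' := hv
        rw [mem_bt] at hv'
        have h1 := (tf_good V w s v (hw v) (h6 v (by omega)) (by linarith)).2
        have e2 : (1 / 2 - s.re) = -(1 + η) := by rw [hη]; ring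
        rw [e2] at h1
        exact h1
      have hlogv : ∀ v : HeightOneSpectrum (𝓞 K), 0 ≤ Real.log (nm v) := fun v => Real.log_nonneg (q_one v)
      obtain ⟨hc1, hc2⟩ := core X' hX2 hX1
      constructor
      · rw [bt_split hX2 hX3]
        refine (norm_add_le _ _).trans ?_
        have h1 : ‖∑ v ∈ bt K X' T₂, fo V w s v * (Real.log (nm v) : ℂ)‖ ≤
            2 * ∑ v ∈ bt K X' T₂, (nm v : ℝ) ^ (-(1 + η)) * (1 + Real.log (nm v)) := by
          rw [mul_sum]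
          refine (norm_sum_le _ _).trans (sum_le_sum fun v hv => ?_)
          rw [norm_mul, Complex.norm_real, Real.norm_of_nonneg (hlogv v)]
          have h2 := hterm v hv
          have h3 := hlogv v
          have h4 : 0 ≤ (nm v : ℝ) ^ (-(1 + η)) := by positivity
          nlinarith [mul_le_mul_of_nonneg_right h2 h3]
        linarith
      · rw [bt_split hX2 hX3]
        refine (norm_add_le _ _).trans ?_
        have h1 : ‖∑ v ∈ bt K X' T₂, fo V w s v‖ ≤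
            2 * ∑ v ∈ bt K X' T₂, (nm v : ℝ) ^ (-(1 + η)) * (1 + Real.log (nm v)) := by
          rw [mul_sum]
          refine (norm_sum_le _ _).trans (sum_le_sum fun v hv => ?_)
          have h2 := hterm v hv
          have h3 := hlogv v
          have h4 : 0 ≤ (nm v : ℝ) ^ (-(1 + η)) := by positivity
          nlinarith [mul_nonneg h4 h3]
        linarith
  refine ⟨by linarith [hboth.1], ?_⟩
  have h9 := hlog V w hw T₁ T₂ (by omega) s hs1
  rw [← hM] at h9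
  have h10 := norm_sub_norm_le (∑ v ∈ bt K T₁ T₂, tl V w s v) (∑ v ∈ bt K T₁ T₂, fo V w s v)
  linarith [hboth.2]

end

end Pool.Agent.Helper94.EC
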