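import Pool.Agent.Helper94.EC.Main
import Pool.Agent.N647.NG.SurfN
import Pool.Agent.N534.EC.Ser

set_option autoImplicit false

/-! Twisted Euler products: from the Dirichlet polynomials to the products. -/

namespace Pool.Agent.Helper94.EC

open Finset NumberField IsDedekindDomain Filter Topology
open Pool.Agent.N842.HS (VT mem_VT)
open Pool.Agent.N647.NG (rc q_one sq_one sum_VT Vp card_Vp rc_le)
open Pool.Agent.R433.MD (norm_nm_cpow nm_pos dlt_le)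
open Pool.Agent.H341R2.EC (trc dlt IsMinAt trc_le finite_mem)
open Pool.Agent.H921R2.TatePole (nm two_le_nm nm_summable)

section
variable {K : Type} [Field K] [NumberField K]

/-- the twisted local factor -/
noncomputable def tf (V : HeightOneSpectrum (𝓞 K) → WeierstrassCurve (𝓞 K)) (w : HeightOneSpectrum (𝓞 K) → ℂ)
    (s : ℂ) (v : HeightOneSpectrum (𝓞 K)) : ℂ :=
  1 - w v * ((trc V v : ℂ) * ((nm v : ℕ) : ℂ) ^ (-s)) + w v ^ 2 * (dlt V v * ((nm v : ℕ) : ℂ) ^ (1 - 2 * s))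

/-- the first order term -/
noncomputable def fo (V : HeightOneSpectrum (𝓞 K) → WeierstrassCurve (𝓞 K)) (w : HeightOneSpectrum (𝓞 K) → ℂ)
    (s : ℂ) (v : HeightOneSpectrum (𝓞 K)) : ℂ := w v * ((trc V v : ℂ) * ((nm v : ℕ) : ℂ) ^ (-s))

variable (V : HeightOneSpectrum (𝓞 K) → WeierstrassCurve (𝓞 K)) (w : HeightOneSpectrum (𝓞 K) → ℂ) (s : ℂ)
  (v : HeightOneSpectrum (𝓞 K))

lemma norm_trc : ‖(trc V v : ℂ)‖ = |(trc V v : ℝ)| := by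
  rw [← Complex.ofReal_intCast, Complex.norm_real, Real.norm_eq_abs]

lemma fo_le (hw : ‖w v‖ ≤ 1) {B : ℝ} (hB : |(trc V v : ℝ)| ≤ B) : ‖fo V w s v‖ ≤ B * (nm v : ℝ) ^ (-s.re) := by
  unfold fo
  rw [norm_mul, norm_mul, norm_trc, norm_nm_cpow, Complex.neg_re]
  have h1 : (0 : ℝ) ≤ (nm v : ℝ) ^ (-s.re) := by positivity
  have h2 : 0 ≤ |(trc V v : ℝ)| * (nm v : ℝ) ^ (-s.re) := by positivity
  calc ‖w v‖ * (|(trc V v : ℝ)| * (nm v : ℝ) ^ (-s.re)) ≤ 1 * (|(trc V v : ℝ)| * (nm v : ℝ) ^ (-s.re)) :=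
        mul_le_mul_of_nonneg_right hw h2
    _ ≤ B * (nm v : ℝ) ^ (-s.re) := by
        rw [one_mul]
        exact mul_le_mul_of_nonneg_right hB h1

lemma so_le (hw : ‖w v‖ ≤ 1) : ‖w v ^ 2 * (dlt V v * ((nm v : ℕ) : ℂ) ^ (1 - 2 * s))‖ ≤
    (nm v : ℝ) ^ (1 - 2 * s.re) := by
  rw [norm_mul, norm_mul, norm_pow, norm_nm_cpow]
  have e2 : (1 - 2 * s).re = 1 - 2 * s.re := by simp
  rw [e2]
  have h1 : (0 : ℝ) ≤ (nm v : ℝ) ^ (1 - 2 * s.re) := by positivity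
  have h2 : ‖w v‖ ^ 2 ≤ 1 := pow_le_one₀ (norm_nonneg _) hw
  have h3 := dlt_le V v
  calc ‖w v‖ ^ 2 * (‖dlt V v‖ * (nm v : ℝ) ^ (1 - 2 * s.re)) ≤ 1 * (1 * (nm v : ℝ) ^ (1 - 2 * s.re)) := by
        apply mul_le_mul h2 _ (by positivity) zero_le_one
        exact mul_le_mul_of_nonneg_right h3 h1
    _ = _ := by ring

lemma tf_eq : tf V w s v - 1 = -fo V w s v + w v ^ 2 * (dlt V v * ((nm v : ℕ) : ℂ) ^ (1 - 2 * s)) := by
  unfold tf fo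
  ring

lemma tf_sub_one (hw : ‖w v‖ ≤ 1) {B : ℝ} (hB : |(trc V v : ℝ)| ≤ B) :
    ‖tf V w s v - 1‖ ≤ B * (nm v : ℝ) ^ (-s.re) + (nm v : ℝ) ^ (1 - 2 * s.re) := by
  rw [tf_eq]
  refine (norm_add_le _ _).trans ?_
  rw [norm_neg]
  exact add_le_add (fo_le V w s v hw hB) (so_le V w s v hw)

lemma tf_good (hw : ‖w v‖ ≤ 1) (h6 : (6 : 𝓞 K) ∉ v.asIdeal) (hs : 1 ≤ s.re) :
    ‖tf V w s v - 1‖ ≤ 3 * (nm v : ℝ) ^ (1 / 2 - s.re) ∧ ‖fo V w s v‖ ≤ 2 * (nm v : ℝ) ^ (1 / 2 - s.re) := by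
  have hq : (2 : ℝ) ≤ nm v := by exact_mod_cast two_le_nm v
  have h0 := Pool.Agent.N534.EC.trc_hasse V v h6
  have h1 := tf_sub_one V w s v hw h0
  have h2 := fo_le V w s v hw h0
  have e1 : 2 * Real.sqrt (nm v) * (nm v : ℝ) ^ (-s.re) = 2 * (nm v : ℝ) ^ (1 / 2 - s.re) := by
    rw [Real.sqrt_eq_rpow, mul_assoc, ← Real.rpow_add (by linarith)]
    congr 2
  have h3 : (nm v : ℝ) ^ (1 - 2 * s.re) ≤ (nm v : ℝ) ^ (1 / 2 - s.re) :=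
    Real.rpow_le_rpow_of_exponent_le (by linarith) (by linarith)
  rw [e1] at h1 h2
  exact ⟨by linarith, h2⟩

/-- the logarithm of the inverse of the local factor -/
noncomputable def tl (v : HeightOneSpectrum (𝓞 K)) : ℂ := -Complex.log (tf V w s v)

lemma rpow_small {q : ℝ} (hq : 36 ≤ q) {σ : ℝ} (hσ : 1 ≤ σ) : q ^ (1 / 2 - σ) ≤ 1 / 6 := by
  have h1 : q ^ (1 / 2 - σ) ≤ q ^ (-(1 / 2) : ℝ) := Real.rpow_le_rpow_of_exponent_le (by linarith) (by linarith)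
  have h2 : q ^ (-(1 / 2) : ℝ) ≤ (36 : ℝ) ^ (-(1 / 2) : ℝ) :=
    Real.rpow_le_rpow_of_nonpos (by norm_num) hq (by norm_num)
  have h3 : (36 : ℝ) ^ (-(1 / 2) : ℝ) = 1 / 6 := by
    rw [Real.rpow_neg (by norm_num), ← Real.sqrt_eq_rpow, show (36 : ℝ) = 6 ^ 2 by norm_num,
      Real.sqrt_sq (by norm_num), one_div]
  linarith

lemma tl_near (hw : ‖w v‖ ≤ 1) (h6 : (6 : 𝓞 K) ∉ v.asIdeal) (hq : 36 ≤ nm v) (hs : 1 ≤ s.re) :
    ‖tl V w s v - fo V w s v‖ ≤ 10 * (nm v : ℝ) ^ (1 - 2 * s.re) ∧ ‖tl V w s v‖ ≤ 5 * (nm v : ℝ) ^ (1 / 2 - s.re) ∧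
      tf V w s v ≠ 0 := by
  have hqr : (36 : ℝ) ≤ nm v := by exact_mod_cast hq
  obtain ⟨z, hz⟩ : ∃ z, z = tf V w s v - 1 := ⟨_, rfl⟩
  have h1 := (tf_good V w s v hw h6 hs).1
  rw [← hz] at h1
  have h2 := rpow_small hqr hs
  have h3 : ‖z‖ ≤ 1 / 2 := by linarith
  have e1 : tf V w s v = 1 + z := by rw [hz]; ring
  have h4 : ‖Complex.log (1 + z) - z‖ ≤ ‖z‖ ^ 2 := by
    have h5 := Complex.norm_log_one_add_sub_self_le (z := z) (by linarith)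
    have h6 : (1 - ‖z‖)⁻¹ ≤ 2 := by
      rw [inv_le_comm₀ (by linarith) (by norm_num)]
      linarith
    calc _ ≤ ‖z‖ ^ 2 * (1 - ‖z‖)⁻¹ / 2 := h5
      _ ≤ ‖z‖ ^ 2 * 2 / 2 := by gcongr
      _ = _ := by ring
  have e2 : (nm v : ℝ) ^ (1 - 2 * s.re) = ((nm v : ℝ) ^ (1 / 2 - s.re)) ^ 2 := by
    rw [← Real.rpow_natCast, ← Real.rpow_mul (by linarith)]
    congr 1
    push_cast
    ring
  have h0 : 0 ≤ (nm v : ℝ) ^ (1 / 2 - s.re) := by positivity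
  refine ⟨?_, ?_, ?_⟩
  · have e3 : tl V w s v - fo V w s v = -(Complex.log (1 + z) - z) -
        w v ^ 2 * (dlt V v * ((nm v : ℕ) : ℂ) ^ (1 - 2 * s)) := by
      have := tf_eq V w s v
      rw [← hz] at this
      unfold tl
      rw [e1]
      linear_combination (-1 : ℂ) * this
    rw [e3]
    refine (norm_sub_le _ _).trans ?_
    rw [norm_neg]
    have h7 := so_le V w s v hw
    have h8 : ‖z‖ ^ 2 ≤ 9 * (nm v : ℝ) ^ (1 - 2 * s.re) := by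
      rw [e2]
      calc ‖z‖ ^ 2 ≤ (3 * (nm v : ℝ) ^ (1 / 2 - s.re)) ^ 2 := pow_le_pow_left₀ (norm_nonneg _) h1 2
        _ = _ := by ring
    linarith
  · have h9 : ‖Complex.log (1 + z)‖ ≤ 3 / 2 * ‖z‖ := Complex.norm_log_one_add_half_le_self h3
    unfold tl
    rw [norm_neg, e1]
    linarith
  · intro h
    rw [h] at hz
    rw [hz] at h3
    norm_num at h3

lemma tf_ne_zero (hw : ‖w v‖ ≤ 1) (hs : 3 / 2 < s.re) : tf V w s v ≠ 0 := by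
  intro h
  have h1 := trc_le V v
  have h1' : |(trc V v : ℝ)| ≤ (nm v : ℝ) := by exact_mod_cast h1
  have h2 := tf_sub_one V w s v hw h1'
  rw [h] at h2
  have hq : (2 : ℝ) ≤ (nm v : ℝ) := by exact_mod_cast two_le_nm v
  have h3 : (nm v : ℝ) * (nm v : ℝ) ^ (-s.re) = (nm v : ℝ) ^ (1 - s.re) := by
    rw [sub_eq_add_neg, Real.rpow_add (by linarith), Real.rpow_one]
  rw [h3] at h2
  have h4 : (nm v : ℝ) ^ (1 - s.re) ≤ (2 : ℝ) ^ (-(1 / 2) : ℝ) := by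
    calc (nm v : ℝ) ^ (1 - s.re) ≤ (2 : ℝ) ^ (1 - s.re) :=
          Real.rpow_le_rpow_of_nonpos (by norm_num) hq (by linarith)
      _ ≤ (2 : ℝ) ^ (-(1 / 2) : ℝ) :=
          Real.rpow_le_rpow_of_exponent_le (by norm_num) (by linarith)
  have h5 : (nm v : ℝ) ^ (1 - 2 * s.re) ≤ 1 / 4 := by
    calc (nm v : ℝ) ^ (1 - 2 * s.re) ≤ (2 : ℝ) ^ (1 - 2 * s.re) :=
          Real.rpow_le_rpow_of_nonpos (by norm_num) hq (by linarith)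
      _ ≤ (2 : ℝ) ^ (-2 : ℝ) := Real.rpow_le_rpow_of_exponent_le (by norm_num) (by linarith)
      _ = 1 / 4 := by
          rw [Real.rpow_neg (by norm_num)]
          norm_num
  have h6 : ((2 : ℝ) ^ (-(1 / 2) : ℝ)) ^ 2 = 1 / 2 := by
    rw [← Real.rpow_natCast, ← Real.rpow_mul (by norm_num)]
    norm_num
  have h7 : (0 : ℝ) ≤ (2 : ℝ) ^ (-(1 / 2) : ℝ) := by positivity
  have h8 : (2 : ℝ) ^ (-(1 / 2) : ℝ) < 3 / 4 := by nlinarith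
  norm_num at h2
  linarith

/-- the prime ideals with norms between two bounds -/
noncomputable def bt (K : Type) [Field K] [NumberField K] (T₁ T₂ : ℕ) : Finset (HeightOneSpectrum (𝓞 K)) :=
  (VT K T₂).filter (fun v => T₁ < Ideal.absNorm v.asIdeal)

lemma mem_bt {T₁ T₂ : ℕ} {v : HeightOneSpectrum (𝓞 K)} : v ∈ bt K T₁ T₂ ↔ T₁ < nm v ∧ nm v ≤ T₂ := by
  unfold bt
  rw [mem_filter, mem_VT]
  exact ⟨fun h => ⟨h.2, h.1⟩, fun h => ⟨h.2, h.1⟩⟩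

/-- the norms of the prime ideals above `6` are bounded -/
lemma six_bound : ∃ y₀ : ℕ, 36 ≤ y₀ ∧ ∀ v : HeightOneSpectrum (𝓞 K), y₀ < nm v → (6 : 𝓞 K) ∉ v.asIdeal := by
  have h6 : (6 : 𝓞 K) ≠ 0 := by norm_num
  have hfin := finite_mem (K := K) h6
  refine ⟨36 + ∑ v ∈ hfin.toFinset, nm v, by omega, fun v hv h => ?_⟩
  have h1 : v ∈ hfin.toFinset := by
    rw [Set.Finite.mem_toFinset]
    exact h
  have h2 : nm v ≤ ∑ v ∈ hfin.toFinset, nm v :=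
    single_le_sum (f := fun v => nm v) (fun _ _ => Nat.zero_le _) h1
  omega

/-- the logarithm of the product and the first order sum -/
lemma log_det (δ : ℝ) (hδ : 0 < δ) : ∃ y₀ : ℕ, 36 ≤ y₀ ∧ ∀ (V : HeightOneSpectrum (𝓞 K) → WeierstrassCurve (𝓞 K))
    (w : HeightOneSpectrum (𝓞 K) → ℂ), (∀ v, ‖w v‖ ≤ 1) → ∀ T₁ T₂ : ℕ, y₀ ≤ T₁ → ∀ s : ℂ, 1 + δ ≤ s.re →
      ‖∑ v ∈ bt K T₁ T₂, tl V w s v - ∑ v ∈ bt K T₁ T₂, fo V w s v‖ ≤ 1 / 8 * (T₁ : ℝ) ^ (1 + δ - s.re) := by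
  obtain ⟨Z, hZ0, hZ⟩ := Pool.Agent.N647.NG.sum_neg_pow (K := K) δ hδ
  obtain ⟨y₁, hy1, hy1'⟩ := six_bound (K := K)
  have hev : ∀ᶠ T : ℕ in atTop, 80 * Z ≤ (T : ℝ) ^ δ := by
    have h1 : Tendsto (fun x : ℝ => x ^ δ) atTop atTop := tendsto_rpow_atTop hδ
    exact (h1.comp tendsto_natCast_atTop_atTop).eventually (eventually_ge_atTop _)
  obtain ⟨y₂, hy₂⟩ := eventually_atTop.1 hev
  refine ⟨y₁ + y₂, by omega, fun V w hw T₁ T₂ hT s hs => ?_⟩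
  have hT1 : (1 : ℝ) ≤ T₁ := by exact_mod_cast (by omega : 1 ≤ T₁)
  have hT0 : (0 : ℝ) < T₁ := by linarith
  rw [← sum_sub_distrib]
  have h1 : ∀ v ∈ bt K T₁ T₂, ‖tl V w s v - fo V w s v‖ ≤
      10 * (T₁ : ℝ) ^ (2 + δ - 2 * s.re) * (nm v : ℝ) ^ (-(1 + δ)) := by
    intro v hv
    rw [mem_bt] at hv
    have hv1 : (T₁ : ℝ) ≤ nm v := by exact_mod_cast hv.1.le
    have h2 := (tl_near V w s v (hw v) (hy1' v (by omega)) (by omega) (by linarith)).1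
    refine h2.trans ?_
    rw [mul_assoc]
    apply mul_le_mul_of_nonneg_left _ (by norm_num)
    have e1 : (nm v : ℝ) ^ (1 - 2 * s.re) = (nm v : ℝ) ^ (2 + δ - 2 * s.re) * (nm v : ℝ) ^ (-(1 + δ)) := by
      rw [← Real.rpow_add (by linarith)]
      congr 1
      ring
    rw [e1]
    apply mul_le_mul_of_nonneg_right _ (by positivity)
    exact Real.rpow_le_rpow_of_nonpos hT0 hv1 (by linarith)
  refine (norm_sum_le _ _).trans ((sum_le_sum h1).trans ?_)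
  rw [← mul_sum]
  have h3 : ∑ v ∈ bt K T₁ T₂, (nm v : ℝ) ^ (-(1 + δ)) ≤ Z := by
    refine le_trans ?_ (hZ T₂)
    exact sum_le_sum_of_subset_of_nonneg (filter_subset _ _) fun _ _ _ => by positivity
  have h4 := hy₂ T₁ (by omega)
  have e2 : (T₁ : ℝ) ^ (2 + δ - 2 * s.re) = (T₁ : ℝ) ^ (1 + δ - s.re) * (T₁ : ℝ) ^ (1 - s.re) := by
    rw [← Real.rpow_add hT0]
    congr 1
    ring
  have h5 : (T₁ : ℝ) ^ (1 - s.re) ≤ (T₁ : ℝ) ^ (-δ) := Real.rpow_le_rpow_of_exponent_le hT1 (by linarith)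
  have h6 : Z * (T₁ : ℝ) ^ (-δ) ≤ 1 / 80 := by
    rw [Real.rpow_neg hT0.le, ← div_eq_mul_inv, div_le_iff₀ (by positivity)]
    linarith
  have h7 : 0 < (T₁ : ℝ) ^ (1 + δ - s.re) := by positivity
  calc 10 * (T₁ : ℝ) ^ (2 + δ - 2 * s.re) * ∑ v ∈ bt K T₁ T₂, (nm v : ℝ) ^ (-(1 + δ)) ≤
        10 * (T₁ : ℝ) ^ (2 + δ - 2 * s.re) * Z := mul_le_mul_of_nonneg_left h3 (by positivity)
    _ = 10 * ((T₁ : ℝ) ^ (1 + δ - s.re) * (Z * (T₁ : ℝ) ^ (1 - s.re))) := by rw [e2]; ring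
    _ ≤ 10 * ((T₁ : ℝ) ^ (1 + δ - s.re) * (Z * (T₁ : ℝ) ^ (-δ))) := by gcongr
    _ ≤ 10 * ((T₁ : ℝ) ^ (1 + δ - s.re) * (1 / 80)) := by gcongr
    _ = _ := by ring

end

end Pool.Agent.Helper94.EC
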