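import Pool.Agent.Helper94.EC.Tail

set_option autoImplicit false

/-! Twisted Euler products of the members of well distributed sequences of elliptic curves. -/

namespace Pool.Agent.Helper94.EC

open Finset NumberField IsDedekindDomain Filter Topology
open Pool.Agent.N842.HS (VT mem_VT)
open Pool.Agent.N647.NG (q_one sq_one)
open Pool.Agent.H341R2.EC (trc IsMinAt)
open Pool.Agent.H921R2.TatePole (nm two_le_nm)
open Pool.Agent.Helper94.EN (WD blk)

section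
variable {K : Type} [Field K] [NumberField K]

/-- the real weights -/
noncomputable def rw' (w : HeightOneSpectrum (𝓞 K) → ℂ) (a b : Bool) (v : HeightOneSpectrum (𝓞 K)) : ℝ :=
  (if a then (w v).re else (w v).im) * (if b then 1 else Real.log 2 / Real.log (Ideal.absNorm v.asIdeal))

/-- the set of the real weights -/
def RW (W : Set (HeightOneSpectrum (𝓞 K) → ℂ)) : Set (HeightOneSpectrum (𝓞 K) → ℝ) :=
  (fun z : (HeightOneSpectrum (𝓞 K) → ℂ) × Bool × Bool => rw' z.1 z.2.1 z.2.2) '' (W ×ˢ Set.univ)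

lemma RW_fin (W : Set (HeightOneSpectrum (𝓞 K) → ℂ)) (hW : W.Finite) (l y : ℕ) (hy : 4 ≤ y) (hWc : W.ncard ≤ y ^ l) :
    (RW W).Finite ∧ (RW W).ncard ≤ y ^ (l + 1) := by
  have hfin : (W ×ˢ (Set.univ : Set (Bool × Bool))).Finite := hW.prod Set.finite_univ
  refine ⟨hfin.image _, (Set.ncard_image_le hfin).trans ?_⟩
  rw [Set.ncard_prod, Set.ncard_univ, Nat.card_prod, Nat.card_eq_fintype_card, Fintype.card_bool]
  calc W.ncard * (2 * 2) ≤ y ^ l * y := Nat.mul_le_mul hWc (by omega)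
    _ = _ := by ring

lemma log_two_le (v : HeightOneSpectrum (𝓞 K)) : Real.log 2 ≤ Real.log (Ideal.absNorm v.asIdeal) := by
  apply Real.log_le_log (by norm_num)
  exact_mod_cast two_le_nm v

lemma RW_le (W : Set (HeightOneSpectrum (𝓞 K) → ℂ)) (hW1 : ∀ w ∈ W, ∀ v, ‖w v‖ ≤ 1) :
    ∀ w ∈ RW W, ∀ v, |w v| ≤ 1 := by
  rintro _ ⟨z, hz, rfl⟩ v
  have h1 := hW1 z.1 hz.1 v
  have h2 := Complex.abs_re_le_norm (z.1 v)
  have h3 := Complex.abs_im_le_norm (z.1 v)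
  have h4 := log_two_le v
  have h5 : 0 < Real.log 2 := Real.log_pos (by norm_num)
  unfold rw'
  rw [abs_mul]
  apply mul_le_one₀ _ (abs_nonneg _)
  · split_ifs
    · simp
    · rw [abs_of_nonneg (by positivity), div_le_one (by linarith)]
      exact h4
  · split_ifs
    · exact h2.trans h1
    · exact h3.trans h1

lemma mem_RW {W : Set (HeightOneSpectrum (𝓞 K) → ℂ)} {w : HeightOneSpectrum (𝓞 K) → ℂ} (hw : w ∈ W) (a b : Bool) :
    rw' w a b ∈ RW W := ⟨(w, a, b), ⟨hw, Set.mem_univ _⟩, rfl⟩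

/-- the terms of the sums with the real weights -/
lemma term_eq (V : HeightOneSpectrum (𝓞 K) → WeierstrassCurve (𝓞 K)) (v : HeightOneSpectrum (𝓞 K))
    (h6 : (6 : 𝓞 K) ∉ v.asIdeal) (r : ℝ) (s : ℂ) :
    ((r * (Gt V v * Real.log (Ideal.absNorm v.asIdeal)) : ℝ) : ℂ) * (Ideal.absNorm v.asIdeal : ℂ) ^ (-(s - 1 / 2)) =
      (r : ℂ) * ((trc V v : ℂ) * ((nm v : ℕ) : ℂ) ^ (-s)) * (Real.log (nm v) : ℂ) := by
  have hq := q_one v
  have hq0 : (0 : ℝ) < Ideal.absNorm v.asIdeal := by linarith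
  have hqc : (Ideal.absNorm v.asIdeal : ℂ) ≠ 0 := by
    have : (Ideal.absNorm v.asIdeal : ℝ) ≠ 0 := hq0.ne'
    exact_mod_cast this
  have hs0 : (Real.sqrt (Ideal.absNorm v.asIdeal) : ℝ) ≠ 0 := (Real.sqrt_pos.2 hq0).ne'
  have h1 : (Ideal.absNorm v.asIdeal : ℂ) ^ (-(s - 1 / 2)) =
      (Ideal.absNorm v.asIdeal : ℂ) ^ (-s) * (Real.sqrt (Ideal.absNorm v.asIdeal) : ℂ) := by
    have e1 : -(s - 1 / 2) = -s + 1 / 2 := by ring
    rw [e1, Complex.cpow_add _ _ hqc, Real.sqrt_eq_rpow, Complex.ofReal_cpow hq0.le]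
    congr 1
    push_cast
    rfl
  have h2 : Gt V v = (trc V v : ℝ) / Real.sqrt (Ideal.absNorm v.asIdeal) := by
    unfold Gt
    rw [if_neg h6]
  rw [h1, h2]
  have hnm : nm v = Ideal.absNorm v.asIdeal := rfl
  rw [hnm]
  have hs0c : ((Real.sqrt (Ideal.absNorm v.asIdeal) : ℝ) : ℂ) ≠ 0 := by exact_mod_cast hs0
  push_cast
  field_simp

/-- the sums with complex weights -/
lemma cplx (V : HeightOneSpectrum (𝓞 K) → WeierstrassCurve (𝓞 K)) (w : HeightOneSpectrum (𝓞 K) → ℂ) (s : ℂ)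
    (F : Finset (HeightOneSpectrum (𝓞 K))) (h6 : ∀ v ∈ F, (6 : 𝓞 K) ∉ v.asIdeal) (M : ℝ)
    (hM : ∀ a b : Bool, ‖∑ v ∈ F, ((rw' w a b v * (Gt V v * Real.log (Ideal.absNorm v.asIdeal)) : ℝ) : ℂ) *
      (Ideal.absNorm v.asIdeal : ℂ) ^ (-(s - 1 / 2))‖ ≤ M) :
    ‖∑ v ∈ F, fo V w s v * (Real.log (nm v) : ℂ)‖ ≤ 2 * M ∧ ‖∑ v ∈ F, fo V w s v‖ ≤ 3 * M := by
  have hM0 : 0 ≤ M := (norm_nonneg _).trans (hM true true)
  have key : ∀ b : Bool, ‖∑ v ∈ F, fo V w s v * (((if b then 1 else Real.log 2 / Real.log (nm v)) * Real.log (nm v) : ℝ) : ℂ)‖ ≤ 2 * M := by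
    intro b
    have e1 : ∑ v ∈ F, fo V w s v * (((if b then 1 else Real.log 2 / Real.log (nm v)) * Real.log (nm v) : ℝ) : ℂ) =
        ∑ v ∈ F, ((rw' w true b v * (Gt V v * Real.log (Ideal.absNorm v.asIdeal)) : ℝ) : ℂ) *
          (Ideal.absNorm v.asIdeal : ℂ) ^ (-(s - 1 / 2)) +
        (∑ v ∈ F, ((rw' w false b v * (Gt V v * Real.log (Ideal.absNorm v.asIdeal)) : ℝ) : ℂ) *
          (Ideal.absNorm v.asIdeal : ℂ) ^ (-(s - 1 / 2))) * Complex.I := by
      rw [sum_mul, ← sum_add_distrib]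
      refine sum_congr rfl fun v hv => ?_
      rw [term_eq V v (h6 v hv), term_eq V v (h6 v hv)]
      unfold rw' fo
      have h1 : w v = ((w v).re : ℂ) + ((w v).im : ℂ) * Complex.I := (Complex.re_add_im _).symm
      have hnm : nm v = Ideal.absNorm v.asIdeal := rfl
      nth_rewrite 1 [h1]
      simp only [if_true, Bool.false_eq_true, if_false]
      rw [hnm]
      push_cast
      ring
    rw [e1]
    refine (norm_add_le _ _).trans ?_
    rw [norm_mul, Complex.norm_I, mul_one]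
    linarith [hM true b, hM false b]
  constructor
  · have h1 := key true
    simp only [if_true, one_mul] at h1
    exact h1
  · have h1 := key false
    simp only [Bool.false_eq_true, if_false] at h1
    have e2 : ∑ v ∈ F, fo V w s v * ((Real.log 2 / Real.log (nm v) * Real.log (nm v) : ℝ) : ℂ) =
        (∑ v ∈ F, fo V w s v) * ((Real.log 2 : ℝ) : ℂ) := by
      rw [sum_mul]
      refine sum_congr rfl fun v _ => ?_
      have h2 := log_two_le v
      have h3 : 0 < Real.log 2 := Real.log_pos (by norm_num)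
      have hnm : nm v = Ideal.absNorm v.asIdeal := rfl
      rw [hnm, div_mul_cancel₀ _ (by linarith : Real.log (Ideal.absNorm v.asIdeal : ℝ) ≠ 0)]
    rw [e2, norm_mul, Complex.norm_real, Real.norm_of_nonneg (Real.log_nonneg (by norm_num))] at h1
    have h4 := Real.log_two_gt_d9
    nlinarith [norm_nonneg (∑ v ∈ F, fo V w s v)]

lemma bt_split {T₁ X T₂ : ℕ} (h1 : T₁ ≤ X) (h2 : X ≤ T₂) {E : Type} [AddCommMonoid E]
    (f : HeightOneSpectrum (𝓞 K) → E) : ∑ v ∈ bt K T₁ T₂, f v = ∑ v ∈ bt K T₁ X, f v + ∑ v ∈ bt K X T₂, f v := by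
  classical
  have hd : Disjoint (bt K T₁ X) (bt K X T₂) := by
    rw [Finset.disjoint_left]
    intro v hv hv'
    rw [mem_bt] at hv hv'
    omega
  have hu : bt K T₁ T₂ = bt K T₁ X ∪ bt K X T₂ := by
    ext v
    rw [mem_union, mem_bt, mem_bt, mem_bt]
    omega
  rw [hu, sum_union hd]

open Classical in
theorem good {I J : Type} [Fintype I] [Fintype J] (ω : Module.Basis I ℤ (𝓞 K)) (A B : MvPolynomial J (𝓞 K))
    {κ₁ : ℝ} (hκ₁ : 0 < κ₁) (δ : ℝ) (hδ : 0 < δ) (k l : ℕ) : ∃ κ : ℝ, 0 < κ ∧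
    ∀ (D : Set ℕ) (x : ℕ → Option J × I → ℤ), WD D x κ₁ → ∃ y₀ : ℕ, ∀ y N : ℕ, y₀ ≤ y →
    ∀ W : Set (HeightOneSpectrum (𝓞 K) → ℂ), W.Finite → W.ncard ≤ y ^ l → (∀ w ∈ W, ∀ v, ‖w v‖ ≤ 1) →
    ∀ E : (Option J × I → ℤ) → Prop,
    (∀ c, (∀ V : HeightOneSpectrum (𝓞 K) → WeierstrassCurve (𝓞 K), (∀ v, IsMinAt (crv ω A B c) v (V v)) →
      ∀ w ∈ W, ∀ T₁ T₂ : ℕ, y ≤ T₁ → T₁ ≤ T₂ → (T₁ : ℝ) ≤ (N : ℝ) ^ κ → ∀ s : ℂ, 1 + δ ≤ s.re →
        |s.im| ≤ (T₁ : ℝ) ^ l →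
        ((T₂ : ℝ) ≤ (N : ℝ) ^ κ ∨ 3 / 2 + Real.log (T₁ * Real.log N) / (κ * Real.log N) ≤ s.re) →
        ‖∑ v ∈ bt K T₁ T₂, fo V w s v * (Real.log (nm v) : ℂ)‖ ≤ (T₁ : ℝ) ^ (1 + δ - s.re) ∧
        ‖∑ v ∈ bt K T₁ T₂, tl V w s v‖ ≤ 1 / 2 * (T₁ : ℝ) ^ (1 + δ - s.re)) → E c) →
    (((blk D N).filter fun t => ¬ E (x t)).card : ℝ) ≤ 1 / (y : ℝ) ^ k * (blk D N).card := by
  obtain ⟨κ₀, hκ₀, hmain⟩ := sumsW ω A B hκ₁ (δ / 2) (by positivity) k (l + 1)
  obtain ⟨y₁, hy₁, hlog⟩ := log_det (K := K) δ hδ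
  obtain ⟨y₂, hy₂, h6⟩ := six_bound (K := K)
  have hev : ∀ᶠ T : ℕ in atTop, (48 : ℝ) ≤ (T : ℝ) ^ (δ / 2) := by
    have h1 : Tendsto (fun x : ℝ => x ^ (δ / 2)) atTop atTop := tendsto_rpow_atTop (by positivity)
    exact (h1.comp tendsto_natCast_atTop_atTop).eventually (eventually_ge_atTop _)
  obtain ⟨y₃, hy₃⟩ := eventually_atTop.1 hev
  obtain ⟨d, hd⟩ : ∃ d, d = Module.finrank ℤ (𝓞 K) := ⟨_, rfl⟩
  obtain ⟨κ, hκdef⟩ : ∃ κ, κ = min (κ₀ / 32) 1 := ⟨_, rfl⟩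
  have hκ : 0 < κ := by rw [hκdef]; exact lt_min (by positivity) one_pos
  have hκ1 : κ ≤ 1 := by rw [hκdef]; exact min_le_right _ _
  have hκ2 : 32 * κ ≤ κ₀ := by
    have : κ ≤ κ₀ / 32 := by rw [hκdef]; exact min_le_left _ _
    linarith
  refine ⟨κ, hκ, fun D x hx => ?_⟩
  obtain ⟨y₄, hx4⟩ := hmain D x hx
  refine ⟨y₁ + y₂ + y₃ + y₄ + 800 * d + 4, fun y N hy W hW hWc hW1 E hE => ?_⟩
  obtain ⟨hRf, hRc⟩ := RW_fin W hW l y (by omega) hWc
  refine hx4 y N (by omega) (RW W) hRf hRc (RW_le W hW1) E fun c hc => hE c fun V hV w hw T₁ T₂ hyT hT12 hT1N s hs1 hs2 hs3 => ?_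
  have hT₁4 : 4 ≤ T₁ := by omega
  have hT1 : (4 : ℝ) ≤ T₁ := by exact_mod_cast hT₁4
  have hT0 : (0 : ℝ) < T₁ := by linarith
  -- `N` is large
  have hN1 : (1 : ℝ) ≤ N := by
    by_contra hcon
    push Not at hcon
    have h1 : N = 0 := by
      have : N < 1 := by exact_mod_cast hcon
      omega
    rw [h1, Nat.cast_zero, Real.zero_rpow hκ.ne'] at hT1N
    linarith
  have hN0 : (0 : ℝ) < N := by linarith
  have hT1N' : (T₁ : ℝ) ≤ N := by
    refine hT1N.trans ?_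
    calc (N : ℝ) ^ κ ≤ (N : ℝ) ^ (1 : ℝ) := Real.rpow_le_rpow_of_exponent_le hN1 hκ1
      _ = N := Real.rpow_one _
  obtain ⟨M, hM⟩ : ∃ M : ℝ, M = (T₁ : ℝ) ^ (1 + δ - s.re) := ⟨_, rfl⟩
  have hM0 : 0 < M := by rw [hM]; positivity
  rw [← hM]
  have hz : (s - 1 / 2 : ℂ).re = s.re - 1 / 2 := by simp
  have hz' : (s - 1 / 2 : ℂ).im = s.im := by simp
  have h48 := hy₃ T₁ (by omega)
  have hsmall : 3 * (T₁ : ℝ) ^ (1 / 2 + δ / 2 - (s.re - 1 / 2)) ≤ 1 / 16 * M := by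
    have e1 : M = (T₁ : ℝ) ^ (δ / 2) * (T₁ : ℝ) ^ (1 / 2 + δ / 2 - (s.re - 1 / 2)) := by
      rw [hM, ← Real.rpow_add hT0]
      congr 1
      ring
    rw [e1]
    have h0 : 0 ≤ (T₁ : ℝ) ^ (1 / 2 + δ / 2 - (s.re - 1 / 2)) := by positivity
    nlinarith
  -- the primes of norm at most `N ^ κ₀`
  have core : ∀ X : ℕ, T₁ ≤ X → (X : ℝ) ≤ (N : ℝ) ^ κ₀ →
      ‖∑ v ∈ bt K T₁ X, fo V w s v * (Real.log (nm v) : ℂ)‖ ≤ 1 / 16 * M ∧ ‖∑ v ∈ bt K T₁ X, fo V w s v‖ ≤ 1 / 16 * M := by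
    intro X hX1 hX2
    have h1 := cplx V w s (bt K T₁ X) (fun v hv => h6 v (by rw [mem_bt] at hv; omega))
      ((T₁ : ℝ) ^ (1 / 2 + δ / 2 - (s.re - 1 / 2))) (fun a b => by
        have h2 := hc V hV T₁ X hyT hX1 hX2 _ (mem_RW hw a b) (s - 1 / 2) (by rw [hz]; linarith)
          (by rw [hz']; exact hs2.trans (pow_le_pow_right₀ (by linarith) (by omega)))
        rw [hz] at h2
        exact h2)
    have h0 : 0 ≤ (T₁ : ℝ) ^ (1 / 2 + δ / 2 - (s.re - 1 / 2)) := by positivity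
    exact ⟨by linarith [h1.1], by linarith [h1.2]⟩
  have hboth : ‖∑ v ∈ bt K T₁ T₂, fo V w s v * (Real.log (nm v) : ℂ)‖ ≤ 1 / 8 * M ∧
      ‖∑ v ∈ bt K T₁ T₂, fo V w s v‖ ≤ 1 / 8 * M := by
    by_cases hcase : (T₂ : ℝ) ≤ (N : ℝ) ^ κ₀
    · have h1 := core T₂ hT12 hcase
      exact ⟨by linarith [h1.1], by linarith [h1.2]⟩
    · have hκκ₀ : (N : ℝ) ^ κ ≤ (N : ℝ) ^ κ₀ := Real.rpow_le_rpow_of_exponent_le hN1 (by linarith)
      have hs4 : 3 / 2 + Real.log (T₁ * Real.log N) / (κ * Real.log N) ≤ s.re := by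
        rcases hs3 with h | h
        · exact absurd (h.trans hκκ₀) hcase
        · exact h
      push Not at hcase
      obtain ⟨X, hXdef⟩ : ∃ X : ℕ, X = ⌊(N : ℝ) ^ κ₀⌋₊ := ⟨_, rfl⟩
      have hX1 : (X : ℝ) ≤ (N : ℝ) ^ κ₀ := by
        rw [hXdef]
        exact Nat.floor_le (by positivity)
      have hX2 : T₁ ≤ X := by
        rw [hXdef]
        exact Nat.le_floor (hT1N.trans hκκ₀)
      have hX3 : X ≤ T₂ := by
        have : (X : ℝ) ≤ T₂ := hX1.trans hcase.le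
        exact_mod_cast this
      obtain ⟨u, hu⟩ : ∃ u, u = Real.log N := ⟨_, rfl⟩
      obtain ⟨τ, hτ⟩ : ∃ τ, τ = Real.log T₁ := ⟨_, rfl⟩
      obtain ⟨η, hη⟩ : ∃ η, η = s.re - 3 / 2 := ⟨_, rfl⟩
      have hexp1 : Real.exp 1 ≤ 4 := by
        have := Real.exp_one_lt_d9
        linarith
      have hτ1 : 1 ≤ τ := by
        rw [hτ, Real.le_log_iff_exp_le hT0]
        linarith
      have hu1 : 1 ≤ u := by
        rw [hu, Real.le_log_iff_exp_le hN0]
        linarith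
      have hτu : τ ≤ κ * u := by
        rw [hτ, hu, ← Real.log_rpow hN0]
        exact Real.log_le_log hT0 hT1N
      have hlogmul : Real.log (T₁ * Real.log N) = τ + Real.log u := by
        rw [Real.log_mul hT0.ne' (by rw [← hu]; linarith), hτ, hu]
      rw [hlogmul, ← hu] at hs4
      have hη1 : (τ + Real.log u) / (κ * u) ≤ η := by
        rw [hη]
        linarith
      have hη0 : 0 < η := by
        refine lt_of_lt_of_le ?_ hη1
        have := Real.log_nonneg hu1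
        positivity
      have hnum := tail_num hκ hκ1 hu1 hτ1 hτu hη1
      have hXN : (X : ℝ) ^ (-(η / 2)) ≤ Real.exp (-(8 * κ * η * u)) := by
        have h1 : (N : ℝ) ^ (κ₀ / 2) ≤ X := by
          have h2 : (N : ℝ) ^ κ₀ < X + 1 := by
            rw [hXdef]
            exact Nat.lt_floor_add_one _
          have e1 : (N : ℝ) ^ κ₀ = (N : ℝ) ^ (κ₀ / 2) * (N : ℝ) ^ (κ₀ / 2) := by
            rw [← Real.rpow_add hN0]
            congr 1
            ring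
          have h3 : (2 : ℝ) ≤ (N : ℝ) ^ (κ₀ / 2) := by
            have : (N : ℝ) ^ κ ≤ (N : ℝ) ^ (κ₀ / 2) := Real.rpow_le_rpow_of_exponent_le hN1 (by linarith)
            linarith
          rw [e1] at h2
          nlinarith
        calc (X : ℝ) ^ (-(η / 2)) ≤ ((N : ℝ) ^ (κ₀ / 2)) ^ (-(η / 2)) :=
              Real.rpow_le_rpow_of_nonpos (by positivity) h1 (by linarith)
          _ = Real.exp (-(κ₀ * η * u / 4)) := by
              rw [← Real.rpow_mul hN0.le, Real.rpow_def_of_pos hN0, ← hu]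
              congr 1
              ring
          _ ≤ _ := by
              apply Real.exp_le_exp.2
              have : 32 * κ * (η * u) ≤ κ₀ * (η * u) := mul_le_mul_of_nonneg_right hκ2 (by positivity)
              nlinarith
      have htail := tail_le (K := K) η hη0 X T₂ (by omega)
      rw [← hd] at htail
      have hTe : ∀ a : ℝ, Real.exp (a * τ) = (T₁ : ℝ) ^ a := by
        intro a
        rw [Real.rpow_def_of_pos hT0, ← hτ, mul_comm]
      have htail2 : 2 * ∑ v ∈ bt K X T₂, (nm v : ℝ) ^ (-(1 + η)) * (1 + Real.log (nm v)) ≤ 1 / 16 * M := by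
        have h1 : (d * (1 + 4 / η) ^ 2) * (X : ℝ) ^ (-(η / 2)) ≤ d * (25 * Real.exp (-(5 * τ)) * Real.exp (-(η * τ))) := by
          calc (d * (1 + 4 / η) ^ 2) * (X : ℝ) ^ (-(η / 2)) ≤ (d * (1 + 4 / η) ^ 2) * Real.exp (-(8 * κ * η * u)) :=
                mul_le_mul_of_nonneg_left hXN (by positivity)
            _ = d * ((1 + 4 / η) ^ 2 * Real.exp (-(8 * κ * η * u))) := by ring
            _ ≤ _ := mul_le_mul_of_nonneg_left hnum (Nat.cast_nonneg _)
        have e5 : Real.exp (-(5 * τ)) * Real.exp (-(η * τ)) = (T₁ : ℝ) ^ (-(4 : ℝ)) * (T₁ : ℝ) ^ (-(1 : ℝ)) * (T₁ : ℝ) ^ (-η) := by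
          rw [← Real.exp_add, ← hTe, ← hTe, ← hTe, ← Real.exp_add, ← Real.exp_add]
          congr 1
          ring
        have h800 : (800 : ℝ) * d * (T₁ : ℝ) ^ (-(1 : ℝ)) ≤ 1 := by
          rw [Real.rpow_neg_one, ← div_eq_mul_inv, div_le_one hT0]
          exact_mod_cast (by omega : 800 * d ≤ T₁)
        have h2 : (T₁ : ℝ) ^ (-(4 : ℝ)) * (T₁ : ℝ) ^ (-η) ≤ M := by
          rw [hM, ← Real.rpow_add hT0]
          apply Real.rpow_le_rpow_of_exponent_le (by linarith)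
          rw [hη]
          linarith
        have h3 : 0 ≤ (T₁ : ℝ) ^ (-(4 : ℝ)) * (T₁ : ℝ) ^ (-η) := by positivity
        calc 2 * ∑ v ∈ bt K X T₂, (nm v : ℝ) ^ (-(1 + η)) * (1 + Real.log (nm v)) ≤
              2 * (d * (25 * Real.exp (-(5 * τ)) * Real.exp (-(η * τ)))) := by linarith [htail.trans h1]
          _ = 50 * d * (Real.exp (-(5 * τ)) * Real.exp (-(η * τ))) := by ring
          _ = 1 / 16 * ((800 * d * (T₁ : ℝ) ^ (-(1 : ℝ))) * ((T₁ : ℝ) ^ (-(4 : ℝ)) * (T₁ : ℝ) ^ (-η))) := by rw [e5]; ring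
          _ ≤ 1 / 16 * (1 * M) := by
              apply mul_le_mul_of_nonneg_left _ (by norm_num)
              exact mul_le_mul h800 h2 h3 zero_le_one
          _ = _ := by ring
      have hterm : ∀ v ∈ bt K X T₂, ‖fo V w s v‖ ≤ 2 * (nm v : ℝ) ^ (-(1 + η)) := by
        intro v hv
        have hv' := hv
        rw [mem_bt] at hv'
        have h1 := (tf_good V w s v (hW1 w hw v) (h6 v (by omega)) (by linarith)).2
        have e2 : (1 / 2 - s.re) = -(1 + η) := by rw [hη]; ring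
        rw [e2] at h1
        exact h1
      have hlogv : ∀ v : HeightOneSpectrum (𝓞 K), 0 ≤ Real.log (nm v) := fun v => Real.log_nonneg (q_one v)
      obtain ⟨hc1, hc2⟩ := core X hX2 hX1
      constructor
      · rw [bt_split hX2 hX3]
        refine (norm_add_le _ _).trans ?_
        have h1 : ‖∑ v ∈ bt K X T₂, fo V w s v * (Real.log (nm v) : ℂ)‖ ≤
            2 * ∑ v ∈ bt K X T₂, (nm v : ℝ) ^ (-(1 + η)) * (1 + Real.log (nm v)) := by
          rw [mul_sum]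
          refine (norm_sum_le _ _).trans (sum_le_sum fun v hv => ?_)
          rw [norm_mul, Complex.norm_real, Real.norm_of_nonneg (hlogv v)]
          have h2 := hterm v hv
          have h3 := hlogv v
          have h4 : 0 ≤ (nm v : ℝ) ^ (-(1 + η)) := by positivity
          nlinarith [mul_le_mul_of_nonneg_right h2 h3]
        linarith
      · rw [bt_split hX2 hX3]
        refine (norm_add_le _ _).trans ?_
        have h1 : ‖∑ v ∈ bt K X T₂, fo V w s v‖ ≤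
            2 * ∑ v ∈ bt K X T₂, (nm v : ℝ) ^ (-(1 + η)) * (1 + Real.log (nm v)) := by
          rw [mul_sum]
          refine (norm_sum_le _ _).trans (sum_le_sum fun v hv => ?_)
          have h2 := hterm v hv
          have h3 := hlogv v
          have h4 : 0 ≤ (nm v : ℝ) ^ (-(1 + η)) := by positivity
          nlinarith [mul_nonneg h4 h3]
        linarith
  refine ⟨by linarith [hboth.1], ?_⟩
  have h9 := hlog V w (fun v => hW1 w hw v) T₁ T₂ (by omega) s hs1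
  rw [← hM] at h9
  have h10 := norm_sub_norm_le (∑ v ∈ bt K T₁ T₂, tl V w s v) (∑ v ∈ bt K T₁ T₂, fo V w s v)
  linarith [hboth.2]

end

end Pool.Agent.Helper94.EC
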