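import Pool.Agent.Helper94.EC.Both

set_option autoImplicit false

/-! The full range of the primes: composition of the range up to a power of the index (for almost all
indices) and of the range up to a power of the coefficients (for all large indices). -/

namespace Pool.Agent.Helper94.EC

open Finset NumberField IsDedekindDomain Filter Topology MeasureTheory
open Pool.Agent.H341R2.EC (trc IsMinAt)
open Pool.Agent.H921R2.TatePole (nm two_le_nm)

section
variable {K : Type} [Field K] [NumberField K] {I J : Type} [Fintype I] [Fintype J]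

/-- the conditions for the bounds beyond a power of `G` -/
def Edge (κ : ℝ) (t : ℕ) (G : ℝ) (T : ℕ) (s : ℂ) : Prop :=
  ((T : ℝ) ≤ (t : ℝ) ^ κ ∧ 3 / 2 + Real.log (T * Real.log t) / (κ * Real.log t) ≤ s.re) ∨
    ((T : ℝ) ≤ G ^ κ ∧ 3 / 2 + Real.log (T * t * Real.log G) / (κ * Real.log G) ≤ s.re)

/-- the bounds for the sums of the traces and of the logarithms of the Euler factors, full range -/
def EF (ω : Module.Basis I ℤ (𝓞 K)) (A B : MvPolynomial J (𝓞 K)) (κ δ : ℝ) (l : ℕ) (Y : ℝ) (t : ℕ) (G : ℝ)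
    (w : ℕ → HeightOneSpectrum (𝓞 K) → ℂ) (c : Option J × I → ℤ) : Prop :=
  ∀ V : HeightOneSpectrum (𝓞 K) → WeierstrassCurve (𝓞 K), (∀ v, IsMinAt (crv ω A B c) v (V v)) →
    ∀ T₁ : ℕ, Y ≤ T₁ → ∀ j < T₁ ^ l, ∀ T₂ : ℕ, T₁ ≤ T₂ → ∀ s : ℂ, 1 + δ ≤ s.re →
      |s.im| ≤ (T₁ : ℝ) ^ l → ((T₂ : ℝ) ≤ G ^ κ ∨ Edge κ t G T₁ s) →
        ‖∑ v ∈ bt K T₁ T₂, fo V (w j) s v * (Real.log (nm v) : ℂ)‖ ≤ (T₁ : ℝ) ^ (1 + δ - s.re) ∧
        ‖∑ v ∈ bt K T₁ T₂, tl V (w j) s v‖ ≤ 1 / 2 * (T₁ : ℝ) ^ (1 + δ - s.re)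

/-- the edge moves to the left with the height -/
lemma edge_mono {τ u₁ u₂ : ℝ} (hτ : 1 ≤ τ) (hu : 1 ≤ u₁) (h : u₁ ≤ u₂) :
    (τ + Real.log u₂) / u₂ ≤ (τ + Real.log u₁) / u₁ := by
  have h1 : 0 < u₁ := by linarith
  have h2 : 0 < u₂ := by linarith
  rw [div_le_div_iff₀ h2 h1]
  have h3 : Real.log u₂ - Real.log u₁ ≤ u₂ / u₁ - 1 := by
    rw [← Real.log_div h2.ne' h1.ne']
    exact Real.log_le_sub_one_of_pos (by positivity)
  have h4 : (Real.log u₂ - Real.log u₁) * u₁ ≤ u₂ - u₁ := by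
    have e : (u₂ / u₁ - 1) * u₁ = u₂ - u₁ := by field_simp
    rw [← e]
    exact mul_le_mul_of_nonneg_right h3 h1.le
  have h5 : 0 ≤ Real.log u₁ := Real.log_nonneg hu
  nlinarith [mul_nonneg h5 (sub_nonneg.2 h), mul_nonneg (sub_nonneg.2 hτ) (sub_nonneg.2 h)]

/-- from a large height, no exceptions -/
theorem EF_of_EG (ω : Module.Basis I ℤ (𝓞 K)) (A B : MvPolynomial J (𝓞 K)) {κ κ₂ δ : ℝ} (hκ : 0 < κ) (hκ₂ : κ ≤ κ₂)
    {l : ℕ} {Y : ℝ} {t : ℕ} {G : ℝ} (hY : 4 ≤ Y) (ht : 3 ≤ t) (hG : (t : ℝ) ≤ G) (w : ℕ → HeightOneSpectrum (𝓞 K) → ℂ)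
    (c : Option J × I → ℤ) (h : EG ω A B κ₂ δ l Y G w c) : EF ω A B κ δ l Y t G w c := by
  intro V hV T₁ hYT j hj T₂ hT12 s hs1 hs2 hs3
  have hT4 : (4 : ℝ) ≤ T₁ := hY.trans hYT
  have ht3 : (3 : ℝ) ≤ t := by exact_mod_cast ht
  have hG1 : 1 ≤ G := by linarith
  have hlogt : 1 ≤ Real.log t := by
    rw [Real.le_log_iff_exp_le (by linarith)]
    have := Real.exp_one_lt_d9
    linarith
  have hlog : Real.log t ≤ Real.log G := Real.log_le_log (by linarith) hG
  have hle : G ^ κ ≤ G ^ κ₂ := Real.rpow_le_rpow_of_exponent_le hG1 hκ₂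
  have hτ : 1 ≤ Real.log T₁ := by
    rw [Real.le_log_iff_exp_le (by linarith)]
    have := Real.exp_one_lt_d9
    linarith
  have hT12r : (T₁ : ℝ) ≤ T₂ := by exact_mod_cast hT12
  have hadd : ∀ u : ℝ, 1 ≤ u → Real.log (T₁ * u) = Real.log T₁ + Real.log u := fun u hu =>
    Real.log_mul (by linarith) (by linarith)
  have hmono : Real.log (T₁ * Real.log G) / (κ₂ * Real.log G) ≤ Real.log (T₁ * Real.log G) / (κ * Real.log G) := by
    apply div_le_div_of_nonneg_left _ (mul_pos hκ (by linarith))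
    · exact mul_le_mul_of_nonneg_right hκ₂ (by linarith)
    · rw [hadd _ (by linarith)]
      have := Real.log_nonneg (show 1 ≤ Real.log G by linarith)
      linarith
  rcases hs3 with hs3 | ⟨hs3, hs4⟩ | ⟨hs3, hs4⟩
  · exact h V hV T₁ hYT (hT12r.trans (hs3.trans hle)) j hj T₂ hT12 s hs1 hs2 (Or.inl (hs3.trans hle))
  · have h1 : (T₁ : ℝ) ≤ G ^ κ₂ := hs3.trans ((Real.rpow_le_rpow (by linarith) hG hκ.le).trans hle)
    refine h V hV T₁ hYT h1 j hj T₂ hT12 s hs1 hs2 (Or.inr (le_trans ?_ hs4))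
    have h2 := edge_mono hτ hlogt hlog
    have e1 : Real.log (T₁ * Real.log G) / (κ * Real.log G) = (Real.log T₁ + Real.log (Real.log G)) / Real.log G / κ := by
      rw [hadd _ (by linarith), div_div, mul_comm κ]
    have e2 : Real.log (T₁ * Real.log t) / (κ * Real.log t) = (Real.log T₁ + Real.log (Real.log t)) / Real.log t / κ := by
      rw [hadd _ hlogt, div_div, mul_comm κ]
    have h3 : Real.log (T₁ * Real.log G) / (κ * Real.log G) ≤ Real.log (T₁ * Real.log t) / (κ * Real.log t) := by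
      rw [e1, e2]
      exact div_le_div_of_nonneg_right h2 hκ.le
    linarith
  · refine h V hV T₁ hYT (hs3.trans hle) j hj T₂ hT12 s hs1 hs2 (Or.inr (le_trans ?_ hs4))
    have h3 : Real.log (T₁ * Real.log G) / (κ * Real.log G) ≤ Real.log (T₁ * t * Real.log G) / (κ * Real.log G) := by
      apply div_le_div_of_nonneg_right _ (mul_nonneg hκ.le (by linarith))
      apply Real.log_le_log (by nlinarith)
      apply mul_le_mul_of_nonneg_right _ (by linarith)
      nlinarith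
    linarith

/-- two consecutive ranges -/
lemma join {V : HeightOneSpectrum (𝓞 K) → WeierstrassCurve (𝓞 K)} {w : HeightOneSpectrum (𝓞 K) → ℂ} {s : ℂ}
    {T₁ X T₂ : ℕ} (h1 : T₁ ≤ X) (h2 : X ≤ T₂) {δ : ℝ} (hδ : 0 < δ) (hs1 : 1 + δ ≤ s.re) (hT₁ : (2 : ℝ) ≤ (T₁ : ℝ) ^ (δ / 2))
    (ha : ‖∑ v ∈ bt K T₁ X, fo V w s v * (Real.log (nm v) : ℂ)‖ ≤ (T₁ : ℝ) ^ (1 + δ / 2 - s.re) ∧
        ‖∑ v ∈ bt K T₁ X, tl V w s v‖ ≤ 1 / 2 * (T₁ : ℝ) ^ (1 + δ / 2 - s.re))
    (hb : ‖∑ v ∈ bt K X T₂, fo V w s v * (Real.log (nm v) : ℂ)‖ ≤ (X : ℝ) ^ (1 + δ / 2 - s.re) ∧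
        ‖∑ v ∈ bt K X T₂, tl V w s v‖ ≤ 1 / 2 * (X : ℝ) ^ (1 + δ / 2 - s.re)) :
    ‖∑ v ∈ bt K T₁ T₂, fo V w s v * (Real.log (nm v) : ℂ)‖ ≤ (T₁ : ℝ) ^ (1 + δ - s.re) ∧
        ‖∑ v ∈ bt K T₁ T₂, tl V w s v‖ ≤ 1 / 2 * (T₁ : ℝ) ^ (1 + δ - s.re) := by
  have hT0 : (0 : ℝ) < T₁ := by
    rcases Nat.eq_zero_or_pos T₁ with h | h
    · rw [h, Nat.cast_zero, Real.zero_rpow (by positivity)] at hT₁
      linarith
    · exact_mod_cast h
  have hX : (X : ℝ) ^ (1 + δ / 2 - s.re) ≤ (T₁ : ℝ) ^ (1 + δ / 2 - s.re) :=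
    Real.rpow_le_rpow_of_nonpos hT0 (by exact_mod_cast h1) (by linarith)
  have e : (T₁ : ℝ) ^ (1 + δ - s.re) = (T₁ : ℝ) ^ (δ / 2) * (T₁ : ℝ) ^ (1 + δ / 2 - s.re) := by
    rw [← Real.rpow_add hT0]
    congr 1
    ring
  have h3 : 2 * (T₁ : ℝ) ^ (1 + δ / 2 - s.re) ≤ (T₁ : ℝ) ^ (1 + δ - s.re) := by
    rw [e]
    exact mul_le_mul_of_nonneg_right hT₁ (by positivity)
  rw [bt_split h1 h2, bt_split h1 h2]
  constructor
  · refine (norm_add_le _ _).trans ?_
    linarith [ha.1, hb.1]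
  · refine (norm_add_le _ _).trans ?_
    linarith [ha.2, hb.2]

/-- **The composition.** -/
theorem EF_comp (ω : Module.Basis I ℤ (𝓞 K)) (A B : MvPolynomial J (𝓞 K)) {κ₁ κ₂ δ : ℝ} (hκ₁ : 0 < κ₁) (hκ₁' : κ₁ ≤ 1)
    (hκ₂ : 0 < κ₂) (hδ : 0 < δ) (ε : ℝ) (hε : 0 < ε) (hεκ : ε ≤ κ₁ / 2) :
    ∃ N₀ y₀ : ℕ, ∀ (l y N t : ℕ) (G : ℝ), N₀ ≤ N → y₀ ≤ y → N < t → t ≤ 2 * N → (t : ℝ) ≤ G →
      ∀ (w : ℕ → HeightOneSpectrum (𝓞 K) → ℂ) (c : Option J × I → ℤ),
      EG ω A B κ₁ (δ / 2) l y N w c → EG ω A B κ₂ (δ / 2) l ((t : ℝ) ^ ε) G w c →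
      EF ω A B (min κ₁ κ₂ / 2) δ l y t G w c := by
  -- large numbers
  have hev1 : ∀ᶠ N : ℕ in atTop, (2 * N : ℝ) ^ (κ₁ / 2) + 1 ≤ (N : ℝ) ^ κ₁ := by
    have h1 : Tendsto (fun N : ℕ => (N : ℝ) ^ (κ₁ / 2)) atTop atTop :=
      (tendsto_rpow_atTop (by positivity)).comp tendsto_natCast_atTop_atTop
    filter_upwards [h1.eventually (eventually_ge_atTop 3), eventually_ge_atTop 1] with N hN hN1
    have hN0 : (0 : ℝ) < N := by exact_mod_cast hN1
    have e1 : (N : ℝ) ^ κ₁ = (N : ℝ) ^ (κ₁ / 2) * (N : ℝ) ^ (κ₁ / 2) := by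
      rw [← Real.rpow_add hN0]
      congr 1
      ring
    have h2 : (2 : ℝ) ^ (κ₁ / 2) ≤ 2 := by
      calc (2 : ℝ) ^ (κ₁ / 2) ≤ (2 : ℝ) ^ (1 : ℝ) := Real.rpow_le_rpow_of_exponent_le (by norm_num) (by linarith)
        _ = 2 := Real.rpow_one 2
    rw [Real.mul_rpow (by norm_num) hN0.le, e1]
    nlinarith
  have hev2 : ∀ᶠ N : ℕ in atTop, Real.log (Real.log N) ≤ κ₁ * Real.log N := by
    have h1 := (Real.isLittleO_log_id_atTop.bound (show 0 < κ₁ from hκ₁))
    have h2 : Tendsto (fun N : ℕ => Real.log (N : ℝ)) atTop atTop :=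
      Real.tendsto_log_atTop.comp tendsto_natCast_atTop_atTop
    filter_upwards [h2.eventually h1, h2.eventually (eventually_ge_atTop 1)] with N hN hN1
    rw [id, Real.norm_of_nonneg (Real.log_nonneg hN1), Real.norm_of_nonneg (by linarith)] at hN
    exact hN
  obtain ⟨N₁, hN₁⟩ := eventually_atTop.1 (hev1.and hev2)
  have hev3 : ∀ᶠ y : ℕ in atTop, (2 : ℝ) ≤ (y : ℝ) ^ (δ / 2) := by
    have h1 : Tendsto (fun x : ℝ => x ^ (δ / 2)) atTop atTop := tendsto_rpow_atTop (by positivity)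
    exact (h1.comp tendsto_natCast_atTop_atTop).eventually (eventually_ge_atTop _)
  obtain ⟨y₁, hy₁⟩ := eventually_atTop.1 hev3
  refine ⟨N₁ + 3, y₁ + 4, fun l y N t G hN hy hNt ht2 hG w c hE₁ hE₂ V hV T₁ hyT j hj T₂ hT12 s hs1 hs2 hs3 => ?_⟩
  obtain ⟨hn1, hn2⟩ := hN₁ N (by omega)
  have hyT' : y ≤ T₁ := by exact_mod_cast hyT
  have hT2 := hy₁ T₁ (by omega)
  have hT4 : (4 : ℝ) ≤ T₁ := by exact_mod_cast (by omega : 4 ≤ T₁)
  have hN3 : (3 : ℝ) ≤ N := by exact_mod_cast (by omega : 3 ≤ N)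
  have htN : (N : ℝ) ≤ t := by exact_mod_cast hNt.le
  have ht0 : (0 : ℝ) < t := by linarith
  have hT0 : (0 : ℝ) < T₁ := by linarith
  have ht2N : (t : ℝ) ≤ 2 * N := by exact_mod_cast ht2
  have hG1 : 1 ≤ G := by linarith
  have hG0 : 0 < G := by linarith
  obtain ⟨κ, hκ⟩ : ∃ κ : ℝ, κ = min κ₁ κ₂ / 2 := ⟨_, rfl⟩
  rw [← hκ] at hs3
  have hκ0 : 0 < κ := by rw [hκ]; have := lt_min hκ₁ hκ₂; positivity
  have hκa : κ ≤ κ₁ / 2 := by rw [hκ]; have := min_le_left κ₁ κ₂; linarith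
  have hκb : κ ≤ κ₂ / 2 := by rw [hκ]; have := min_le_right κ₁ κ₂; linarith
  have hGκ : G ^ κ ≤ G ^ κ₂ := Real.rpow_le_rpow_of_exponent_le hG1 (by linarith)
  have hT12r : (T₁ : ℝ) ≤ T₂ := by exact_mod_cast hT12
  have hexp := Real.exp_one_lt_d9
  have hlogN : 1 ≤ Real.log N := by
    rw [Real.le_log_iff_exp_le (by linarith)]
    linarith
  have hlogtN : Real.log N ≤ Real.log t := Real.log_le_log (by linarith) htN
  have hlogGt : Real.log t ≤ Real.log G := Real.log_le_log (by linarith) hG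
  have hlogt2 : Real.log t ≤ 2 * Real.log N := by
    have h1 := Real.log_le_log (by linarith) ht2N
    rw [Real.log_mul (by norm_num) (by linarith)] at h1
    have h2 : Real.log 2 ≤ Real.log N := Real.log_le_log (by norm_num) (by linarith)
    linarith
  have hτ : 1 ≤ Real.log T₁ := by
    rw [Real.le_log_iff_exp_le (by linarith)]
    linarith
  have hadd : ∀ u : ℝ, 1 ≤ u → Real.log (T₁ * u) = Real.log T₁ + Real.log u := fun u hu =>
    Real.log_mul (by linarith) (by linarith)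
  have hllN : 0 ≤ Real.log (Real.log N) := Real.log_nonneg hlogN
  -- weakening of the bounds
  have hweak : (T₁ : ℝ) ^ (1 + δ / 2 - s.re) ≤ (T₁ : ℝ) ^ (1 + δ - s.re) :=
    Real.rpow_le_rpow_of_exponent_le (by linarith) (by linarith)
  have hwk : (‖∑ v ∈ bt K T₁ T₂, fo V (w j) s v * (Real.log (nm v) : ℂ)‖ ≤ (T₁ : ℝ) ^ (1 + δ / 2 - s.re) ∧
        ‖∑ v ∈ bt K T₁ T₂, tl V (w j) s v‖ ≤ 1 / 2 * (T₁ : ℝ) ^ (1 + δ / 2 - s.re)) →
      ‖∑ v ∈ bt K T₁ T₂, fo V (w j) s v * (Real.log (nm v) : ℂ)‖ ≤ (T₁ : ℝ) ^ (1 + δ - s.re) ∧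
        ‖∑ v ∈ bt K T₁ T₂, tl V (w j) s v‖ ≤ 1 / 2 * (T₁ : ℝ) ^ (1 + δ - s.re) := fun h =>
    ⟨h.1.trans hweak, by linarith [h.2]⟩
  -- the number between the two ranges
  obtain ⟨X, hX⟩ : ∃ X : ℕ, X = ⌈(t : ℝ) ^ ε⌉₊ := ⟨_, rfl⟩
  have htε : (t : ℝ) ^ ε ≤ (2 * N : ℝ) ^ (κ₁ / 2) := by
    calc (t : ℝ) ^ ε ≤ (t : ℝ) ^ (κ₁ / 2) := Real.rpow_le_rpow_of_exponent_le (by linarith) hεκ
      _ ≤ (2 * N : ℝ) ^ (κ₁ / 2) := Real.rpow_le_rpow (by linarith) ht2N (by positivity)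
  have hX1 : (t : ℝ) ^ ε ≤ X := by rw [hX]; exact Nat.le_ceil _
  have hX2 : (X : ℝ) ≤ (t : ℝ) ^ ε + 1 := by rw [hX]; exact (Nat.ceil_lt_add_one (by positivity)).le
  have hXN : (X : ℝ) ≤ (N : ℝ) ^ κ₁ := by linarith
  -- the edge for the first range
  have hedgeN : ∀ η : ℝ, 2 ≤ η → (T₁ : ℝ) ≤ (N : ℝ) ^ κ₁ → Real.log (T₁ * Real.log N) / (κ₁ * Real.log N) ≤ η := by
    intro η hη hTN
    rw [div_le_iff₀ (by positivity), hadd _ hlogN]
    have h1 := Real.log_le_log (by linarith) hTN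
    rw [Real.log_rpow (by linarith)] at h1
    have h2 : 0 ≤ κ₁ * Real.log N := by positivity
    nlinarith
  -- the two ranges together
  have hjoin : (T₁ : ℝ) < (t : ℝ) ^ ε → X ≤ T₂ → (X : ℝ) ≤ G ^ κ₂ →
      ((T₂ : ℝ) ≤ G ^ κ₂ ∨ 3 / 2 + Real.log (X * Real.log G) / (κ₂ * Real.log G) ≤ s.re) →
      ‖∑ v ∈ bt K T₁ T₂, fo V (w j) s v * (Real.log (nm v) : ℂ)‖ ≤ (T₁ : ℝ) ^ (1 + δ - s.re) ∧
        ‖∑ v ∈ bt K T₁ T₂, tl V (w j) s v‖ ≤ 1 / 2 * (T₁ : ℝ) ^ (1 + δ - s.re) := by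
    intro h1 h2 h3 h4
    have hTX : T₁ ≤ X := by
      have : (T₁ : ℝ) ≤ X := h1.le.trans hX1
      exact_mod_cast this
    have hTXr : (T₁ : ℝ) ≤ X := by exact_mod_cast hTX
    refine join hTX h2 hδ hs1 hT2 ?_ ?_
    · exact hE₁ V hV T₁ hyT (hTXr.trans hXN) j hj X hTX s (by linarith) hs2 (Or.inl hXN)
    · exact hE₂ V hV X hX1 h3 j (lt_of_lt_of_le hj (Nat.pow_le_pow_left hTX l)) T₂ h2 s (by linarith)
        (hs2.trans (pow_le_pow_left₀ (by linarith) hTXr l)) h4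
  rcases hs3 with hs3 | ⟨hs3, hs4⟩ | ⟨hs3, hs4⟩
  · by_cases hc1 : (T₂ : ℝ) ≤ (N : ℝ) ^ κ₁
    · exact hwk (hE₁ V hV T₁ hyT (hT12r.trans hc1) j hj T₂ hT12 s (by linarith) hs2 (Or.inl hc1))
    · push Not at hc1
      by_cases hc2 : (t : ℝ) ^ ε ≤ T₁
      · exact hwk (hE₂ V hV T₁ hc2 (hT12r.trans (hs3.trans hGκ)) j hj T₂ hT12 s (by linarith) hs2
          (Or.inl (hs3.trans hGκ)))
      · push Not at hc2
        have h5 : X ≤ T₂ := by
          have : (X : ℝ) ≤ T₂ := by linarith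
          exact_mod_cast this
        exact hjoin hc2 h5 (by linarith) (Or.inl (hs3.trans hGκ))
  · -- the edge in terms of `t`
    have h1 : (T₁ : ℝ) ≤ (N : ℝ) ^ κ₁ := by
      calc (T₁ : ℝ) ≤ (t : ℝ) ^ κ := hs3
        _ ≤ (t : ℝ) ^ (κ₁ / 2) := Real.rpow_le_rpow_of_exponent_le (by linarith) hκa
        _ ≤ (2 * N : ℝ) ^ (κ₁ / 2) := Real.rpow_le_rpow (by linarith) ht2N (by positivity)
        _ ≤ (N : ℝ) ^ κ₁ := by linarith
    refine hwk (hE₁ V hV T₁ hyT h1 j hj T₂ hT12 s (by linarith) hs2 (Or.inr (le_trans ?_ hs4)))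
    have h2 : Real.log (T₁ * Real.log N) / (κ₁ * Real.log N) ≤ Real.log (T₁ * Real.log t) / (κ * Real.log t) := by
      rw [hadd _ hlogN, hadd _ (by linarith)]
      have h3 : Real.log (Real.log N) ≤ Real.log (Real.log t) := Real.log_le_log (by linarith) hlogtN
      have h4 : κ * Real.log t ≤ κ₁ * Real.log N := by nlinarith
      calc (Real.log T₁ + Real.log (Real.log N)) / (κ₁ * Real.log N) ≤
            (Real.log T₁ + Real.log (Real.log N)) / (κ * Real.log t) := by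
              apply div_le_div_of_nonneg_left (by linarith) _ h4
              have : 0 < Real.log t := by linarith
              positivity
        _ ≤ _ := by
            apply div_le_div_of_nonneg_right (by linarith)
            have : 0 < Real.log t := by linarith
            positivity
    linarith
  · -- the edge in terms of `G`
    have hlogG : 0 < Real.log G := by linarith
    by_cases hc2 : (t : ℝ) ^ ε ≤ T₁
    · refine hwk (hE₂ V hV T₁ hc2 (hs3.trans hGκ) j hj T₂ hT12 s (by linarith) hs2 (Or.inr (le_trans ?_ hs4)))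
      have h2 : Real.log (T₁ * Real.log G) / (κ₂ * Real.log G) ≤ Real.log (T₁ * t * Real.log G) / (κ * Real.log G) := by
        have h3 : Real.log (T₁ * Real.log G) ≤ Real.log (T₁ * t * Real.log G) := by
          apply Real.log_le_log (by positivity)
          apply mul_le_mul_of_nonneg_right _ hlogG.le
          nlinarith
        have h4 : 0 ≤ Real.log (T₁ * Real.log G) := by
          rw [hadd _ (by linarith)]
          have := Real.log_nonneg (show 1 ≤ Real.log G by linarith)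
          linarith
        calc Real.log (T₁ * Real.log G) / (κ₂ * Real.log G) ≤ Real.log (T₁ * Real.log G) / (κ * Real.log G) := by
              apply div_le_div_of_nonneg_left h4 (by positivity)
              apply mul_le_mul_of_nonneg_right _ hlogG.le
              linarith
          _ ≤ _ := div_le_div_of_nonneg_right h3 (by positivity)
      linarith
    · push Not at hc2
      have hTX : (T₁ : ℝ) ≤ X := hc2.le.trans hX1
      by_cases hc4 : T₂ ≤ X
      · have hc4r : (T₂ : ℝ) ≤ X := by exact_mod_cast hc4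
        exact hwk (hE₁ V hV T₁ hyT (hTX.trans hXN) j hj T₂ hT12 s (by linarith) hs2 (Or.inl (hc4r.trans hXN)))
      push Not at hc4
      by_cases hc3 : (X : ℝ) ≤ G ^ κ₂
      · refine hjoin hc2 hc4.le hc3 (Or.inr (le_trans ?_ hs4))
        have ht1 : (1 : ℝ) ≤ t := by linarith
        have hXt : (X : ℝ) ≤ T₁ * t := by
          have h6 : (t : ℝ) ^ ε ≤ t := by
            calc (t : ℝ) ^ ε ≤ (t : ℝ) ^ (1 : ℝ) := Real.rpow_le_rpow_of_exponent_le ht1 (by linarith)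
              _ = t := Real.rpow_one _
          nlinarith
        have h3 : Real.log (X * Real.log G) ≤ Real.log (T₁ * t * Real.log G) := by
          apply Real.log_le_log
          · have : (0 : ℝ) < X := by linarith
            positivity
          · exact mul_le_mul_of_nonneg_right hXt hlogG.le
        have h4 : 0 ≤ Real.log (X * Real.log G) := by
          apply Real.log_nonneg
          nlinarith
        have h5 : Real.log (X * Real.log G) / (κ₂ * Real.log G) ≤ Real.log (T₁ * t * Real.log G) / (κ * Real.log G) := by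
          calc Real.log (X * Real.log G) / (κ₂ * Real.log G) ≤ Real.log (X * Real.log G) / (κ * Real.log G) := by
                apply div_le_div_of_nonneg_left h4 (by positivity)
                apply mul_le_mul_of_nonneg_right _ hlogG.le
                linarith
            _ ≤ _ := div_le_div_of_nonneg_right h3 (by positivity)
        linarith
      · push Not at hc3
        -- far from the edge
        have h6 : κ₂ * Real.log G ≤ 1 + ε * Real.log t := by
          have h7 : G ^ κ₂ ≤ (t : ℝ) ^ ε + 1 := by linarith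
          have h8 := Real.log_le_log (by positivity) h7
          rw [Real.log_rpow hG0] at h8
          have h9 : Real.log ((t : ℝ) ^ ε + 1) ≤ 1 + ε * Real.log t := by
            have h10 : (t : ℝ) ^ ε + 1 ≤ Real.exp 1 * (t : ℝ) ^ ε := by
              have h11 : (1 : ℝ) ≤ (t : ℝ) ^ ε := Real.one_le_rpow (by linarith) hε.le
              have h12 : (2 : ℝ) ≤ Real.exp 1 := by
                have := Real.add_one_le_exp (1 : ℝ)
                linarith
              nlinarith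
            have h11 := Real.log_le_log (by positivity) h10
            rw [Real.log_mul (Real.exp_pos 1).ne' (by positivity), Real.log_exp,
              Real.log_rpow (by linarith : (0 : ℝ) < t)] at h11
            exact h11
          linarith
        have h7 : κ * Real.log G ≤ 1 / 2 * (1 + ε * Real.log t) := by nlinarith
        have h8 : 2 ≤ s.re - 3 / 2 := by
          have h9 : 2 ≤ Real.log (T₁ * t * Real.log G) / (κ * Real.log G) := by
            rw [le_div_iff₀ (by positivity)]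
            have h10 : Real.log (T₁ * t) ≤ Real.log (T₁ * t * Real.log G) := by
              apply Real.log_le_log (by positivity)
              have : (0 : ℝ) ≤ T₁ * t := by positivity
              nlinarith
            rw [Real.log_mul (by linarith) (by linarith)] at h10
            have h11 : ε * Real.log t ≤ 1 * Real.log t := mul_le_mul_of_nonneg_right (by linarith) (by linarith)
            linarith
          linarith
        refine hwk (hE₁ V hV T₁ hyT (hTX.trans hXN) j hj T₂ hT12 s (by linarith) hs2 (Or.inr ?_))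
        have := hedgeN _ h8 (hTX.trans hXN)
        linarith

end

end Pool.Agent.Helper94.EC
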