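import Pool.Agent.Helper94.EC.Both
import Pool.Agent.H921R2.TatePole.Dedekind

set_option autoImplicit false

/-! Bounds for the L-functions near the edge of absolute convergence in terms of `log log T`. -/

namespace Pool.Agent.Helper94.EC

open Finset NumberField IsDedekindDomain Filter Topology
open Pool.Agent.N842.HS (VT mem_VT)
open Pool.Agent.H341R2.EC (trc trc_le)
open Pool.Agent.H921R2.TatePole (nm two_le_nm nm_summable prime_sum_bdd Lam Bdd)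

section
variable {K : Type} [Field K] [NumberField K]

/-- the sum of the inverses of the norms -/
theorem mert (δ : ℝ) (hδ : 0 < δ) : ∀ᶠ T : ℕ in atTop,
    ∑ v ∈ VT K T, (nm v : ℝ)⁻¹ ≤ (1 + δ) * Real.log (Real.log T) := by
  obtain ⟨C, hC⟩ := prime_sum_bdd (K := K)
  obtain ⟨a, ha⟩ : ∃ a : ℝ, a = Real.log (1 + δ / 2) := ⟨_, rfl⟩
  have ha0 : 0 < a := by rw [ha]; exact Real.log_pos (by linarith)
  have hexp : Real.exp a = 1 + δ / 2 := by rw [ha]; exact Real.exp_log (by linarith)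
  have hlogT : Tendsto (fun T : ℕ => Real.log (T : ℝ)) atTop atTop :=
    Real.tendsto_log_atTop.comp tendsto_natCast_atTop_atTop
  have hllT : Tendsto (fun T : ℕ => Real.log (Real.log (T : ℝ))) atTop atTop :=
    Real.tendsto_log_atTop.comp hlogT
  have hσ : Tendsto (fun T : ℕ => 1 + a / Real.log (T : ℝ)) atTop (𝓝[>] 1) := by
    rw [tendsto_nhdsWithin_iff]
    refine ⟨?_, ?_⟩
    · have h1 : Tendsto (fun T : ℕ => a / Real.log (T : ℝ)) atTop (𝓝 0) := hlogT.const_div_atTop a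
      simpa using h1.const_add 1
    · filter_upwards [hlogT.eventually (eventually_gt_atTop 0)] with T hT
      have : 0 < a / Real.log (T : ℝ) := by positivity
      exact lt_add_of_pos_right 1 this
  have h1 := hσ.eventually hC
  have h2 : ∀ᶠ T : ℕ in atTop, (1 + δ / 2) * (|C| - Real.log a) ≤ δ / 2 * Real.log (Real.log T) := by
    have h3 : Tendsto (fun T : ℕ => δ / 2 * Real.log (Real.log (T : ℝ))) atTop atTop :=
      hllT.const_mul_atTop (by positivity)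
    exact h3.eventually (eventually_ge_atTop _)
  filter_upwards [h1, h2, hlogT.eventually (eventually_gt_atTop 0), eventually_ge_atTop 2] with T hT1 hT2 hT3 hT4
  have hT0 : (0 : ℝ) < T := by exact_mod_cast (by omega : 0 < T)
  obtain ⟨σ, hσd⟩ : ∃ σ : ℝ, σ = 1 + a / Real.log T := ⟨_, rfl⟩
  have hσ1 : 1 < σ := by
    rw [hσd]
    have : 0 < a / Real.log (T : ℝ) := by positivity
    linarith
  rw [← hσd] at hT1
  have hLam : Lam σ = Real.log (Real.log T) - Real.log a := by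
    unfold Lam
    have e1 : 1 / (σ - 1) = Real.log T / a := by
      rw [hσd, add_sub_cancel_left, one_div_div]
    rw [e1, Real.log_div hT3.ne' ha0.ne']
  have h4 : ∀ v ∈ VT K T, (nm v : ℝ)⁻¹ ≤ (1 + δ / 2) * (nm v : ℝ) ^ (-σ) := by
    intro v hv
    rw [mem_VT] at hv
    have hq : (2 : ℝ) ≤ nm v := by exact_mod_cast two_le_nm v
    have hqT : (nm v : ℝ) ≤ T := by exact_mod_cast hv
    have e1 : (nm v : ℝ)⁻¹ = (nm v : ℝ) ^ (a / Real.log T) * (nm v : ℝ) ^ (-σ) := by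
      rw [← Real.rpow_add (by linarith), ← Real.rpow_neg_one]
      congr 1
      rw [hσd]
      ring
    have e2 : (T : ℝ) ^ (a / Real.log T) = 1 + δ / 2 := by
      rw [← hexp, Real.rpow_def_of_pos hT0]
      congr 1
      field_simp
    rw [e1, ← e2]
    apply mul_le_mul_of_nonneg_right _ (by positivity)
    exact Real.rpow_le_rpow (by linarith) hqT (by positivity)
  have h5 : ∑ v ∈ VT K T, (nm v : ℝ) ^ (-σ) ≤ ∑' v : HeightOneSpectrum (𝓞 K), (nm v : ℝ) ^ (-σ) :=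
    (nm_summable hσ1).sum_le_tsum _ fun v _ => by positivity
  have h6 : ∑' v : HeightOneSpectrum (𝓞 K), (nm v : ℝ) ^ (-σ) ≤ Real.log (Real.log T) - Real.log a + |C| := by
    have := (abs_le.1 hT1).2
    rw [hLam] at this
    have hC' := le_abs_self C
    linarith
  calc ∑ v ∈ VT K T, (nm v : ℝ)⁻¹ ≤ ∑ v ∈ VT K T, (1 + δ / 2) * (nm v : ℝ) ^ (-σ) := sum_le_sum h4
    _ = (1 + δ / 2) * ∑ v ∈ VT K T, (nm v : ℝ) ^ (-σ) := by rw [mul_sum]
    _ ≤ (1 + δ / 2) * (Real.log (Real.log T) - Real.log a + |C|) :=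
        mul_le_mul_of_nonneg_left (h5.trans h6) (by positivity)
    _ ≤ (1 + δ) * Real.log (Real.log T) := by nlinarith

variable (V : HeightOneSpectrum (𝓞 K) → WeierstrassCurve (𝓞 K)) (w : HeightOneSpectrum (𝓞 K) → ℂ) (s : ℂ)
  (v : HeightOneSpectrum (𝓞 K))

lemma tl_all (hw : ‖w v‖ ≤ 1) (hs : 3 / 2 < s.re) : ‖tl V w s v‖ ≤ 14 := by
  have h1 := trc_le V v
  have h1' : |(trc V v : ℝ)| ≤ (nm v : ℝ) := by exact_mod_cast h1
  have h2 := tf_sub_one V w s v hw h1'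
  have hq : (2 : ℝ) ≤ (nm v : ℝ) := by exact_mod_cast two_le_nm v
  have h3 : (nm v : ℝ) * (nm v : ℝ) ^ (-s.re) = (nm v : ℝ) ^ (1 - s.re) := by
    rw [sub_eq_add_neg, Real.rpow_add (by linarith), Real.rpow_one]
  rw [h3] at h2
  have h4 : (nm v : ℝ) ^ (1 - s.re) ≤ (2 : ℝ) ^ (-(1 / 2) : ℝ) := by
    calc (nm v : ℝ) ^ (1 - s.re) ≤ (2 : ℝ) ^ (1 - s.re) :=
          Real.rpow_le_rpow_of_nonpos (by norm_num) hq (by linarith)
      _ ≤ (2 : ℝ) ^ (-(1 / 2) : ℝ) :=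
          Real.rpow_le_rpow_of_exponent_le (by norm_num) (by linarith)
  have h5 : (nm v : ℝ) ^ (1 - 2 * s.re) ≤ 1 / 4 := by
    calc (nm v : ℝ) ^ (1 - 2 * s.re) ≤ (2 : ℝ) ^ (1 - 2 * s.re) :=
          Real.rpow_le_rpow_of_nonpos (by norm_num) hq (by linarith)
      _ ≤ (2 : ℝ) ^ (-2 : ℝ) := Real.rpow_le_rpow_of_exponent_le (by norm_num) (by linarith)
      _ = 1 / 4 := by
          rw [Real.rpow_neg (by norm_num)]
          norm_num
  have h6 : ((2 : ℝ) ^ (-(1 / 2) : ℝ)) ^ 2 = 1 / 2 := by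
    rw [← Real.rpow_natCast, ← Real.rpow_mul (by norm_num)]
    norm_num
  have h7 : (0 : ℝ) ≤ (2 : ℝ) ^ (-(1 / 2) : ℝ) := by positivity
  have h8 : (2 : ℝ) ^ (-(1 / 2) : ℝ) ≤ 71 / 100 := by nlinarith
  obtain ⟨z, hz⟩ : ∃ z, z = tf V w s v - 1 := ⟨_, rfl⟩
  have e1 : tf V w s v = 1 + z := by rw [hz]; ring
  rw [← hz] at h2
  have h9 : ‖z‖ ≤ 24 / 25 := by linarith
  have h10 := Complex.norm_log_one_add_le (z := z) (by linarith)
  have h11 : (1 - ‖z‖)⁻¹ ≤ 25 := by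
    rw [inv_le_comm₀ (by linarith) (by norm_num)]
    linarith
  have h12 : ‖z‖ ^ 2 ≤ 1 := pow_le_one₀ (norm_nonneg _) (by linarith)
  have h13 : ‖z‖ ^ 2 * (1 - ‖z‖)⁻¹ ≤ 1 * 25 := by
    apply mul_le_mul h12 h11 _ zero_le_one
    apply inv_nonneg.2
    linarith
  unfold tl
  rw [norm_neg, e1]
  linarith

theorem sum_tl : ∃ C : ℝ, ∀ (V : HeightOneSpectrum (𝓞 K) → WeierstrassCurve (𝓞 K))
    (w : HeightOneSpectrum (𝓞 K) → ℂ), (∀ v, ‖w v‖ ≤ 1) → ∀ s : ℂ, 3 / 2 < s.re → ∀ T : ℕ,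
    ∑ v ∈ VT K T, ‖tl V w s v‖ ≤ 2 * ∑ v ∈ VT K T, (nm v : ℝ)⁻¹ + C := by
  classical
  obtain ⟨y₁, hy1, hy1'⟩ := six_bound (K := K)
  have hsum := nm_summable (K := K) (x := 2) (by norm_num)
  refine ⟨10 * (∑' v : HeightOneSpectrum (𝓞 K), (nm v : ℝ) ^ (-(2 : ℝ))) + 14 * (VT K y₁).card, fun V w hw s hs T => ?_⟩
  have h1 : ∀ v ∈ VT K T, ‖tl V w s v‖ ≤ 2 * (nm v : ℝ)⁻¹ + 10 * (nm v : ℝ) ^ (-(2 : ℝ)) +
      (if nm v ≤ y₁ then 14 else 0) := by
    intro v _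
    have hq : (2 : ℝ) ≤ (nm v : ℝ) := by exact_mod_cast two_le_nm v
    by_cases hv : nm v ≤ y₁
    · rw [if_pos hv]
      have h2 := tl_all V w s v (hw v) hs
      have h3 : 0 ≤ 2 * (nm v : ℝ)⁻¹ + 10 * (nm v : ℝ) ^ (-(2 : ℝ)) := by positivity
      linarith
    · rw [if_neg hv]
      push Not at hv
      have h6 := hy1' v hv
      have h2 := (tl_near V w s v (hw v) h6 (by omega) (by linarith)).1
      have h3 := (tf_good V w s v (hw v) h6 (by linarith)).2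
      have h4 : (nm v : ℝ) ^ (1 / 2 - s.re) ≤ (nm v : ℝ)⁻¹ := by
        rw [← Real.rpow_neg_one]
        exact Real.rpow_le_rpow_of_exponent_le (by linarith) (by linarith)
      have h5 : (nm v : ℝ) ^ (1 - 2 * s.re) ≤ (nm v : ℝ) ^ (-(2 : ℝ)) :=
        Real.rpow_le_rpow_of_exponent_le (by linarith) (by linarith)
      have h7 := norm_sub_norm_le (tl V w s v) (fo V w s v)
      linarith
  refine (sum_le_sum h1).trans ?_
  rw [sum_add_distrib, sum_add_distrib, ← mul_sum, ← mul_sum]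
  have h2 : ∑ v ∈ VT K T, (nm v : ℝ) ^ (-(2 : ℝ)) ≤ ∑' v : HeightOneSpectrum (𝓞 K), (nm v : ℝ) ^ (-(2 : ℝ)) :=
    hsum.sum_le_tsum _ fun v _ => by positivity
  have h3 : ∑ v ∈ VT K T, (if nm v ≤ y₁ then (14 : ℝ) else 0) ≤ 14 * (VT K y₁).card := by
    rw [← sum_filter, sum_const, nsmul_eq_mul, mul_comm]
    apply mul_le_mul_of_nonneg_left _ (by norm_num)
    apply Nat.cast_le.2
    apply card_le_card
    intro v hv
    rw [mem_filter] at hv
    rw [mem_VT]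
    exact hv.2
  linarith

/-- **The bound of Littlewood type.** -/
theorem lit (δ : ℝ) (hδ : 0 < δ) : ∃ y₀ : ℕ, ∀ (V : HeightOneSpectrum (𝓞 K) → WeierstrassCurve (𝓞 K))
    (w : HeightOneSpectrum (𝓞 K) → ℂ), (∀ v, ‖w v‖ ≤ 1) → ∀ s : ℂ, 3 / 2 < s.re → ∀ T₁ : ℕ, y₀ ≤ T₁ →
    (∀ T₂ : ℕ, T₁ ≤ T₂ → ‖∑ v ∈ bt K T₁ T₂, tl V w s v‖ ≤ 1 / 2) →
    ‖∑' v, tl V w s v‖ ≤ (2 + δ) * Real.log (Real.log T₁) := by
  obtain ⟨C, hC⟩ := sum_tl (K := K)
  have hlogT : Tendsto (fun T : ℕ => Real.log (T : ℝ)) atTop atTop :=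
    Real.tendsto_log_atTop.comp tendsto_natCast_atTop_atTop
  have hllT : Tendsto (fun T : ℕ => Real.log (Real.log (T : ℝ))) atTop atTop :=
    Real.tendsto_log_atTop.comp hlogT
  have h2 : ∀ᶠ T : ℕ in atTop, C + 1 / 2 ≤ δ / 2 * Real.log (Real.log T) := by
    have h3 : Tendsto (fun T : ℕ => δ / 2 * Real.log (Real.log (T : ℝ))) atTop atTop :=
      hllT.const_mul_atTop (by positivity)
    exact h3.eventually (eventually_ge_atTop _)
  obtain ⟨y₀, hy₀⟩ := eventually_atTop.1 ((mert (K := K) (δ / 4) (by positivity)).and h2)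
  refine ⟨y₀, fun V w hw s hs T₁ hT₁ h => ?_⟩
  obtain ⟨h3, h4⟩ := hy₀ T₁ hT₁
  have h5 := (tl_summable V w hw hs).hasSum
  have h6 : Tendsto (fun T : ℕ => ‖∑ v ∈ VT K T, tl V w s v‖) atTop (𝓝 ‖∑' v, tl V w s v‖) :=
    (h5.comp tendsto_VT).norm
  refine le_of_tendsto h6 ?_
  filter_upwards [eventually_ge_atTop T₁] with T hT
  rw [VT_split hT]
  refine (norm_add_le _ _).trans ?_
  have h7 := h T hT
  have h8 := hC V w hw s hs T₁
  have h9 := norm_sum_le (VT K T₁) (fun v => tl V w s v)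
  have h10 : 2 * ∑ v ∈ VT K T₁, (nm v : ℝ)⁻¹ ≤ 2 * ((1 + δ / 4) * Real.log (Real.log T₁)) := by linarith
  linarith

end

end Pool.Agent.Helper94.EC
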