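import Pool.Agent.N647.NG.Gen2
import Pool.Agent.N647.NG.Num
import Pool.Agent.N534.EC.Two

set_option autoImplicit false

/-! The local functions of the curves `y² = x³ + A(c) x + B(c) + c₀` over the residue fields of a number
field: the trace of Frobenius and the bad reduction. -/

namespace Pool.Agent.Helper94.EC

open Finset NumberField IsDedekindDomain
open Pool.Agent.N842.HS (norm_card)
open Pool.Agent.N647.NG (av Bd sum_shift q_one sq_one quot_finite)
open Pool.Agent.H341R2.EC (csum)
open Pool.Agent.N534.EC (csum_sum csum_le)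

section
variable {k : Type} [Field k] {R : Type} [CommRing R] (φ : R →+* k) {J : Type} {n : ℕ} (e : Option J ≃ Fin n)
  (A B : MvPolynomial J R)

/-- the coefficient of `x` -/
noncomputable def la (u : Fin n → k) : k := MvPolynomial.eval₂ φ (fun j => u (e (some j))) A

/-- the constant coefficient -/
noncomputable def lb (u : Fin n → k) : k := MvPolynomial.eval₂ φ (fun j => u (e (some j))) B + u (e none)

/-- bad reduction -/
def lbad (u : Fin n → k) : Prop := 4 * la φ e A u ^ 3 + 27 * lb φ e B u ^ 2 = 0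

/-- the direction of the constant coefficient -/
def dir (e : Option J ≃ Fin n) (i : Fin n) : k := if i = e none then 1 else 0

lemma la_shift (u : Fin n → k) (s : k) : la φ e A (fun i => u i + s * dir e i) = la φ e A u := by
  unfold la
  congr 1
  funext j
  have : e (some j) ≠ e none := fun h => by simpa using e.injective h
  simp [dir, this]

lemma lb_shift (u : Fin n → k) (s : k) : lb φ e B (fun i => u i + s * dir e i) = lb φ e B u + s := by
  unfold lb
  have h1 : (fun j => u (e (some j)) + s * dir e (e (some j))) = fun j => u (e (some j)) := by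
    funext j
    have : e (some j) ≠ e none := fun h => by simpa using e.injective h
    simp [dir, this]
  rw [h1]
  simp [dir]
  ring

variable [Fintype k] [DecidableEq k]

/-- the character sum -/
noncomputable def lt (u : Fin n → k) : ℤ := csum (-48 * la φ e A u) (-864 * lb φ e B u)

lemma sum_lt (h6 : (6 : k) ≠ 0) : ∑ u : Fin n → k, (lt φ e A B u : ℝ) = 0 := by
  refine sum_shift _ (dir e) fun u => ?_
  unfold lt
  simp only [la_shift, lb_shift]
  have h := csum_sum h6 (-48 * la φ e A u) (lb φ e B u)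
  rw [← Int.cast_sum, h, Int.cast_zero]

omit [DecidableEq k] in
/-- sums over all the vectors, by averaging over lines -/
lemma sum_lines (F : (Fin n → k) → ℝ) (c : Fin n → k) (b : ℝ)
    (hF : ∀ u : Fin n → k, ∑ s : k, F (fun i => u i + s * c i) ≤ b) :
    Fintype.card k * ∑ u, F u ≤ (Fintype.card k : ℝ) ^ n * b := by
  have h1 : ∀ s : k, ∑ u : Fin n → k, F (fun i => u i + s * c i) = ∑ u, F u := by
    intro s
    exact Fintype.sum_equiv (Equiv.addRight fun i => s * c i) _ _ fun _ => rfl
  have h2 : ∑ s : k, ∑ u : Fin n → k, F (fun i => u i + s * c i) ≤ (Fintype.card k : ℝ) ^ n * b := by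
    rw [sum_comm]
    refine (sum_le_sum fun u _ => hF u).trans ?_
    rw [sum_const, nsmul_eq_mul, card_univ, Fintype.card_fun, Fintype.card_fin]
    push_cast
    exact le_rfl
  rw [sum_congr rfl fun s _ => h1 s, sum_const, nsmul_eq_mul, card_univ] at h2
  exact h2

open Classical in
lemma sum_lbad (h6 : (6 : k) ≠ 0) :
    Fintype.card k * ∑ u : Fin n → k, (if lbad φ e A B u then (1 : ℝ) else 0) ≤
      (Fintype.card k : ℝ) ^ n * 2 := by
  refine sum_lines _ (dir e) 2 fun u => ?_
  rw [sum_ite, sum_const_zero, add_zero, sum_const, nsmul_eq_mul, mul_one]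
  have h3 : (3 : k) ≠ 0 := by
    intro h
    apply h6
    have : (6 : k) = 2 * 3 := by norm_num
    rw [this, h, mul_zero]
  have h27 : (27 : k) ≠ 0 := by
    have : (27 : k) = 3 ^ 3 := by norm_num
    rw [this]
    exact pow_ne_zero _ h3
  obtain ⟨P, hP⟩ : ∃ P : Polynomial k, P = Polynomial.C 27 * (Polynomial.X + Polynomial.C (lb φ e B u)) ^ 2 +
      Polynomial.C (4 * la φ e A u ^ 3) := ⟨_, rfl⟩
  have hdeg : P.natDegree = 2 := by
    rw [hP]
    compute_degree!
  have hP0 : P ≠ 0 := by
    intro h
    rw [h] at hdeg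
    simp at hdeg
  have h2 : (univ.filter fun s : k => lbad φ e A B (fun i => u i + s * dir e i)) ⊆ P.roots.toFinset := by
    intro s hs
    rw [mem_filter] at hs
    have hs2 := hs.2
    unfold lbad at hs2
    rw [la_shift, lb_shift] at hs2
    rw [Multiset.mem_toFinset, Polynomial.mem_roots hP0, Polynomial.IsRoot.def, hP]
    simp only [Polynomial.eval_add, Polynomial.eval_mul, Polynomial.eval_pow, Polynomial.eval_C,
      Polynomial.eval_X]
    rw [← hs2]
    ring
  have h4 := card_le_card h2
  have h5 : P.roots.toFinset.card ≤ 2 :=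
    (Multiset.toFinset_card_le _).trans ((Polynomial.card_roots' _).trans hdeg.le)
  exact_mod_cast h4.trans h5

end

section
variable {K : Type} [Field K] [NumberField K] {J : Type} {n : ℕ} (e : Option J ≃ Fin n)
  (A B : MvPolynomial J (𝓞 K))

/-- the reduction -/
noncomputable def mk (v : HeightOneSpectrum (𝓞 K)) : 𝓞 K →+* 𝓞 K ⧸ v.asIdeal := Ideal.Quotient.mk v.asIdeal

open Classical in
/-- the normalised trace of Frobenius -/
noncomputable def PhiT (v : HeightOneSpectrum (𝓞 K)) (u : Fin n → 𝓞 K ⧸ v.asIdeal) : ℝ :=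
  if (6 : 𝓞 K) ∈ v.asIdeal then 0 else
    -(lt (mk v) e A B u : ℝ) / Real.sqrt (Ideal.absNorm v.asIdeal)

open Classical in
/-- bad reduction -/
noncomputable def PhiB (v : HeightOneSpectrum (𝓞 K)) (u : Fin n → 𝓞 K ⧸ v.asIdeal) : ℝ :=
  if (6 : 𝓞 K) ∈ v.asIdeal then 0 else if lbad (mk v) e A B u then 1 else 0

omit [NumberField K] in
lemma six_ne (v : HeightOneSpectrum (𝓞 K)) (h6 : (6 : 𝓞 K) ∉ v.asIdeal) : (6 : 𝓞 K ⧸ v.asIdeal) ≠ 0 := by
  intro h
  apply h6
  rw [← Ideal.Quotient.eq_zero_iff_mem, map_ofNat]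
  exact h

lemma card_q (v : HeightOneSpectrum (𝓞 K)) :
    (Fintype.card (𝓞 K ⧸ v.asIdeal) : ℝ) = Ideal.absNorm v.asIdeal := by
  rw [norm_card, Nat.card_eq_fintype_card]

lemma PhiT_abs (v : HeightOneSpectrum (𝓞 K)) (u : Fin n → 𝓞 K ⧸ v.asIdeal) : |PhiT e A B v u| ≤ 2 := by
  unfold PhiT
  split_ifs with h6
  · simp
  · have h1 := csum_le (six_ne v h6) (-48 * la (mk v) e A u) (-864 * lb (mk v) e B u)
    have h2 := sq_one v
    rw [abs_div, abs_neg, abs_of_nonneg (Real.sqrt_nonneg _), div_le_iff₀ (by linarith), ← card_q]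
    exact h1

lemma PhiB_abs (v : HeightOneSpectrum (𝓞 K)) (u : Fin n → 𝓞 K ⧸ v.asIdeal) :
    0 ≤ PhiB e A B v u ∧ PhiB e A B v u ≤ 1 := by
  unfold PhiB
  split_ifs <;> norm_num

lemma Bd_zero (v : HeightOneSpectrum (𝓞 K)) {C : ℝ} (hC : 0 ≤ C) :
    Bd C 0 v (fun _ : Fin n → 𝓞 K ⧸ v.asIdeal => 0) := by
  have h1 := sq_one v
  refine ⟨fun u => ?_, ?_, ?_⟩
  · rw [abs_zero]
    positivity
  · unfold av
    simp
    exact hC
  · unfold av
    simp
    positivity

theorem Bd_T (v : HeightOneSpectrum (𝓞 K)) : Bd 4 0 v (PhiT e A B v) := by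
  by_cases h6 : (6 : 𝓞 K) ∈ v.asIdeal
  · have h1 : PhiT e A B v = fun _ => 0 := by
      funext u
      unfold PhiT
      rw [if_pos h6]
    rw [h1]
    exact Bd_zero v (by norm_num)
  · have h1 := sq_one v
    refine ⟨fun u => ?_, ?_, ?_⟩
    · have h2 := PhiT_abs e A B v u
      linarith
    · refine Pool.Agent.N647.NG.av_le v _ 4 fun u => ?_
      have h2 := PhiT_abs e A B v u
      rw [abs_le] at h2
      nlinarith
    · have h2 : av v (PhiT e A B v) = 0 := by
        unfold av
        rw [finsum_eq_sum_of_fintype]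
        have h3 : ∑ u, PhiT e A B v u = -(∑ u, (lt (mk v) e A B u : ℝ)) / Real.sqrt (Ideal.absNorm v.asIdeal) := by
          rw [← sum_neg_distrib, sum_div]
          refine sum_congr rfl fun u _ => ?_
          unfold PhiT
          rw [if_neg h6]
        rw [h3, sum_lt _ _ _ _ (six_ne v h6), neg_zero, zero_div, zero_div]
      rw [h2, sub_zero, abs_zero]
      positivity

open Classical in
theorem Bd_B (v : HeightOneSpectrum (𝓞 K)) : Bd 4 0 v (PhiB e A B v) := by
  by_cases h6 : (6 : 𝓞 K) ∈ v.asIdeal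
  · have h1 : PhiB e A B v = fun _ => 0 := by
      funext u
      unfold PhiB
      rw [if_pos h6]
    rw [h1]
    exact Bd_zero v (by norm_num)
  · have h1 := sq_one v
    have hq := q_one v
    refine ⟨fun u => ?_, ?_, ?_⟩
    · have h2 := PhiB_abs e A B v u
      rw [abs_of_nonneg h2.1]
      linarith
    · refine Pool.Agent.N647.NG.av_le v _ 4 fun u => ?_
      have h2 := PhiB_abs e A B v u
      nlinarith
    · have h2 : |av v (PhiB e A B v)| ≤ 2 / Ideal.absNorm v.asIdeal := by
        unfold av
        rw [finsum_eq_sum_of_fintype, abs_of_nonneg (div_nonneg (sum_nonneg fun u _ => (PhiB_abs e A B v u).1)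
          (by positivity)), div_le_div_iff₀ (by positivity) (by positivity)]
        have h3 := sum_lbad (mk v) e A B (six_ne v h6)
        rw [card_q] at h3
        have h4 : ∑ u, PhiB e A B v u = ∑ u : Fin n → 𝓞 K ⧸ v.asIdeal, (if lbad (mk v) e A B u then (1 : ℝ) else 0) := by
          refine sum_congr rfl fun u _ => ?_
          unfold PhiB
          rw [if_neg h6]
        rw [h4]
        linarith
      rw [sub_zero]
      refine h2.trans ?_
      have h5 : Real.sqrt (Ideal.absNorm v.asIdeal) ≤ Ideal.absNorm v.asIdeal := by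
        rw [Real.sqrt_le_left (by linarith)]
        nlinarith
      rw [div_le_div_iff₀ (by linarith) (by linarith)]
      linarith

end

end Pool.Agent.Helper94.EC
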