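import Pool.Agent.Helper94.EC.Tr
import Pool.Agent.N647.NG.AnaT

set_option autoImplicit false

/-! Dirichlet polynomials of the traces of Frobenius of the members of well distributed sequences of
elliptic curves over a number field. -/

namespace Pool.Agent.Helper94.EC

open Finset NumberField IsDedekindDomain Filter
open Pool.Agent.N842.HS (norm_card cf VT mem_VT)
open Pool.Agent.N647.NG (rc rc_mem rc_le rc_prime rd q_one sq_one genW ana_det Wt Wt_fin Wt_le Bd)
open Pool.Agent.H341R2.EC (trc IsMinAt)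
open Pool.Agent.Helper94.EN (md WD blk wd_conv wd_equiv)

section
variable {K : Type} [Field K] [NumberField K]

/-- the two local functions -/
noncomputable def Phi {J : Type} {n : ℕ} (e : Option J ≃ Fin n) (A B : MvPolynomial J (𝓞 K)) (θ : Bool)
    (v : HeightOneSpectrum (𝓞 K)) : (Fin n → 𝓞 K ⧸ v.asIdeal) → ℝ :=
  if θ then PhiT e A B v else PhiB e A B v

lemma ev_five (δ : ℝ) (hδ : 0 < δ) : ∀ᶠ T : ℕ in atTop, 5 * (T : ℝ) ^ (1 / 2 + δ / 8) ≤ (T : ℝ) ^ (1 / 2 + δ / 4) := by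
  have h1 : Tendsto (fun x : ℝ => x ^ (δ / 8)) atTop atTop := tendsto_rpow_atTop (by positivity)
  have h2 : ∀ᶠ x : ℝ in atTop, 5 * x ^ (1 / 2 + δ / 8) ≤ x ^ (1 / 2 + δ / 4) := by
    filter_upwards [h1.eventually (eventually_ge_atTop 5), eventually_gt_atTop 0] with x hx hx0
    have e1 : x ^ (1 / 2 + δ / 4) = x ^ (δ / 8) * x ^ (1 / 2 + δ / 8) := by
      rw [← Real.rpow_add hx0]
      congr 1
      ring
    rw [e1]
    exact mul_le_mul_of_nonneg_right hx (by positivity)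
  exact tendsto_natCast_atTop_atTop.eventually h2

lemma unvec {I J : Type} {n g : ℕ} (e : Option J ≃ Fin n) (e' : I ≃ Fin g) (c : Option J × I → ℤ) :
    (fun q => vec e e' c (finProdFinEquiv (e q.1, e' q.2))) = c := by
  funext q
  unfold vec
  simp

open Classical in
theorem sumsW {I J : Type} [Fintype I] [Fintype J] (ω : Module.Basis I ℤ (𝓞 K)) (A B : MvPolynomial J (𝓞 K))
    {κ₁ : ℝ} (hκ₁ : 0 < κ₁) (δ : ℝ) (hδ : 0 < δ) (k l : ℕ) : ∃ κ : ℝ, 0 < κ ∧
    ∀ (D : Set ℕ) (x : ℕ → Option J × I → ℤ), WD D x κ₁ → ∃ y₀ : ℕ, ∀ y N : ℕ, y₀ ≤ y →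
    ∀ W : Set (HeightOneSpectrum (𝓞 K) → ℝ), W.Finite → W.ncard ≤ y ^ l → (∀ w ∈ W, ∀ v, |w v| ≤ 1) →
    ∀ E : (Option J × I → ℤ) → Prop,
    (∀ c, (∀ V : HeightOneSpectrum (𝓞 K) → WeierstrassCurve (𝓞 K), (∀ v, IsMinAt (crv ω A B c) v (V v)) →
      ∀ T₁ T₂ : ℕ, y ≤ T₁ → T₁ ≤ T₂ → (T₂ : ℝ) ≤ (N : ℝ) ^ κ → ∀ w ∈ W, ∀ z : ℂ, 1 / 2 + δ ≤ z.re →
        |z.im| ≤ (T₁ : ℝ) ^ l →
        ‖∑ v ∈ (VT K T₂).filter (fun v => T₁ < Ideal.absNorm v.asIdeal),
          ((w v * (Gt V v * Real.log (Ideal.absNorm v.asIdeal)) : ℝ) : ℂ) *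
            (Ideal.absNorm v.asIdeal : ℂ) ^ (-z)‖ ≤ (T₁ : ℝ) ^ (1 / 2 + δ - z.re)) → E c) →
    (((blk D N).filter fun t => ¬ E (x t)).card : ℝ) ≤ 1 / (y : ℝ) ^ k * (blk D N).card := by
  obtain ⟨n, e⟩ : Σ n, Option J ≃ Fin n := ⟨_, Fintype.equivFin _⟩
  obtain ⟨g, e'⟩ : Σ g, I ≃ Fin g := ⟨_, Fintype.equivFin _⟩
  have hspan : Submodule.span ℤ (Set.range fun k => ω (e'.symm k)) = ⊤ := by
    have h1 : Set.range (fun k => ω (e'.symm k)) = Set.range ω :=
      e'.symm.surjective.range_comp ω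
    rw [h1]
    exact ω.span_eq
  obtain ⟨Me, y₁, hgen⟩ := genW (D := n) (fun k => ω (e'.symm k)) hspan (δ / 8) (by positivity) k (2 * (l + 1) + 5)
    (univ : Finset Bool) (Phi e A B) (fun _ => 0) (by
      intro θ _
      refine ⟨4, by norm_num, fun v => ?_⟩
      unfold Phi
      by_cases hθ : θ
      · rw [if_pos hθ]
        exact Bd_T e A B v
      · rw [if_neg hθ]
        exact Bd_B e A B v)
  obtain ⟨κ, hκ, hconv⟩ := wd_conv (d := n * g) hκ₁ Me
  obtain ⟨y₂, hdet⟩ := ana_det (K := K) δ hδ 2 (by norm_num)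
  obtain ⟨y₃, hy₃⟩ := eventually_atTop.1 (ev_five δ hδ)
  refine ⟨κ, hκ, fun D x hx => ?_⟩
  have hx' : WD D (fun t => vec e e' (x t)) κ₁ :=
    wd_equiv (finProdFinEquiv.symm.trans (Equiv.prodCongr e.symm e'.symm)) hx
  obtain ⟨y₄, hmain⟩ := hconv D _ hx'
  refine ⟨y₁ + y₂ + y₃ + y₄ + 3, fun y N hy W hW hWc hW1 E hE => ?_⟩
  -- the weights
  obtain ⟨W₁, hW₁⟩ : ∃ W₁ : Set (HeightOneSpectrum (𝓞 K) → ℝ), W₁ = insert (fun _ => 1) W := ⟨_, rfl⟩
  have hW₁f : W₁.Finite := by rw [hW₁]; exact hW.insert _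
  have hW₁c : W₁.ncard ≤ y ^ (l + 1) := by
    rw [hW₁]
    refine (Set.ncard_insert_le _ _).trans ?_
    have h1 : 1 ≤ y ^ l := Nat.one_le_pow _ _ (by omega)
    calc W.ncard + 1 ≤ y ^ l + y ^ l := by omega
      _ = y ^ l * 2 := by ring
      _ ≤ y ^ l * y := Nat.mul_le_mul_left _ (by omega)
      _ = y ^ (l + 1) := by ring
  have hW₁1 : ∀ w ∈ W₁, ∀ v, |w v| ≤ 1 := by
    intro w hw v
    rw [hW₁, Set.mem_insert_iff] at hw
    rcases hw with rfl | hw
    · simp
    · exact hW1 w hw v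
  obtain ⟨WT, hWT⟩ : ∃ WT : ℕ → Set (HeightOneSpectrum (𝓞 K) → ℝ), WT = fun T => if y ≤ T then Wt W₁ (l + 1) T else ∅ :=
    ⟨_, rfl⟩
  have h1 := hmain y N k (by omega) (fun T m => ∀ w ∈ WT T, ∀ θ ∈ (univ : Finset Bool),
    |∑ v ∈ VT K T, w v * ((Phi e A B θ v (rd (fun k => ω (e'.symm k)) v m) - 0) *
      Real.log (Ideal.absNorm v.asIdeal))| ≤ (T : ℝ) ^ (1 / 2 + δ / 8))
    (fun S v H hw E' hE' => hgen S v H y hw (by omega) WT (fun T => by
      rw [hWT]
      beta_reduce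
      split_ifs with hT
      · exact Wt_fin W₁ hW₁f (l + 1) y T (by omega) hT hW₁c
      · exact ⟨Set.finite_empty, by rw [Set.ncard_empty]; exact Nat.zero_le _⟩) (fun T w hw' v' => by
      rw [hWT] at hw'
      beta_reduce at hw'
      split_ifs at hw' with hT
      · exact Wt_le W₁ hW₁1 (l + 1) T w hw' v'
      · exact absurd hw' (Set.notMem_empty _)) E' hE')
    (fun m => E (fun q => m (finProdFinEquiv (e q.1, e' q.2)))) ?_
  · refine le_trans (le_of_eq ?_) h1
    congr 2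
    apply Finset.filter_congr
    intro t _
    rw [unvec]
  · intro m L hL0 hL hR
    obtain ⟨c, hc⟩ : ∃ c : Option J × I → ℤ, c = fun q => m (finProdFinEquiv (e q.1, e' q.2)) := ⟨_, rfl⟩
    have hm : m = vec e e' c := by
      rw [hc]
      funext i
      unfold vec
      beta_reduce
      rw [Equiv.apply_symm_apply, Equiv.apply_symm_apply, Prod.mk.eta, Equiv.apply_symm_apply]
    rw [← hc]
    refine hE c fun V hV T₁ T₂ hyT hT12 hTN w hw z hz1 hz2 => ?_
    have h2 := hdet (l + 1) y T₂ (by omega) W₁ hW₁1 (Gt V) (fun v => by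
      have h3 := Gt_abs V v
      have h4 := sq_one v
      linarith) ∅ (fun T hyT' hTX w' hw' => ?_) T₁ T₂ hyT hT12 le_rfl w (by rw [hW₁]; exact Set.mem_insert_of_mem _ hw)
      z hz1 (hz2.trans (pow_le_pow_right₀ (by exact_mod_cast (by omega : 1 ≤ T₁)) (by omega)))
    · simp only [Set.mem_empty_iff_false, not_false_iff, true_and] at h2
      exact h2
    · have hTN' : (T : ℝ) ≤ (N : ℝ) ^ κ := le_trans (by exact_mod_cast hTX) hTN
      have hRT := hR T hyT' hTN'
      have hmemT : WT T = Wt W₁ (l + 1) T := by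
        rw [hWT]
        beta_reduce
        rw [if_pos hyT']
      rw [hmemT] at hRT
      have h5 := hRT w' hw' true (mem_univ _)
      have hone : (fun _ => 1 : HeightOneSpectrum (𝓞 K) → ℝ) ∈ Wt W₁ (l + 1) T := by
        refine ⟨((fun _ => 1), 0, true), ⟨by rw [hW₁]; exact Set.mem_insert _ _, ?_, Set.mem_univ _⟩, ?_⟩
        · have : (0 : ℤ) ≤ (T : ℤ) ^ (l + 1 + 2) := by positivity
          constructor <;> linarith
        · funext v
          simp
      have h6 := hRT _ hone false (mem_univ _)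
      have hdvd : ∀ v ∈ VT K T, rc v ∣ L := by
        intro v hv
        rw [mem_VT] at hv
        refine hL (rc v) (rc_prime v).one_lt.le (le_trans ?_ hTN')
        exact_mod_cast (rc_le v).trans hv
      simp only [Phi, if_true, sub_zero] at h5
      simp only [Phi, if_false, sub_zero, one_mul, Bool.false_eq_true] at h6
      have hw1 : ∀ v, |w' v| ≤ 1 := fun v => Wt_le W₁ hW₁1 (l + 1) T w' hw' v
      have hlog : ∀ v : HeightOneSpectrum (𝓞 K), 0 ≤ Real.log (Ideal.absNorm v.asIdeal) := fun v =>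
        Real.log_nonneg (q_one v)
      have h7 : |∑ v ∈ VT K T, w' v * (Gt V v * Real.log (Ideal.absNorm v.asIdeal)) -
          ∑ v ∈ VT K T, w' v * (PhiT e A B v (rd (fun k => ω (e'.symm k)) v (md L m)) *
            Real.log (Ideal.absNorm v.asIdeal))| ≤
          4 * ∑ v ∈ VT K T, PhiB e A B v (rd (fun k => ω (e'.symm k)) v (md L m)) *
            Real.log (Ideal.absNorm v.asIdeal) := by
        rw [← sum_sub_distrib, mul_sum]
        refine (abs_sum_le_sum_abs _ _).trans (sum_le_sum fun v hv => ?_)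
        have h8 := Gt_near e e' ω A B c V hV v hL0 (hdvd v hv)
        rw [← hm] at h8
        have e1 : w' v * (Gt V v * Real.log (Ideal.absNorm v.asIdeal)) -
            w' v * (PhiT e A B v (rd (fun k => ω (e'.symm k)) v (md L m)) *
              Real.log (Ideal.absNorm v.asIdeal)) =
            w' v * ((Gt V v - PhiT e A B v (rd (fun k => ω (e'.symm k)) v (md L m))) *
              Real.log (Ideal.absNorm v.asIdeal)) := by ring
        rw [e1, abs_mul, abs_mul, abs_of_nonneg (hlog v)]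
        have h9 : 0 ≤ |Gt V v - PhiT e A B v (rd (fun k => ω (e'.symm k)) v (md L m))| := abs_nonneg _
        calc |w' v| * (|Gt V v - PhiT e A B v (rd (fun k => ω (e'.symm k)) v (md L m))| *
              Real.log (Ideal.absNorm v.asIdeal)) ≤ 1 * ((4 * PhiB e A B v (rd (fun k => ω (e'.symm k)) v (md L m))) *
              Real.log (Ideal.absNorm v.asIdeal)) := by
                apply mul_le_mul (hw1 v) _ (mul_nonneg h9 (hlog v)) zero_le_one
                exact mul_le_mul_of_nonneg_right h8 (hlog v)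
          _ = _ := by ring
      have h10 : ∀ dp : DecidablePred fun v : HeightOneSpectrum (𝓞 K) => v ∉ (∅ : Set (HeightOneSpectrum (𝓞 K))),
          @Finset.filter _ (fun v => v ∉ (∅ : Set (HeightOneSpectrum (𝓞 K)))) dp (VT K T) = VT K T := fun dp =>
        Finset.filter_true_of_mem fun v _ => Set.notMem_empty v
      rw [h10]
      have h11 := hy₃ T (by omega)
      have h12 := abs_sub_abs_le_abs_sub (∑ v ∈ VT K T, w' v * (Gt V v * Real.log (Ideal.absNorm v.asIdeal)))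
        (∑ v ∈ VT K T, w' v * (PhiT e A B v (rd (fun k => ω (e'.symm k)) v (md L m)) *
            Real.log (Ideal.absNorm v.asIdeal)))
      have h13 := le_abs_self (∑ v ∈ VT K T, PhiB e A B v (rd (fun k => ω (e'.symm k)) v (md L m)) *
            Real.log (Ideal.absNorm v.asIdeal))
      linarith

end

end Pool.Agent.Helper94.EC
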