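import Pool.Agent.Helper94.EC.Fac

set_option autoImplicit false

/-! The contribution of the prime ideals of large norm near the edge of absolute convergence. -/

namespace Pool.Agent.Helper94.EC

open Finset NumberField IsDedekindDomain Filter Topology
open Pool.Agent.N842.HS (VT mem_VT)
open Pool.Agent.N647.NG (rc q_one sq_one sum_VT Vp card_Vp rc_le)
open Pool.Agent.H341R2.EC (trc)
open Pool.Agent.H921R2.TatePole (nm two_le_nm)

lemma sum_pow_le (ε : ℝ) (hε : 0 < ε) (T : ℕ) : ∑ k ∈ Icc 1 T, (k : ℝ) ^ (-(1 + ε)) ≤ 1 + 1 / ε := by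
  -- `k ^ (-(1 + ε)) ≤ ((k - 1) ^ (-ε) - k ^ (-ε)) / ε` for `k ≥ 2`
  have key : ∀ T : ℕ, 1 ≤ T → ∑ k ∈ Icc 1 T, (k : ℝ) ^ (-(1 + ε)) ≤ 1 + (1 - (T : ℝ) ^ (-ε)) / ε := by
    intro T hT
    induction T, hT using Nat.le_induction with
    | base => simp
    | succ n hn ih =>
      rw [sum_Icc_succ_top (by omega)]
      have hn0 : (0 : ℝ) < n := by exact_mod_cast hn
      have hn1 : (1 : ℝ) ≤ n := by exact_mod_cast hn
      have h1 : ε * ((n + 1 : ℕ) : ℝ) ^ (-(1 + ε)) ≤ (n : ℝ) ^ (-ε) - ((n + 1 : ℕ) : ℝ) ^ (-ε) := by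
        -- Bernoulli: `(1 + 1/n) ^ ε ≥ 1 + ε / (n + 1)`
        have e1 : ((n + 1 : ℕ) : ℝ) = n + 1 := by push_cast; ring
        rw [e1]
        have h2 : ((n : ℝ) + 1) ^ (-(1 + ε)) = ((n : ℝ) + 1) ^ (-ε) / (n + 1) := by
          rw [neg_add, Real.rpow_add (by linarith), Real.rpow_neg_one]
          field_simp
        have h3 : (n : ℝ) ^ (-ε) = ((n : ℝ) + 1) ^ (-ε) * ((n : ℝ) / (n + 1)) ^ (-ε) := by
          rw [← Real.mul_rpow (by linarith) (by positivity)]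
          congr 1
          field_simp
        have h4 : 1 + ε / (n + 1) ≤ ((n : ℝ) / (n + 1)) ^ (-ε) := by
          rw [Real.rpow_def_of_pos (by positivity)]
          have h5 : Real.log ((n : ℝ) / (n + 1)) ≤ (n : ℝ) / (n + 1) - 1 := Real.log_le_sub_one_of_pos (by positivity)
          have h6 : (n : ℝ) / (n + 1) - 1 = -(1 / (n + 1)) := by field_simp; ring
          have h7 := Real.add_one_le_exp (Real.log ((n : ℝ) / (n + 1)) * -ε)
          rw [h6] at h5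
          have h8 : ε / (n + 1) ≤ Real.log ((n : ℝ) / (n + 1)) * -ε := by
            have : ε * (1 / ((n : ℝ) + 1)) ≤ ε * (-Real.log ((n : ℝ) / (n + 1))) :=
              mul_le_mul_of_nonneg_left (by linarith) hε.le
            calc ε / (n + 1) = ε * (1 / ((n : ℝ) + 1)) := by ring
              _ ≤ _ := this
              _ = _ := by ring
          linarith
        have h9 : 0 < ((n : ℝ) + 1) ^ (-ε) := by positivity
        rw [h2, h3]
        have h10 := mul_le_mul_of_nonneg_left h4 h9.le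
        have e3 : ε * (((n : ℝ) + 1) ^ (-ε) / (n + 1)) = ((n : ℝ) + 1) ^ (-ε) * (ε / (n + 1)) := by ring
        rw [e3]
        nlinarith
      have h11 : ((n + 1 : ℕ) : ℝ) ^ (-(1 + ε)) ≤ ((n : ℝ) ^ (-ε) - ((n + 1 : ℕ) : ℝ) ^ (-ε)) / ε := by
        rw [le_div_iff₀ hε]
        linarith
      calc _ ≤ 1 + (1 - (n : ℝ) ^ (-ε)) / ε + ((n : ℝ) ^ (-ε) - ((n + 1 : ℕ) : ℝ) ^ (-ε)) / ε := add_le_add ih h11
        _ = _ := by ring
  rcases Nat.eq_zero_or_pos T with hT | hT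
  · subst hT
    simp
    positivity
  · refine (key T hT).trans ?_
    have h1 : 0 ≤ (T : ℝ) ^ (-ε) := by positivity
    have h2 : (1 - (T : ℝ) ^ (-ε)) / ε ≤ 1 / ε := by
      apply div_le_div_of_nonneg_right _ hε.le
      linarith
    linarith

section
variable {K : Type} [Field K] [NumberField K]

lemma sum_norm_le (ε : ℝ) (hε : 0 < ε) (T : ℕ) : ∑ v ∈ VT K T, (nm v : ℝ) ^ (-(1 + ε)) ≤
    Module.finrank ℤ (𝓞 K) * (1 + 1 / ε) := by
  have e0 : ∑ v ∈ VT K T, (nm v : ℝ) ^ (-(1 + ε)) = ∑ v ∈ VT K T, (Ideal.absNorm v.asIdeal : ℝ) ^ (-(1 + ε)) := rfl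
  rw [e0, sum_VT]
  have h1 : ∀ p ∈ (Icc 1 T).filter Nat.Prime, ∑ v ∈ Vp K T p, (Ideal.absNorm v.asIdeal : ℝ) ^ (-(1 + ε)) ≤
      Module.finrank ℤ (𝓞 K) * (p : ℝ) ^ (-(1 + ε)) := by
    intro p hp
    rw [mem_filter] at hp
    have h2 : ∀ v ∈ Vp K T p, (Ideal.absNorm v.asIdeal : ℝ) ^ (-(1 + ε)) ≤ (p : ℝ) ^ (-(1 + ε)) := by
      intro v hv
      unfold Vp at hv
      rw [mem_filter] at hv
      apply Real.rpow_le_rpow_of_nonpos
      · exact_mod_cast hp.2.pos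
      · rw [← hv.2]
        exact_mod_cast rc_le v
      · linarith
    refine (sum_le_sum h2).trans ?_
    rw [sum_const, nsmul_eq_mul]
    apply mul_le_mul_of_nonneg_right _ (by positivity)
    exact_mod_cast card_Vp T p hp.2
  refine (sum_le_sum h1).trans ?_
  rw [← mul_sum]
  apply mul_le_mul_of_nonneg_left _ (Nat.cast_nonneg _)
  refine le_trans ?_ (sum_pow_le ε hε T)
  exact sum_le_sum_of_subset_of_nonneg (filter_subset _ _) fun _ _ _ => by positivity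

/-- the tail -/
lemma tail_le (η : ℝ) (hη : 0 < η) (X T : ℕ) (hX : 1 ≤ X) :
    ∑ v ∈ bt K X T, (nm v : ℝ) ^ (-(1 + η)) * (1 + Real.log (nm v)) ≤
      (Module.finrank ℤ (𝓞 K) * (1 + 4 / η) ^ 2) * (X : ℝ) ^ (-(η / 2)) := by
  have hX0 : (0 : ℝ) < X := by exact_mod_cast hX
  have h1 : ∀ v ∈ bt K X T, (nm v : ℝ) ^ (-(1 + η)) * (1 + Real.log (nm v)) ≤
      (X : ℝ) ^ (-(η / 2)) * (1 + 4 / η) * (nm v : ℝ) ^ (-(1 + η / 4)) := by
    intro v hv
    rw [mem_bt] at hv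
    have hq : (1 : ℝ) ≤ nm v := by exact_mod_cast (by omega : 1 ≤ nm v)
    have hq0 : (0 : ℝ) < nm v := by linarith
    have hXv : (X : ℝ) ≤ nm v := by exact_mod_cast hv.1.le
    have h2 := Real.log_le_rpow_div hq0.le (show 0 < η / 4 by positivity)
    have h3 : (1 : ℝ) ≤ (nm v : ℝ) ^ (η / 4) := Real.one_le_rpow hq (by positivity)
    have h4 : 1 + Real.log (nm v) ≤ (1 + 4 / η) * (nm v : ℝ) ^ (η / 4) := by
      have e1 : (nm v : ℝ) ^ (η / 4) / (η / 4) = 4 / η * (nm v : ℝ) ^ (η / 4) := by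
        field_simp
      rw [e1] at h2
      linarith
    have e2 : (nm v : ℝ) ^ (-(1 + η)) = (nm v : ℝ) ^ (-(η / 2)) * ((nm v : ℝ) ^ (-(1 + η / 4)) * (nm v : ℝ) ^ (-(η / 4))) := by
      rw [← Real.rpow_add hq0, ← Real.rpow_add hq0]
      congr 1
      ring
    have h5 : (nm v : ℝ) ^ (-(η / 2)) ≤ (X : ℝ) ^ (-(η / 2)) :=
      Real.rpow_le_rpow_of_nonpos hX0 hXv (by linarith)
    have e3 : (nm v : ℝ) ^ (-(η / 4)) * (nm v : ℝ) ^ (η / 4) = 1 := by
      rw [← Real.rpow_add hq0, neg_add_cancel, Real.rpow_zero]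
    have h6 : 0 ≤ 1 + Real.log (nm v) := by
      have := Real.log_nonneg hq
      linarith
    calc (nm v : ℝ) ^ (-(1 + η)) * (1 + Real.log (nm v)) ≤
          (nm v : ℝ) ^ (-(1 + η)) * ((1 + 4 / η) * (nm v : ℝ) ^ (η / 4)) :=
          mul_le_mul_of_nonneg_left h4 (by positivity)
      _ = (nm v : ℝ) ^ (-(η / 2)) * (1 + 4 / η) * (nm v : ℝ) ^ (-(1 + η / 4)) *
          ((nm v : ℝ) ^ (-(η / 4)) * (nm v : ℝ) ^ (η / 4)) := by rw [e2]; ring
      _ = (nm v : ℝ) ^ (-(η / 2)) * ((1 + 4 / η) * (nm v : ℝ) ^ (-(1 + η / 4))) := by rw [e3]; ring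
      _ ≤ (X : ℝ) ^ (-(η / 2)) * ((1 + 4 / η) * (nm v : ℝ) ^ (-(1 + η / 4))) :=
          mul_le_mul_of_nonneg_right h5 (by positivity)
      _ = _ := by ring
  refine (sum_le_sum h1).trans ?_
  rw [← mul_sum]
  have h7 : ∑ v ∈ bt K X T, (nm v : ℝ) ^ (-(1 + η / 4)) ≤ Module.finrank ℤ (𝓞 K) * (1 + 1 / (η / 4)) := by
    refine le_trans ?_ (sum_norm_le (η / 4) (by positivity) T)
    exact sum_le_sum_of_subset_of_nonneg (filter_subset _ _) fun _ _ _ => by positivity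
  have e4 : 1 / (η / 4) = 4 / η := by field_simp
  rw [e4] at h7
  calc _ ≤ (X : ℝ) ^ (-(η / 2)) * (1 + 4 / η) * (Module.finrank ℤ (𝓞 K) * (1 + 4 / η)) :=
        mul_le_mul_of_nonneg_left h7 (by positivity)
    _ = _ := by ring

/-- the numerical estimate for the tail -/
lemma tail_num {κ u τ η : ℝ} (hκ : 0 < κ) (hκ1 : κ ≤ 1) (hu : 1 ≤ u) (hτ : 1 ≤ τ) (hτu : τ ≤ κ * u)
    (hη : (τ + Real.log u) / (κ * u) ≤ η) :
    (1 + 4 / η) ^ 2 * Real.exp (-(8 * κ * η * u)) ≤ 25 * Real.exp (-(5 * τ)) * Real.exp (-(η * τ)) := by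
  have hu0 : 0 < u := by linarith
  have hl : 0 ≤ Real.log u := Real.log_nonneg hu
  have hη0 : 0 < η := lt_of_lt_of_le (by positivity) hη
  have h1 : τ + Real.log u ≤ κ * η * u := by
    rw [div_le_iff₀ (by positivity)] at hη
    linarith
  have h2 : η * τ ≤ κ * η * u := by nlinarith
  have h3 : 1 + 4 / η ≤ 5 * u := by
    have h4 : 4 / η ≤ 4 * u := by
      rw [div_le_iff₀ hη0]
      have : 1 ≤ u * η := by nlinarith
      linarith
    linarith
  have h5 : (1 + 4 / η) ^ 2 ≤ 25 * u ^ 2 := by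
    have : (1 + 4 / η) ^ 2 ≤ (5 * u) ^ 2 := pow_le_pow_left₀ (by positivity) h3 2
    linarith
  have h6 : u ^ 2 = Real.exp (2 * Real.log u) := by
    rw [mul_comm, Real.exp_mul, Real.exp_log hu0]
    norm_cast
  calc (1 + 4 / η) ^ 2 * Real.exp (-(8 * κ * η * u)) ≤ 25 * u ^ 2 * Real.exp (-(8 * κ * η * u)) :=
        mul_le_mul_of_nonneg_right h5 (Real.exp_pos _).le
    _ = 25 * Real.exp (2 * Real.log u + -(8 * κ * η * u)) := by
        rw [h6, mul_assoc, Real.exp_add]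
    _ ≤ 25 * Real.exp (-(5 * τ) + -(η * τ)) := by
        apply mul_le_mul_of_nonneg_left _ (by norm_num)
        apply Real.exp_le_exp.2
        nlinarith
    _ = _ := by
        rw [Real.exp_add]
        ring

end

end Pool.Agent.Helper94.EC
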