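import Pool.Agent.Helper94.EC.Loc
import Pool.Agent.Helper94.EN.Conv

set_option autoImplicit false

/-! The traces of Frobenius of the members of the family in terms of the local functions. -/

namespace Pool.Agent.Helper94.EC

open Finset NumberField IsDedekindDomain
open Pool.Agent.N842.HS (norm_card cf)
open Pool.Agent.N647.NG (rc rc_mem rd q_one sq_one)
open Pool.Agent.H341R2.EC (csum csumv trc IsMinAt count_good)
open Pool.Agent.H341R2 (chi)
open Pool.Agent.H921R2.TatePole (nm)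
open Pool.Agent.Helper94.EN (md md_dvd)

section
variable {K : Type} [Field K] [NumberField K]

/-- the trace of a curve in short form at a prime of good reduction of the short form -/
theorem trc_all (a b : 𝓞 K) (E : WeierstrassCurve K) (hE : E = ⟨0, 0, 0, (a : K), (b : K)⟩)
    (V : HeightOneSpectrum (𝓞 K) → WeierstrassCurve (𝓞 K)) (hV : ∀ v, IsMinAt E v (V v))
    (v : HeightOneSpectrum (𝓞 K)) (h6 : (6 : 𝓞 K) ∉ v.asIdeal)
    (hD : 4 * mk v a ^ 3 + 27 * mk v b ^ 2 ≠ 0) :
    trc V v = -csum (-48 * mk v a) (-864 * mk v b) := by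
  have hker : ∀ x : 𝓞 K, x ∈ v.asIdeal ↔ mk v x = 0 := fun x => by
    unfold mk
    exact Ideal.Quotient.eq_zero_iff_mem.symm
  have h1 : IsMinAt (Pool.Agent.H341R2.EC.twist E ((1 : 𝓞 K) : K)) v (V v) := by
    have e1 : ((1 : 𝓞 K) : K) = 1 := map_one (algebraMap (𝓞 K) K)
    rw [e1]
    exact Pool.Agent.R433.MD.isMinAt_one E v _ (hV v)
  have hP : (((-48 * a : 𝓞 K)) : K) = (((1 : 𝓞 K)) : K) ^ 4 * E.c₄ := by
    rw [hE]
    simp only [WeierstrassCurve.c₄, WeierstrassCurve.b₂, WeierstrassCurve.b₄, map_mul, map_neg, map_ofNat,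
      map_one]
    ring
  have hQ : (((-864 * b : 𝓞 K)) : K) = (((1 : 𝓞 K)) : K) ^ 6 * E.c₆ := by
    rw [hE]
    simp only [WeierstrassCurve.c₆, WeierstrassCurve.b₂, WeierstrassCurve.b₄, WeierstrassCurve.b₆, map_mul,
      map_neg, map_ofNat, map_one]
    ring
  have hDv : (-48 * a) ^ 3 - (-864 * b) ^ 2 ∉ v.asIdeal := by
    rw [hker]
    have e2 : mk v ((-48 * a) ^ 3 - (-864 * b) ^ 2) = -27648 * (4 * mk v a ^ 3 + 27 * mk v b ^ 2) := by
      simp only [map_sub, map_pow, map_mul, map_neg, map_ofNat]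
      ring
    rw [e2]
    apply mul_ne_zero _ hD
    rw [neg_ne_zero]
    intro h
    apply six_ne v h6
    have h7 : (6 : 𝓞 K ⧸ v.asIdeal) ^ 10 = 0 := by
      have : (6 : 𝓞 K ⧸ v.asIdeal) ^ 10 = 27648 * 2187 := by norm_num
      rw [this, h, zero_mul]
    exact pow_eq_zero_iff (by norm_num) |>.mp h7
  have h2 := count_good one_ne_zero hP hQ h1 h6 (fun h => v.isPrime.ne_top
    (v.asIdeal.eq_top_iff_one.2 h)) hDv
  have h3 := h2.2
  unfold trc
  rw [h3]
  have h4 : chi (1 : 𝓞 K) v = 1 := by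
    unfold chi
    rw [map_one, map_one]
  rw [h4, one_mul]
  have h5 : csumv (-48 * a) (-864 * b) v = csum (-48 * mk v a) (-864 * mk v b) := by
    unfold csumv mk
    simp only [map_mul, map_neg, map_ofNat]
  rw [h5]
  ring

variable {I J : Type} [Fintype I]

/-- the parameters in the ring of integers -/
noncomputable def par (ω : Module.Basis I ℤ (𝓞 K)) (c : Option J × I → ℤ) (j : Option J) : 𝓞 K :=
  ∑ i, ((c (j, i) : ℤ) : 𝓞 K) * ω i

/-- the coefficient of `x` -/
noncomputable def c4 (ω : Module.Basis I ℤ (𝓞 K)) (A : MvPolynomial J (𝓞 K)) (c : Option J × I → ℤ) : 𝓞 K :=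
  MvPolynomial.eval (fun j => par ω c (some j)) A

/-- the constant coefficient -/
noncomputable def c6 (ω : Module.Basis I ℤ (𝓞 K)) (B : MvPolynomial J (𝓞 K)) (c : Option J × I → ℤ) : 𝓞 K :=
  MvPolynomial.eval (fun j => par ω c (some j)) B + par ω c none

/-- the curve -/
noncomputable def crv (ω : Module.Basis I ℤ (𝓞 K)) (A B : MvPolynomial J (𝓞 K)) (c : Option J × I → ℤ) :
    WeierstrassCurve K where
  a₁ := 0
  a₂ := 0
  a₃ := 0
  a₄ := (c4 ω A c : K)
  a₆ := (c6 ω B c : K)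

variable {n g : ℕ} (e : Option J ≃ Fin n) (e' : I ≃ Fin g)

/-- the coordinates in one vector -/
def vec (c : Option J × I → ℤ) (k : Fin (n * g)) : ℤ :=
  c (e.symm (finProdFinEquiv.symm k).1, e'.symm (finProdFinEquiv.symm k).2)

lemma rd_md (ω : Module.Basis I ℤ (𝓞 K)) (c : Option J × I → ℤ) (v : HeightOneSpectrum (𝓞 K)) {L : ℕ}
    (hL : 0 < L) (hv : rc v ∣ L) (j : Option J) :
    rd (D := n) (fun k => ω (e'.symm k)) v (md L (vec e e' c)) (e j) = mk v (par ω c j) := by
  unfold rd cf par mk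
  rw [map_sum, map_sum, ← Equiv.sum_comp e'.symm]
  refine sum_congr rfl fun k _ => ?_
  rw [map_mul, map_mul]
  congr 1
  rw [Ideal.Quotient.eq]
  have h1 := md_dvd hL hv (vec e e' c) (finProdFinEquiv (e j, k))
  have h2 : vec e e' c (finProdFinEquiv (e j, k)) = c (j, e'.symm k) := by
    unfold vec
    rw [Equiv.symm_apply_apply, Equiv.symm_apply_apply]
  rw [h2] at h1
  obtain ⟨z, hz⟩ := h1
  have h3 : ((md L (vec e e' c) (finProdFinEquiv (e j, k)) : ℕ) : 𝓞 K) - ((c (j, e'.symm k) : ℤ) : 𝓞 K) =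
      ((rc v : ℕ) : 𝓞 K) * ((z : ℤ) : 𝓞 K) := by
    have := congrArg (fun t : ℤ => (t : 𝓞 K)) hz
    push_cast at this
    exact this
  rw [h3]
  exact Ideal.mul_mem_right _ _ (rc_mem v)

lemma la_md (ω : Module.Basis I ℤ (𝓞 K)) (A : MvPolynomial J (𝓞 K)) (c : Option J × I → ℤ)
    (v : HeightOneSpectrum (𝓞 K)) {L : ℕ} (hL : 0 < L) (hv : rc v ∣ L) :
    la (mk v) e A (rd (D := n) (fun k => ω (e'.symm k)) v (md L (vec e e' c))) = mk v (c4 ω A c) := by
  unfold la c4
  have h := MvPolynomial.eval₂_comp_left (mk v) (RingHom.id (𝓞 K)) (fun j => par ω c (some j)) A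
  rw [RingHom.comp_id] at h
  have h2 : MvPolynomial.eval (fun j => par ω c (some j)) A =
      MvPolynomial.eval₂ (RingHom.id (𝓞 K)) (fun j => par ω c (some j)) A := rfl
  rw [h2, h]
  congr 1
  funext j
  rw [rd_md e e' ω c v hL hv]
  rfl

lemma lb_md (ω : Module.Basis I ℤ (𝓞 K)) (B : MvPolynomial J (𝓞 K)) (c : Option J × I → ℤ)
    (v : HeightOneSpectrum (𝓞 K)) {L : ℕ} (hL : 0 < L) (hv : rc v ∣ L) :
    lb (mk v) e B (rd (D := n) (fun k => ω (e'.symm k)) v (md L (vec e e' c))) = mk v (c6 ω B c) := by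
  have h := la_md e e' ω B c v hL hv
  unfold la c4 at h
  unfold lb c6
  rw [h, rd_md e e' ω c v hL hv, map_add]

/-- the normalised trace of Frobenius, `0` at the primes above `6` -/
noncomputable def Gt (V : HeightOneSpectrum (𝓞 K) → WeierstrassCurve (𝓞 K)) (v : HeightOneSpectrum (𝓞 K)) : ℝ :=
  open Classical in if (6 : 𝓞 K) ∈ v.asIdeal then 0 else (trc V v : ℝ) / Real.sqrt (Ideal.absNorm v.asIdeal)

lemma Gt_abs (V : HeightOneSpectrum (𝓞 K) → WeierstrassCurve (𝓞 K)) (v : HeightOneSpectrum (𝓞 K)) :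
    |Gt V v| ≤ 2 := by
  unfold Gt
  split_ifs with h6
  · simp
  · have h1 := Pool.Agent.N534.EC.trc_hasse V v h6
    have h2 := sq_one v
    rw [abs_div, abs_of_nonneg (Real.sqrt_nonneg _), div_le_iff₀ (by linarith)]
    exact h1

/-- the true trace and the local function differ at the primes of bad reduction only -/
theorem Gt_near (ω : Module.Basis I ℤ (𝓞 K)) (A B : MvPolynomial J (𝓞 K)) (c : Option J × I → ℤ)
    (V : HeightOneSpectrum (𝓞 K) → WeierstrassCurve (𝓞 K)) (hV : ∀ v, IsMinAt (crv ω A B c) v (V v))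
    (v : HeightOneSpectrum (𝓞 K)) {L : ℕ} (hL : 0 < L) (hv : rc v ∣ L) :
    |Gt V v - PhiT e A B v (rd (D := n) (fun k => ω (e'.symm k)) v (md L (vec e e' c)))| ≤
      4 * PhiB e A B v (rd (D := n) (fun k => ω (e'.symm k)) v (md L (vec e e' c))) := by
  by_cases h6 : (6 : 𝓞 K) ∈ v.asIdeal
  · unfold Gt PhiT PhiB
    rw [if_pos h6, if_pos h6, if_pos h6]
    simp
  · by_cases hb : lbad (mk v) e A B (rd (D := n) (fun k => ω (e'.symm k)) v (md L (vec e e' c)))
    · have h1 := Gt_abs V v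
      have h2 := PhiT_abs e A B v (rd (D := n) (fun k => ω (e'.symm k)) v (md L (vec e e' c)))
      have h3 : PhiB e A B v (rd (D := n) (fun k => ω (e'.symm k)) v (md L (vec e e' c))) = 1 := by
        unfold PhiB
        rw [if_neg h6, if_pos hb]
      rw [h3]
      refine (abs_sub _ _).trans ?_
      linarith
    · have h3 : PhiB e A B v (rd (D := n) (fun k => ω (e'.symm k)) v (md L (vec e e' c))) = 0 := by
        unfold PhiB
        rw [if_neg h6, if_neg hb]
      have hD : 4 * mk v (c4 ω A c) ^ 3 + 27 * mk v (c6 ω B c) ^ 2 ≠ 0 := by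
        intro h
        apply hb
        unfold lbad
        rw [la_md e e' ω A c v hL hv, lb_md e e' ω B c v hL hv]
        exact h
      have h4 := trc_all (c4 ω A c) (c6 ω B c) (crv ω A B c) rfl V hV v h6 hD
      have h5 : Gt V v = PhiT e A B v (rd (D := n) (fun k => ω (e'.symm k)) v (md L (vec e e' c))) := by
        unfold Gt PhiT lt
        rw [if_neg h6, if_neg h6, la_md e e' ω A c v hL hv, lb_md e e' ω B c v hL hv, h4]
        push_cast
        ring
      rw [h3, h5, sub_self, abs_zero, mul_zero]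

end

end Pool.Agent.Helper94.EC
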